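import Pool.Agent.Helper999.CWMader

set_option autoImplicit false

namespace Pool.Agent.Helper999.CW

open SimpleGraph MulAction Pool.Agent.Helper999.HM

/-- all nontrivial divisors of the group order are at least `N` -/
def Big (N : ℕ) (G : Type) [Group G] : Prop := ∀ d, d ∣ Nat.card G → d = 1 ∨ N ≤ d

theorem Big.subgroup {N : ℕ} {G : Type} [Group G] (h : Big N G) (H : Subgroup G) : Big N H :=
  fun d hd => h d (hd.trans (Subgroup.card_subgroup_dvd_card H))

theorem Big.orbit {N : ℕ} {G : Type} [Group G] [Finite G] (h : Big N G) {α : Type}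
    [MulAction G α] {a : α} {g : G} (hg : g • a ≠ a) : N ≤ Nat.card (MulAction.orbit G a) := by
  have h1 : Nat.card (MulAction.orbit G a) ∣ Nat.card G := by
    have h2 := MulAction.index_stabilizer G a
    have h3 : Nat.card (MulAction.orbit G a) = (MulAction.orbit G a).ncard := rfl
    rw [h3, ← h2]
    exact Subgroup.index_dvd_card _
  rcases h _ h1 with h2 | h2
  · exfalso
    rw [Nat.card_eq_one_iff_unique] at h2
    have := h2.1.elim ⟨g • a, mem_orbit a g⟩ ⟨a, mem_orbit_self a⟩
    exact hg (congrArg Subtype.val this)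
  · exact h2

/-- many different translates -/
theorem Big.translates {N : ℕ} {G : Type} [Group G] [Finite G] (h : Big N G) {α : Type}
    [MulAction G α] {a : α} {g : G} (hg : g • a ≠ a) {k : ℕ} (hk : k ≤ N) :
    ∃ f : Fin k → G, ∀ i j, f i • a = f j • a → i = j := by
  have h1 := h.orbit hg
  have hfin : Finite (MulAction.orbit G a) := by
    have : Function.Surjective (fun g : G => (⟨g • a, mem_orbit a g⟩ : MulAction.orbit G a)) := by
      rintro ⟨_, g, rfl⟩
      exact ⟨g, rfl⟩
    exact Finite.of_surjective _ this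
  have := Fintype.ofFinite (MulAction.orbit G a)
  have h2 : Fintype.card (Fin k) ≤ Fintype.card (MulAction.orbit G a) := by
    rw [Fintype.card_fin, ← Nat.card_eq_fintype_card]
    omega
  obtain ⟨e⟩ := Function.Embedding.nonempty_of_card_le h2
  choose f hf using fun i => (e i).2
  refine ⟨f, ?_⟩
  intro i j hij
  apply e.injective
  apply Subtype.ext
  rw [← hf i, ← hf j]
  exact hij

/-- powers move a point around a long cycle -/
theorem Big.pow {N : ℕ} {G : Type} [Group G] [Finite G] (h : Big N G) {α : Type}
    [MulAction G α] {a : α} {g : G} (hg : g • a ≠ a) {i j : ℕ} (hi : i < N) (hj : j < N)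
    (hij : g ^ i • a = g ^ j • a) : i = j := by
  have hfin : Finite (MulAction.orbit (Subgroup.zpowers g) a) := by
    have : Function.Surjective (fun u : Subgroup.zpowers g =>
        (⟨u • a, mem_orbit a u⟩ : MulAction.orbit (Subgroup.zpowers g) a)) := by
      rintro ⟨_, u, rfl⟩
      exact ⟨u, rfl⟩
    exact Finite.of_surjective _ this
  have := Fintype.ofFinite (MulAction.orbit (Subgroup.zpowers g) a)
  have h1 : N ≤ Nat.card (MulAction.orbit (Subgroup.zpowers g) a) :=
    (h.subgroup (Subgroup.zpowers g)).orbit (g := ⟨g, Subgroup.mem_zpowers g⟩) hg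
  have h2 : Function.minimalPeriod (g • ·) a = Nat.card (MulAction.orbit (Subgroup.zpowers g) a) := by
    rw [minimalPeriod_eq_card, Nat.card_eq_fintype_card]
  have h3 := Function.iterate_injOn_Iio_minimalPeriod (f := (g • · : α → α)) (x := a)
  rw [h2] at h3
  apply h3 (Set.mem_Iio.2 (by omega)) (Set.mem_Iio.2 (by omega))
  simp only [smul_iterate]
  exact hij

end Pool.Agent.Helper999.CW
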