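import Pool.Agent.Helper999.CWTrans

set_option autoImplicit false

namespace Pool.Agent.Helper999.CW

open SimpleGraph MulAction Pool.Agent.Helper999.HM Subgroup

section
variable {Q : Type} [Group Q] [Finite Q] {k N : ℕ} {R : SimpleGraph Q}

theorem normalizes (hN : 2 ^ k ≤ N) (hB : Big N Q)
    (hinv : ∀ g a b, R.Adj a b → R.Adj (g * a) (g * b)) (hno : ¬ HasKMinor R k)
    {x y : Q} (hx : R.Adj 1 x) (hy : R.Adj 1 y) : y⁻¹ * x * y ∈ zpowers x := by
  classical
  by_contra hcon
  have hyx : y ∉ zpowers x := by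
    intro h
    apply hcon
    exact mul_mem (mul_mem (inv_mem h) (mem_zpowers x)) h
  let s := QuotientGroup.leftRel (zpowers x)
  have hs : ∀ a b : Q, s a b → Relation.ReflTransGen (fun u v => R.Adj u v ∧ s u v) a b := by
    intro a b hab
    have h1 : a⁻¹ * b ∈ zpowers x := QuotientGroup.leftRel_apply.1 hab
    rw [← mem_powers_iff_mem_zpowers] at h1
    obtain ⟨i, hi⟩ := h1
    have h2 : ∀ i : ℕ, Relation.ReflTransGen (fun u v => R.Adj u v ∧ s u v) a (a * x ^ i) := by
      intro i
      induction i with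
      | zero => rw [pow_zero, mul_one]
      | succ i ih =>
        refine Relation.ReflTransGen.tail ih ⟨?_, ?_⟩
        · have := hinv (a * x ^ i) 1 x hx
          rw [mul_one] at this
          rw [pow_succ, ← mul_assoc]
          exact this
        · refine QuotientGroup.leftRel_apply.2 ?_
          have h5 : (a * x ^ i)⁻¹ * (a * x ^ (i + 1)) = x := by
            rw [pow_succ]; group
          rw [h5]
          exact mem_zpowers x
    have h3 : b = a * x ^ i := by
      simp only at hi
      rw [hi, mul_inv_cancel_left]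
    rw [h3]
    exact h2 i
  have hno' : ¬ HasKMinor (quotGraph R s) k := fun h => hno (HasKMinor.of_quot hs h)
  have : Nonempty (Quotient s) := ⟨Quotient.mk s 1⟩
  obtain ⟨c, hc⟩ := exists_low_degree hno'
  obtain ⟨g, rfl⟩ := Quotient.exists_rep c
  have h1 : N ≤ Nat.card (MulAction.orbit (zpowers x) ((y : Q) : Q ⧸ zpowers x)) := by
    refine (hB.subgroup (zpowers x)).orbit (g := ⟨x, mem_zpowers x⟩) ?_
    intro h
    have h2 : ((x * y : Q) : Q ⧸ zpowers x) = (y : Q ⧸ zpowers x) := h
    rw [QuotientGroup.eq] at h2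
    apply hcon
    have h3 := inv_mem h2
    rw [mul_inv_rev, inv_inv, ← mul_assoc] at h3
    exact h3
  have h2 : Nat.card (MulAction.orbit (zpowers x) ((y : Q) : Q ⧸ zpowers x)) ≤
      Nat.card {w : Quotient s // (quotGraph R s).Adj (Quotient.mk s g) w} := by
    have hadj : ∀ w ∈ MulAction.orbit (zpowers x) ((y : Q) : Q ⧸ zpowers x),
        (quotGraph R s).Adj (Quotient.mk s g) (g • w : Q ⧸ zpowers x) := by
      rintro _ ⟨⟨u, hu⟩, rfl⟩
      have h3 : (g • ((⟨u, hu⟩ : zpowers x) • ((y : Q) : Q ⧸ zpowers x)) : Q ⧸ zpowers x) =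
        Quotient.mk s (g * (u * y)) := rfl
      change (quotGraph R s).Adj (Quotient.mk s g) (g • ((⟨u, hu⟩ : zpowers x) • ((y : Q) : Q ⧸ zpowers x)) : Q ⧸ zpowers x)
      rw [h3]
      refine ⟨?_, g * u, g * (u * y), ?_, rfl, ?_⟩
      · intro h
        have h4 := QuotientGroup.leftRel_apply.1 (Quotient.exact h)
        rw [inv_mul_cancel_left] at h4
        apply hyx
        have := mul_mem (inv_mem hu) h4
        rwa [inv_mul_cancel_left] at this
      · apply Quotient.sound
        refine QuotientGroup.leftRel_apply.2 ?_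
        rw [mul_inv_rev, inv_mul_cancel_right]
        exact inv_mem hu
      · have := hinv (g * u) 1 y hy
        rw [mul_one, mul_assoc] at this
        rw [mul_assoc] at *
        exact this
    refine Nat.card_le_card_of_injective (fun w => ⟨g • w.1, hadj w.1 w.2⟩) ?_
    rintro ⟨w, hw⟩ ⟨w', hw'⟩ h
    simp only [Subtype.mk.injEq] at h
    exact Subtype.ext (smul_left_cancel g h)
  omega

theorem cayley_comm (hN : 2 ^ k ≤ N) (hN2 : 2 * k ≤ N) (hB : Big N Q)
    (hinv : ∀ g a b, R.Adj a b → R.Adj (g * a) (g * b)) (hno : ¬ HasKMinor R k)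
    {x y : Q} (hx : R.Adj 1 x) (hy : R.Adj 1 y) : x * y = y * x := by
  classical
  by_contra hcon
  have hn1 := normalizes hN hB hinv hno hx hy
  have hn2 := normalizes hN hB hinv hno hy hx
  set z := x⁻¹ * (y⁻¹ * x * y) with hz
  have hzx : z ∈ zpowers x := mul_mem (inv_mem (mem_zpowers x)) hn1
  have hzy : z ∈ zpowers y := by
    have h1 : z = (x⁻¹ * y * x)⁻¹ * y := by rw [hz]; group
    rw [h1]
    exact mul_mem (inv_mem hn2) (mem_zpowers y)
  have hcx : z * x = x * z := by
    obtain ⟨i, hi⟩ := mem_zpowers_iff.1 hzx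
    rw [← hi, ← zpow_add_one, ← zpow_one_add, add_comm]
  have hcy : z * y = y * z := by
    obtain ⟨i, hi⟩ := mem_zpowers_iff.1 hzy
    rw [← hi, ← zpow_add_one, ← zpow_one_add, add_comm]
  have hxy : x * y = y * x * z := by rw [hz]; group
  have hcxp : ∀ i j : ℕ, z ^ i * x ^ j = x ^ j * z ^ i := by
    intro i j
    exact ((Commute.pow_pow (show Commute z x from hcx)) i j).eq
  have hcyp : ∀ i : ℕ, z ^ i * y = y * z ^ i := by
    intro i
    exact ((show Commute z y from hcy).pow_left i).eq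
  have hjy : ∀ j : ℕ, x ^ j * y = y * (z ^ j * x ^ j) := by
    intro j
    induction j with
    | zero => simp
    | succ j ih =>
      rw [pow_succ', mul_assoc, ih, ← mul_assoc, hxy, mul_assoc, mul_assoc, ← mul_assoc z,
        ← pow_succ', ← mul_assoc x, ← pow_one x, ← hcxp, pow_one, mul_assoc, ← pow_succ']
  have hz1 : z ≠ 1 := by
    intro h
    rw [h, mul_one] at hxy
    exact hcon hxy
  have hxz : x ∉ zpowers z := by
    intro h
    obtain ⟨i, hi⟩ := mem_zpowers_iff.1 h
    apply hcon
    rw [← hi]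
    exact ((show Commute z y from hcy).zpow_left i).eq
  have hyx : y ∉ zpowers x := by
    intro h
    obtain ⟨i, hi⟩ := mem_zpowers_iff.1 h
    apply hcon
    rw [← hi, ← zpow_add_one, ← zpow_one_add, add_comm]
  -- powers of z are distinct
  have hzinj : ∀ i j : ℕ, i < N → j < N → z ^ i = z ^ j → i = j := by
    intro i j hi hj hij
    refine hB.pow (a := (1 : Q)) (g := z) ?_ hi hj ?_
    · rw [smul_eq_mul, mul_one]; exact hz1
    · rw [smul_eq_mul, smul_eq_mul, hij]
  -- powers of x are distinct modulo z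
  have hxinj : ∀ i j : ℕ, i < N → j < N → (x ^ i)⁻¹ * x ^ j ∈ zpowers z → i = j := by
    intro i j hi hj hij
    refine hB.pow (a := ((1 : Q) : Q ⧸ zpowers z)) (g := x) ?_ hi hj ?_
    · intro h
      have h2 : ((x * 1 : Q) : Q ⧸ zpowers z) = ((1 : Q) : Q ⧸ zpowers z) := h
      rw [QuotientGroup.eq, mul_one, mul_one] at h2
      apply hxz
      have := inv_mem h2
      rwa [inv_inv] at this
    · change ((x ^ i * 1 : Q) : Q ⧸ zpowers z) = ((x ^ j * 1 : Q) : Q ⧸ zpowers z)
      rw [QuotientGroup.eq, mul_one, mul_one]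
      exact hij
  -- arcs
  let A : ℕ → Set Q := fun s => {g | ∃ j < 2 * k, g = z ^ s * x ^ j}
  let B : ℕ → Set Q := fun s => {g | ∃ j < 2 * k, g = y * (z ^ s * x ^ j)}
  have hAconn : 0 < k → ∀ s, (R.induce (A s)).Connected := by
    intro hk s
    have h0 : z ^ s ∈ A s := ⟨0, by omega, by rw [pow_zero, mul_one]⟩
    refine conn_of_base h0 ?_
    rintro _ ⟨j, hj, rfl⟩
    have key : ∀ j < 2 * k, Relation.ReflTransGen (StepIn R (A s)) (z ^ s) (z ^ s * x ^ j) := by
      intro j
      induction j with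
      | zero => intro _; rw [pow_zero, mul_one]
      | succ j ih =>
        intro hj
        refine Relation.ReflTransGen.tail (ih (by omega)) ⟨?_, j + 1, hj, rfl⟩
        have := hinv (z ^ s * x ^ j) 1 x hx
        rw [mul_one] at this
        rw [pow_succ, ← mul_assoc]
        exact this
    exact key j hj
  have hBconn : 0 < k → ∀ s, (R.induce (B s)).Connected := by
    intro hk s
    have h0 : y * z ^ s ∈ B s := ⟨0, by omega, by rw [pow_zero, mul_one]⟩
    refine conn_of_base h0 ?_
    rintro _ ⟨j, hj, rfl⟩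
    have key : ∀ j < 2 * k, Relation.ReflTransGen (StepIn R (B s)) (y * z ^ s)
        (y * (z ^ s * x ^ j)) := by
      intro j
      induction j with
      | zero => intro _; rw [pow_zero, mul_one]
      | succ j ih =>
        intro hj
        refine Relation.ReflTransGen.tail (ih (by omega)) ⟨?_, j + 1, hj, rfl⟩
        have := hinv (y * (z ^ s * x ^ j)) 1 x hx
        rw [mul_one] at this
        rw [pow_succ, ← mul_assoc (z ^ s), ← mul_assoc y (z ^ s * x ^ j)]
        exact this
    exact key j hj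
  have hAdisj : ∀ s s' j j', s < N → s' < N → j < N → j' < N →
      z ^ s * x ^ j = z ^ s' * x ^ j' → s = s' := by
    intro s s' j j' hs hs' hj hj' h
    have h1 : (x ^ j)⁻¹ * x ^ j' ∈ zpowers z := by
      have h2 : (x ^ j)⁻¹ * x ^ j' = z ^ s * (z ^ s')⁻¹ := by
        have h3 : x ^ j * z ^ s = x ^ j' * z ^ s' := by rw [← hcxp, ← hcxp]; exact h
        have h4 : x ^ j' = x ^ j * z ^ s * (z ^ s')⁻¹ := by rw [h3, mul_inv_cancel_right]
        rw [h4, mul_assoc, inv_mul_cancel_left]
      rw [h2]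
      exact mul_mem (pow_mem (mem_zpowers z) _) (inv_mem (pow_mem (mem_zpowers z) _))
    have h5 := hxinj _ _ hj hj' h1
    subst h5
    exact hzinj _ _ hs hs' (mul_right_cancel h)
  rcases Nat.eq_zero_or_pos k with hk | hk
  · subst hk
    exact hno ⟨fun i => i.elim0, fun i => i.elim0, fun i => i.elim0, fun i => i.elim0⟩
  apply hno
  refine hasKMinor_of_biclique (fun i : Fin k => A i.1) (fun i : Fin k => B (k + i.1))
    (fun i => hAconn hk _) (fun i => hBconn hk _) ?_ ?_ ?_ ?_
  · intro i j hij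
    rw [Set.disjoint_left]
    rintro _ ⟨a, ha, rfl⟩ ⟨b, hb, hab⟩
    apply hij
    apply Fin.ext
    exact hAdisj _ _ _ _ (by omega) (by omega) (by omega) (by omega) hab
  · intro i j hij
    rw [Set.disjoint_left]
    rintro _ ⟨a, ha, rfl⟩ ⟨b, hb, hab⟩
    apply hij
    apply Fin.ext
    have h1 := hAdisj _ _ _ _ (by omega) (by omega) (by omega) (by omega) (mul_left_cancel hab)
    omega
  · intro i j
    rw [Set.disjoint_left]
    rintro _ ⟨a, ha, rfl⟩ ⟨b, hb, hab⟩
    apply hyx
    have h1 : z ^ (i : ℕ) * x ^ a ∈ zpowers x :=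
      mul_mem (pow_mem hzx _) (pow_mem (mem_zpowers x) _)
    have h2 : z ^ (k + (j : ℕ)) * x ^ b ∈ zpowers x :=
      mul_mem (pow_mem hzx _) (pow_mem (mem_zpowers x) _)
    have h3 : y = z ^ (i : ℕ) * x ^ a * (z ^ (k + (j : ℕ)) * x ^ b)⁻¹ := by
      rw [hab, mul_inv_cancel_right]
    rw [h3]
    exact mul_mem h1 (inv_mem h2)
  · intro i j
    refine ⟨z ^ (i : ℕ) * x ^ (k + j.1 - i.1), ⟨_, by omega, rfl⟩,
      y * (z ^ (k + (j : ℕ)) * x ^ (k + j.1 - i.1)), ⟨_, by omega, rfl⟩, ?_⟩
    have h1 := hinv (z ^ (i : ℕ) * x ^ (k + j.1 - i.1)) 1 y hy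
    rw [mul_one, mul_assoc, hjy, ← mul_assoc (z ^ (i : ℕ)), hcyp, mul_assoc,
      ← mul_assoc (z ^ (i : ℕ)) (z ^ _), ← pow_add] at h1
    have h2 : (i : ℕ) + (k + j.1 - i.1) = k + j.1 := by omega
    rw [h2] at h1
    exact h1

theorem cayley_abelian (hN : 2 ^ k ≤ N) (hN2 : 2 * k ≤ N) (hB : Big N Q) (hconn : R.Connected)
    (hinv : ∀ g a b, R.Adj a b → R.Adj (g * a) (g * b)) (hno : ¬ HasKMinor R k) (a b : Q) :
    a * b = b * a := by
  let X₀ : Set Q := {x | R.Adj 1 x}
  have hgen : ∀ g : Q, g ∈ Subgroup.closure X₀ := by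
    intro g
    have h40 : (1 : Q) ∈ {g : Q | g ∈ Subgroup.closure X₀} := (Subgroup.closure X₀).one_mem
    refine closed_of_conn hconn ?_ h40 g
    intro u hu v huv
    have h1 := hinv u⁻¹ u v huv
    rw [inv_mul_cancel] at h1
    have h2 : u⁻¹ * v ∈ Subgroup.closure X₀ := Subgroup.subset_closure h1
    have h3 := mul_mem hu h2
    rwa [mul_inv_cancel_left] at h3
  have h1 : ∀ x ∈ X₀, ∀ y ∈ X₀, x * y = y * x := fun x hx y hy =>
    cayley_comm hN hN2 hB hinv hno hx hy
  have h2 : ∀ x ∈ X₀, ∀ b : Q, x * b = b * x := by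
    intro x hx b
    have : b ∈ Subgroup.centralizer {x} := by
      have h3 : Subgroup.closure X₀ ≤ Subgroup.centralizer {x} := by
        rw [Subgroup.closure_le]
        intro y hy
        rw [SetLike.mem_coe, Subgroup.mem_centralizer_singleton_iff]
        exact (h1 y hy x hx)
      exact h3 (hgen b)
    rw [Subgroup.mem_centralizer_singleton_iff] at this
    exact this.symm
  have : a ∈ Subgroup.centralizer {b} := by
    have h3 : Subgroup.closure X₀ ≤ Subgroup.centralizer {b} := by
      rw [Subgroup.closure_le]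
      intro y hy
      rw [SetLike.mem_coe, Subgroup.mem_centralizer_singleton_iff]
      exact h2 y hy b
    exact h3 (hgen a)
  rw [Subgroup.mem_centralizer_singleton_iff] at this
  exact this

end

end Pool.Agent.Helper999.CW
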