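import Pool.Agent.Helper999.CWKT

set_option autoImplicit false

namespace Pool.Agent.Helper999.CW

open SimpleGraph MulAction Pool.Agent.Helper999.HM Subgroup

/-- the automorphism group of a vertex-coloured graph -/
def CAut {V α : Type} (X : SimpleGraph V) (χ : V → α) : Subgroup (Equiv.Perm V) where
  carrier := {σ | (∀ a b, X.Adj (σ a) (σ b) ↔ X.Adj a b) ∧ ∀ v, χ (σ v) = χ v}
  mul_mem' := by
    rintro σ τ ⟨h1, h2⟩ ⟨h3, h4⟩
    refine ⟨fun a b => ?_, fun v => ?_⟩
    · rw [Equiv.Perm.mul_apply, Equiv.Perm.mul_apply, h1, h3]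
    · rw [Equiv.Perm.mul_apply, h2, h4]
  one_mem' := ⟨fun _ _ => Iff.rfl, fun _ => rfl⟩
  inv_mem' := by
    rintro σ ⟨h1, h2⟩
    refine ⟨fun a b => ?_, fun v => ?_⟩
    · rw [← h1, show σ (σ⁻¹ a) = a from σ.apply_symm_apply a,
        show σ (σ⁻¹ b) = b from σ.apply_symm_apply b]
    · rw [← h2, show σ (σ⁻¹ v) = v from σ.apply_symm_apply v]

section
variable {V α : Type} {X : SimpleGraph V} {χ : V → α}

theorem CAut_adj (g : CAut X χ) (a b : V) : X.Adj (g • a) (g • b) ↔ X.Adj a b := g.2.1 a b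

theorem CAut_col (g : CAut X χ) (v : V) : χ (g • v) = χ v := g.2.2 v

/-- fixed points of a subgroup -/
def FixM (M : Subgroup (CAut X χ)) : Set V := {v | ∀ m ∈ M, m • v = v}

/-- the hypotheses of the decomposition -/
structure Dec (X : SimpleGraph V) (χ : V → α) (M : Subgroup (CAut X χ)) : Prop where
  normal : M.Normal
  fix : ∀ g : CAut X χ, (∀ v ∈ FixM M, g • v = v) → g ∈ M
  comp1 : ∀ v, v ∉ FixM M → ∀ g : CAut X χ, rho X (FixM M) v (g • v) → g ∈ M
  comp2 : ∀ v, v ∉ FixM M → ∀ m ∈ M, rho X (FixM M) v (m • v)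

variable {M : Subgroup (CAut X χ)}

theorem Dec.F_smul (h : Dec X χ M) (g : CAut X χ) (v : V) (hv : v ∈ FixM M) :
    g • v ∈ FixM M := by
  intro m hm
  have h1 := h.normal.conj_mem m hm g⁻¹
  rw [inv_inv] at h1
  have h2 := hv _ h1
  rw [mul_smul, mul_smul, inv_smul_eq_iff] at h2
  exact h2

theorem Dec.F_smul_not (h : Dec X χ M) (g : CAut X χ) (v : V) (hv : v ∉ FixM M) :
    g • v ∉ FixM M := by
  intro h1
  apply hv
  have := h.F_smul g⁻¹ _ h1
  rwa [inv_smul_smul] at this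

theorem Dec.rho_smul (h : Dec X χ M) (g : CAut X χ) {v w : V} (hr : rho X (FixM M) v w) :
    rho X (FixM M) (g • v) (g • w) :=
  rho_map (fun g a b hab => (CAut_adj g a b).2 hab) h.F_smul g hr

/-- orbits of components -/
def orbS (h : Dec X χ M) : Setoid {v : V // v ∉ FixM M} where
  r v w := ∃ g : CAut X χ, rho X (FixM M) v.1 (g • w.1)
  iseqv := by
    refine ⟨?_, ?_, ?_⟩
    · intro v
      exact ⟨1, by rw [one_smul]; exact rho_refl _ _ _⟩
    · rintro v w ⟨g, hg⟩
      refine ⟨g⁻¹, ?_⟩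
      have := h.rho_smul g⁻¹ hg
      rw [inv_smul_smul] at this
      exact rho_symm this
    · rintro u v w ⟨g, hg⟩ ⟨g', hg'⟩
      refine ⟨g * g', ?_⟩
      rw [mul_smul]
      exact rho_trans hg (h.rho_smul g hg')

/-- the type of orbits of components -/
abbrev Rp (h : Dec X χ M) : Type := Quotient (orbS h)

/-- a representative vertex -/
noncomputable def vr (h : Dec X χ M) (r : Rp h) : V := (Quotient.out r).1

theorem vr_not (h : Dec X χ M) (r : Rp h) : vr h r ∉ FixM M := (Quotient.out r).2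

/-- the component of the representative -/
def Cr (h : Dec X χ M) (r : Rp h) : Set V := {w | rho X (FixM M) (vr h r) w}

/-- the colouring of the representative component -/
def colr (h : Dec X χ M) (r : Rp h) : Cr h r → α × Set V :=
  fun w => (χ w.1, {u | u ∈ FixM M ∧ X.Adj w.1 u})

/-- the coloured automorphism group of the representative component -/
abbrev Ar (h : Dec X χ M) (r : Rp h) : Type := CAut (X.induce (Cr h r)) (colr h r)

theorem Cr_smul (h : Dec X χ M) (r : Rp h) (m : CAut X χ) (hm : m ∈ M) {w : V}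
    (hw : w ∈ Cr h r) : m • w ∈ Cr h r :=
  rho_trans (h.comp2 _ (vr_not h r) m hm) (h.rho_smul m hw)

/-- restriction to a representative component -/
def resHom (h : Dec X χ M) (r : Rp h) : M →* Ar h r where
  toFun m := ⟨⟨fun w => ⟨(m : CAut X χ) • w.1, Cr_smul h r m m.2 w.2⟩,
    fun w => ⟨(m : CAut X χ)⁻¹ • w.1, Cr_smul h r _ (inv_mem m.2) w.2⟩,
    fun w => Subtype.ext (inv_smul_smul _ _), fun w => Subtype.ext (smul_inv_smul _ _)⟩, by
      refine ⟨?_, ?_⟩
      · intro a b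
        exact CAut_adj (m : CAut X χ) a.1 b.1
      · intro v
        refine Prod.ext (CAut_col (m : CAut X χ) v.1) ?_
        ext u
        constructor
        · rintro ⟨h1, h2⟩
          refine ⟨h1, ?_⟩
          rw [← CAut_adj (m : CAut X χ), h1 _ m.2]
          exact h2
        · rintro ⟨h1, h2⟩
          refine ⟨h1, ?_⟩
          have h3 := (CAut_adj (m : CAut X χ) _ _).2 h2
          rw [h1 _ m.2] at h3
          exact h3⟩
  map_one' := by
    apply Subtype.ext
    ext w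
    exact one_smul (CAut X χ) w.1
  map_mul' := by
    intro m m'
    apply Subtype.ext
    ext w
    exact mul_smul (m : CAut X χ) (m' : CAut X χ) w.1

theorem resHom_apply (h : Dec X χ M) (r : Rp h) (m : M) (w : Cr h r) :
    ((((resHom h r m : Ar h r) : Equiv.Perm (Cr h r)) w : Cr h r) : V) = (m : CAut X χ) • w.1 :=
  rfl

/-- section of the quotient map -/
noncomputable def tt (M : Subgroup (CAut X χ)) (q : CAut X χ ⧸ M) : CAut X χ := Quotient.out q

theorem tt_mk (M : Subgroup (CAut X χ)) (q : CAut X χ ⧸ M) :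
    ((tt M q : CAut X χ) : CAut X χ ⧸ M) = q := QuotientGroup.out_eq' q

theorem locate (h : Dec X χ M) (v : V) (hv : v ∉ FixM M) :
    ∃ (q : CAut X χ ⧸ M) (r : Rp h), (tt M q)⁻¹ • v ∈ Cr h r := by
  let r : Rp h := Quotient.mk (orbS h) ⟨v, hv⟩
  obtain ⟨g, hg⟩ : ∃ g : CAut X χ, rho X (FixM M) v (g • (vr h r)) := by
    have : (orbS h) ⟨v, hv⟩ (Quotient.out r) := (orbS h).symm (Quotient.mk_out (s := orbS h) ⟨v, hv⟩)
    exact this
  refine ⟨(g : CAut X χ ⧸ M), r, ?_⟩
  set q : CAut X χ ⧸ M := (g : CAut X χ ⧸ M) with hq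
  have h1 : (tt M q)⁻¹ * g ∈ M := QuotientGroup.eq.1 (tt_mk M q)
  have h2 := h.rho_smul (tt M q)⁻¹ hg
  rw [← mul_smul] at h2
  exact rho_trans (h.comp2 _ (vr_not h r) _ h1) (rho_symm h2)

theorem locate_unique (h : Dec X χ M) (v : V) {q q' : CAut X χ ⧸ M} {r r' : Rp h}
    (h1 : (tt M q)⁻¹ • v ∈ Cr h r) (h2 : (tt M q')⁻¹ • v ∈ Cr h r') : q = q' ∧ r = r' := by
  have h3 := h.rho_smul (tt M q) h1
  have h4 := h.rho_smul (tt M q') h2
  rw [smul_inv_smul] at h3 h4
  have h5 := rho_trans h3 (rho_symm h4)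
  have h6 := h.rho_smul (tt M q)⁻¹ h5
  rw [inv_smul_smul, ← mul_smul] at h6
  have hr : r = r' := by
    rw [← Quotient.out_equiv_out (s := orbS h)]
    exact ⟨_, h6⟩
  subst hr
  refine ⟨?_, rfl⟩
  have h7 := h.comp1 _ (vr_not h r) _ h6
  have h8 : ((tt M q : CAut X χ) : CAut X χ ⧸ M) = ((tt M q' : CAut X χ) : CAut X χ ⧸ M) :=
    QuotientGroup.eq.2 h7
  rwa [tt_mk, tt_mk] at h8

/-- the base group of the wreath product -/
abbrev Base (h : Dec X χ M) : Type := ∀ r : Rp h, Ar h r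

open Classical in
/-- glue together automorphisms of the components -/
noncomputable def glue (h : Dec X χ M) (f : (CAut X χ ⧸ M) → Base h) (v : V) : V :=
  if hv : v ∈ FixM M then v else
    tt M (locate h v hv).choose •
      (((f (locate h v hv).choose (locate h v hv).choose_spec.choose :
          Ar h (locate h v hv).choose_spec.choose) :
          Equiv.Perm (Cr h (locate h v hv).choose_spec.choose))
        ⟨(tt M (locate h v hv).choose)⁻¹ • v, (locate h v hv).choose_spec.choose_spec⟩).1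

theorem glue_F (h : Dec X χ M) (f : (CAut X χ ⧸ M) → Base h) (v : V) (hv : v ∈ FixM M) :
    glue h f v = v := dif_pos hv

theorem not_F_of_C (h : Dec X χ M) {q : CAut X χ ⧸ M} {r : Rp h} {v : V}
    (hv : (tt M q)⁻¹ • v ∈ Cr h r) : v ∉ FixM M := by
  intro h1
  exact rho_notmem (vr_not h r) hv (h.F_smul _ _ h1)

theorem glue_C (h : Dec X χ M) (f : (CAut X χ ⧸ M) → Base h) (v : V) (q : CAut X χ ⧸ M)
    (r : Rp h) (hv : (tt M q)⁻¹ • v ∈ Cr h r) :
    glue h f v = tt M q • (((f q r : Ar h r) : Equiv.Perm (Cr h r)) ⟨(tt M q)⁻¹ • v, hv⟩).1 := by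
  have h1 : v ∉ FixM M := not_F_of_C h hv
  unfold glue
  rw [dif_neg h1]
  have key : ∀ (q' : CAut X χ ⧸ M) (r' : Rp h) (hv' : (tt M q')⁻¹ • v ∈ Cr h r'),
      tt M q' • (((f q' r' : Ar h r') : Equiv.Perm (Cr h r')) ⟨(tt M q')⁻¹ • v, hv'⟩).1 =
      tt M q • (((f q r : Ar h r) : Equiv.Perm (Cr h r)) ⟨(tt M q)⁻¹ • v, hv⟩).1 := by
    intro q' r' hv'
    obtain ⟨rfl, rfl⟩ := locate_unique h v hv hv'
    rfl
  exact key _ _ _

theorem glue_mul (h : Dec X χ M) (f f' : (CAut X χ ⧸ M) → Base h) (v : V) :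
    glue h (f * f') v = glue h f (glue h f' v) := by
  by_cases hv : v ∈ FixM M
  · rw [glue_F h f' v hv, glue_F h f v hv, glue_F h _ v hv]
  · obtain ⟨q, r, hqr⟩ := locate h v hv
    have h1 := glue_C h f' v q r hqr
    have h2 : (tt M q)⁻¹ • glue h f' v ∈ Cr h r := by
      rw [h1, inv_smul_smul]
      exact Subtype.coe_prop _
    rw [glue_C h _ v q r hqr, glue_C h f _ q r h2]
    congr 1
    have h3 : (⟨(tt M q)⁻¹ • glue h f' v, h2⟩ : Cr h r) =
        ((f' q r : Ar h r) : Equiv.Perm (Cr h r)) ⟨(tt M q)⁻¹ • v, hqr⟩ := by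
      apply Subtype.ext
      simp only
      rw [h1, inv_smul_smul]
    rw [h3]
    rfl

theorem glue_one (h : Dec X χ M) (v : V) : glue h 1 v = v := by
  by_cases hv : v ∈ FixM M
  · exact glue_F h _ v hv
  · obtain ⟨q, r, hqr⟩ := locate h v hv
    rw [glue_C h _ v q r hqr]
    exact smul_inv_smul _ _

theorem glue_adj (h : Dec X χ M) (f : (CAut X χ ⧸ M) → Base h) (a b : V) (hab : X.Adj a b) :
    X.Adj (glue h f a) (glue h f b) := by
  have key : ∀ a b, a ∈ FixM M → b ∉ FixM M → X.Adj a b → X.Adj (glue h f a) (glue h f b) := by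
    intro a b ha hb hab
    rw [glue_F h f a ha]
    obtain ⟨q, r, hqr⟩ := locate h b hb
    rw [glue_C h f b q r hqr]
    have h1 : X.Adj ((tt M q)⁻¹ • b) ((tt M q)⁻¹ • a) := ((CAut_adj _ _ _).2 hab).symm
    have h2 := (f q r).2.2 ⟨(tt M q)⁻¹ • b, hqr⟩
    have h3 := congrArg Prod.snd h2
    have h4 : (tt M q)⁻¹ • a ∈ (colr h r ⟨(tt M q)⁻¹ • b, hqr⟩).2 := ⟨h.F_smul _ _ ha, h1⟩
    rw [← h3] at h4
    have h5 := (CAut_adj (tt M q) _ _).2 h4.2
    rw [smul_inv_smul] at h5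
    exact h5.symm
  by_cases ha : a ∈ FixM M
  · by_cases hb : b ∈ FixM M
    · rw [glue_F h f a ha, glue_F h f b hb]; exact hab
    · exact key a b ha hb hab
  · by_cases hb : b ∈ FixM M
    · exact (key b a hb ha hab.symm).symm
    · obtain ⟨q, r, hqr⟩ := locate h a ha
      have h1 : rho X (FixM M) ((tt M q)⁻¹ • a) ((tt M q)⁻¹ • b) :=
        h.rho_smul _ (rho_step hab ha hb)
      have hqr' : (tt M q)⁻¹ • b ∈ Cr h r := rho_trans hqr h1
      rw [glue_C h f a q r hqr, glue_C h f b q r hqr', CAut_adj]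
      have h2 := (f q r).2.1 ⟨(tt M q)⁻¹ • a, hqr⟩ ⟨(tt M q)⁻¹ • b, hqr'⟩
      exact h2.2 ((CAut_adj _ _ _).2 hab)

theorem glue_col (h : Dec X χ M) (f : (CAut X χ ⧸ M) → Base h) (v : V) :
    χ (glue h f v) = χ v := by
  by_cases hv : v ∈ FixM M
  · rw [glue_F h _ v hv]
  · obtain ⟨q, r, hqr⟩ := locate h v hv
    rw [glue_C h _ v q r hqr, CAut_col (tt M q)]
    have h2 := (f q r).2.2 ⟨(tt M q)⁻¹ • v, hqr⟩
    have h3 := congrArg Prod.fst h2
    have h4 : χ (((f q r : Ar h r) : Equiv.Perm (Cr h r)) ⟨(tt M q)⁻¹ • v, hqr⟩).1 =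
        χ ((tt M q)⁻¹ • v) := h3
    rw [h4, CAut_col (tt M q)⁻¹]

/-- the glued automorphism -/
noncomputable def glueG (h : Dec X χ M) (f : (CAut X χ ⧸ M) → Base h) : CAut X χ :=
  ⟨⟨glue h f, glue h f⁻¹, fun v => by rw [← glue_mul, inv_mul_cancel, glue_one],
    fun v => by rw [← glue_mul, mul_inv_cancel, glue_one]⟩, by
    refine ⟨?_, glue_col h f⟩
    intro a b
    constructor
    · intro hab
      have := glue_adj h f⁻¹ _ _ hab
      simp only [Equiv.coe_fn_mk] at this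
      rw [← glue_mul, ← glue_mul, inv_mul_cancel, glue_one, glue_one] at this
      exact this
    · intro hab
      exact glue_adj h f _ _ hab⟩

theorem glueG_smul (h : Dec X χ M) (f : (CAut X χ ⧸ M) → Base h) (v : V) :
    glueG h f • v = glue h f v := rfl

theorem glueG_mem (h : Dec X χ M) (f : (CAut X χ ⧸ M) → Base h) : glueG h f ∈ M := by
  apply h.fix
  intro v hv
  rw [glueG_smul, glue_F h f v hv]

section
variable [hn : M.Normal]

theorem cc_mem (g : CAut X χ) (q : CAut X χ ⧸ M) :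
    (tt M q)⁻¹ * g * tt M ((g : CAut X χ ⧸ M)⁻¹ * q) ∈ M := by
  rw [← QuotientGroup.eq_one_iff, QuotientGroup.mk_mul, QuotientGroup.mk_mul,
    QuotientGroup.mk_inv, tt_mk, tt_mk]
  group

/-- the cocycle -/
noncomputable def cc (g : CAut X χ) (q : CAut X χ ⧸ M) : M :=
  ⟨(tt M q)⁻¹ * g * tt M ((g : CAut X χ ⧸ M)⁻¹ * q), cc_mem g q⟩

theorem cc_mul (g g' : CAut X χ) (q : CAut X χ ⧸ M) :
    cc (g * g') q = cc g q * cc g' ((g : CAut X χ ⧸ M)⁻¹ * q) := by
  apply Subtype.ext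
  change (tt M q)⁻¹ * (g * g') * tt M (((g * g' : CAut X χ) : CAut X χ ⧸ M)⁻¹ * q) =
    (tt M q)⁻¹ * g * tt M ((g : CAut X χ ⧸ M)⁻¹ * q) *
      ((tt M ((g : CAut X χ ⧸ M)⁻¹ * q))⁻¹ * g' *
        tt M ((g' : CAut X χ ⧸ M)⁻¹ * ((g : CAut X χ ⧸ M)⁻¹ * q)))
  rw [QuotientGroup.mk_mul, mul_inv_rev, mul_assoc ((g' : CAut X χ ⧸ M)⁻¹)]
  group

theorem cc_of_mem (g : CAut X χ) (hg : g ∈ M) (q : CAut X χ ⧸ M) :
    (cc g q : CAut X χ) = (tt M q)⁻¹ * g * tt M q := by
  change (tt M q)⁻¹ * g * tt M ((g : CAut X χ ⧸ M)⁻¹ * q) = _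
  rw [(QuotientGroup.eq_one_iff g).2 hg, inv_one, one_mul]

/-- restriction to all representative components -/
def resAll (h : Dec X χ M) : M →* Base h := MonoidHom.pi (fun r => resHom h r)

/-- the homomorphism to the wreath product -/
noncomputable def Theta (h : Dec X χ M) :
    CAut X χ →* ((CAut X χ ⧸ M) → Base h) ⋊[mulAutArrow] (CAut X χ ⧸ M) :=
  MonoidHom.mk' (fun g => ⟨fun q => resAll h (cc g q), (g : CAut X χ ⧸ M)⟩) (by
    intro g g'
    refine SemidirectProduct.ext ?_ ?_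
    · funext q
      change resAll h (cc (g * g') q) =
        resAll h (cc g q) * resAll h (cc g' ((g : CAut X χ ⧸ M)⁻¹ * q))
      rw [cc_mul, map_mul]
    · rfl)

theorem Theta_left (h : Dec X χ M) (g : CAut X χ) (q : CAut X χ ⧸ M) :
    (Theta h g).left q = resAll h (cc g q) := rfl

theorem Theta_right (h : Dec X χ M) (g : CAut X χ) : (Theta h g).right = (g : CAut X χ ⧸ M) := rfl

theorem Theta_injective (h : Dec X χ M) : Function.Injective (Theta h) := by
  rw [injective_iff_map_eq_one]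
  intro g hg
  have h1 : (g : CAut X χ ⧸ M) = 1 := by rw [← Theta_right h, hg]; rfl
  have hgM : g ∈ M := (QuotientGroup.eq_one_iff g).1 h1
  apply Subtype.ext
  ext v
  change g • v = v
  by_cases hv : v ∈ FixM M
  · exact hv g hgM
  · obtain ⟨q, r, hqr⟩ := locate h v hv
    have h2 : resAll h (cc g q) = 1 := by rw [← Theta_left h, hg]; rfl
    have h3 : resHom h r (cc g q) = 1 := congrFun h2 r
    have h4 := resHom_apply h r (cc g q) ⟨(tt M q)⁻¹ • v, hqr⟩
    rw [h3, cc_of_mem g hgM] at h4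
    change (tt M q)⁻¹ • v = _ at h4
    rw [mul_smul, mul_smul, smul_inv_smul] at h4
    exact (smul_left_cancel _ h4).symm

theorem Theta_glueG (h : Dec X χ M) (f : (CAut X χ ⧸ M) → Base h) :
    Theta h (glueG h f) = ⟨f, 1⟩ := by
  refine SemidirectProduct.ext ?_ ?_
  · funext q
    rw [Theta_left]
    funext r
    apply Subtype.ext
    ext w
    have h1 : (((resAll h (cc (glueG h f) q) r : Ar h r) : Equiv.Perm (Cr h r)) w : V) =
        (cc (glueG h f) q : CAut X χ) • w.1 := rfl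
    rw [h1, cc_of_mem _ (glueG_mem h f), mul_smul, mul_smul, glueG_smul]
    have h2 : (tt M q)⁻¹ • (tt M q • w.1) ∈ Cr h r := by
      rw [inv_smul_smul]; exact w.2
    rw [glue_C h f _ q r h2, inv_smul_smul]
    have h3 : (⟨(tt M q)⁻¹ • (tt M q • w.1), h2⟩ : Cr h r) = w :=
      Subtype.ext (inv_smul_smul _ _)
    rw [h3]
  · rw [Theta_right]
    exact (QuotientGroup.eq_one_iff _).2 (glueG_mem h f)

theorem Theta_surjective (h : Dec X χ M) : Function.Surjective (Theta h) := by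
  intro x
  set y := (Theta h (tt M x.right))⁻¹ * x with hy
  have hyr : y.right = 1 := by
    rw [hy, SemidirectProduct.mul_right, SemidirectProduct.inv_right, Theta_right, tt_mk,
      inv_mul_cancel]
  have hy2 : y = ⟨y.left, 1⟩ := SemidirectProduct.ext rfl hyr
  refine ⟨tt M x.right * glueG h y.left, ?_⟩
  rw [map_mul, Theta_glueG, ← hy2, hy, mul_inv_cancel_left]

/-- the decomposition of the automorphism group as a wreath product -/
noncomputable def decomp (h : Dec X χ M) :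
    CAut X χ ≃* ((CAut X χ ⧸ M) → Base h) ⋊[mulAutArrow] (CAut X χ ⧸ M) :=
  MulEquiv.ofBijective (Theta h) ⟨Theta_injective h, Theta_surjective h⟩

end

end

end Pool.Agent.Helper999.CW
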