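import Pool.Agent.Helper999.CWQuot

set_option autoImplicit false

namespace Pool.Agent.Helper999.CW

open SimpleGraph MulAction Pool.Agent.Helper999.HM Subgroup

/-- the structure found in every good action of a group of large coprime order -/
structure KTc (G : Type) (V : Type) [Group G] [MulAction G V] (Y : SimpleGraph V) (x₀ : V) :
    Prop where
  big : ∀ v : V, stabilizer G v ≤ stabilizer G x₀
  comp : ∀ (v : V) (g : G), rho Y (FF G x₀) v (g • v) → g ∈ stabilizer G x₀
  comm : ∀ a b : G, a⁻¹ * b⁻¹ * a * b ∈ stabilizer G x₀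

theorem comp_step {G V : Type} [Group G] [MulAction G V] [Finite G] [Finite V] {k N : ℕ}
    (hN2 : 2 * k ≤ N) (hB : Big N G) {Y : SimpleGraph V} (hgood : Good G k V Y) {x₀ : V}
    (hbig : ∀ v : V, stabilizer G v ≤ stabilizer G x₀)
    (IH : ∀ (G' V' : Type) [Group G'] [Finite G'] [Finite V'] [MulAction G' V']
      (Y' : SimpleGraph V'), Nat.card G' + Nat.card V' < Nat.card G + Nat.card V → Big N G' →
      Good G' k V' Y' → ∃ c₀ : V', KTc G' V' Y' c₀) (v : V) (g : G)
    (hvg : rho Y (FF G x₀) v (g • v)) : g ∈ stabilizer G x₀ := by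
  classical
  by_contra hg
  set M := stabilizer G x₀ with hM
  set F := FF G x₀ with hFdef
  have hFs := FF_smul hbig
  have hFf : ∀ m ∈ M, ∀ v ∈ F, m • v = v := FF_fix
  have hFs' : ∀ (g : G) (v : V), v ∉ F → g • v ∉ F := by
    intro g v hv h
    apply hv
    have := hFs g⁻¹ _ h
    rwa [inv_smul_smul] at this
  have hFM : ∀ v ∈ F, ∀ g : G, g • v = v → g ∈ M := by
    intro v _ g h
    exact hbig v h
  have hvF : v ∉ F := by
    intro h
    have h1 := rho_fix h hvg
    exact hg (hFM v h g h1)
  have hx₀F : x₀ ∈ F := le_refl (stabilizer G x₀)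
  have hk : 0 < k := by
    rcases Nat.eq_zero_or_pos k with hk | hk
    · subst hk
      exact absurd ⟨fun i => i.elim0, fun i => i.elim0, fun i => i.elim0, fun i => i.elim0⟩
        hgood.nominor
    · exact hk
  have hmap : ∀ (g : G) {v w : V}, rho Y F v w → rho Y F (g • v) (g • w) :=
    fun g {v w} h => rho_map hgood.adj hFs g h
  -- a vertex of F next to the component
  obtain ⟨a, ha, n, hn, han⟩ : ∃ a, rho Y F v a ∧ ∃ n ∈ F, Y.Adj a n := by
    by_contra hcon
    push Not at hcon
    have h40 : v ∈ {w | rho Y F v w} := rho_refl Y F v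
    have h1 : x₀ ∈ {w | rho Y F v w} := by
      refine closed_of_conn hgood.conn ?_ h40 x₀
      intro a ha b hab
      have hb : b ∉ F := fun hb => hcon a ha b hb hab
      exact rho_trans ha (rho_step hab (rho_notmem hvF ha) hb)
    exact rho_notmem hvF h1 hx₀F
  -- the stabilizer of the component
  let H : Subgroup G :=
    { carrier := {h | rho Y F v (h • v)}
      mul_mem' := by
        intro g h hg hh
        have := hmap g hh
        rw [← mul_smul] at this
        exact rho_trans hg this
      one_mem' := by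
        change rho Y F v ((1 : G) • v)
        rw [one_smul]
        exact rho_refl Y F v
      inv_mem' := by
        intro g hg
        have := hmap g⁻¹ hg
        rw [inv_smul_smul] at this
        exact rho_symm this }
  have hHmem : ∀ h : G, h ∈ H ↔ rho Y F v (h • v) := fun _ => Iff.rfl
  by_cases hcase : ∀ m ∈ M, m ∈ H
  · -- M preserves the component
    let C : Set V := {w | rho Y F v w}
    have hCinv : ∀ (h : H) (w : V), w ∈ C → (h : G) • w ∈ C := by
      intro h w hw
      exact rho_trans h.2 (hmap h.1 hw)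
    let act : MulAction H C :=
      { smul := fun g v => ⟨(g : G) • v.1, hCinv g v.1 v.2⟩
        one_smul := fun v => Subtype.ext (one_smul _ _)
        mul_smul := fun g h v => Subtype.ext (mul_smul _ _ _) }
    have hsm : ∀ (g : H) (v : C), ((g • v : C) : V) = (g : G) • v.1 := fun _ _ => rfl
    have hgH : g ∈ H := hvg
    have hgoodC : Good H k C (Y.induce C) := by
      refine ⟨?_, rho_conn Y F v, ?_, fun h => hgood.nominor h.of_induce⟩
      · intro h a b hab
        exact hgood.adj (h : G) _ _ hab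
      · rintro ⟨c, hc⟩
        by_contra hcon
        push Not at hcon
        have h1 := congrArg Subtype.val (hcon ⟨g, hgH⟩)
        exact hg (hbig c h1)
    have hcardC : Nat.card C < Nat.card V := by
      have : Nat.card C = C.ncard := rfl
      rw [this]
      have h2 : C.ncard < (Set.univ : Set V).ncard := by
        refine Set.ncard_lt_ncard ⟨Set.subset_univ _, ?_⟩ (Set.toFinite _)
        intro h
        exact rho_notmem hvF (h (Set.mem_univ x₀)) hx₀F
      rwa [Set.ncard_univ] at h2
    have hcardH : Nat.card H ≤ Nat.card G := Nat.card_le_card_of_injective _ Subtype.val_injective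
    obtain ⟨c₀, hc₀⟩ := IH H C (Y.induce C) (by omega) (hB.subgroup H) hgoodC
    obtain ⟨T, hT⟩ := exists_trans hgoodC.adj hgoodC.conn (FF_smul hc₀.big) hc₀.comp
    have hM₃ : ∀ h : H, h ∈ stabilizer H c₀ → (h : G) ∈ M := by
      intro h hh
      exact hbig c₀.1 (congrArg Subtype.val hh)
    have hM₃n : (stabilizer H c₀).Normal := normal_of_big hc₀.big
    obtain ⟨x, hxM, hxW⟩ : ∃ x : H, (x : G) ∉ M ∧ Wadj (Y.induce C) T x := by
      by_contra hcon
      push Not at hcon
      have h1 := hT.gen hgoodC.adj hgoodC.conn (M.subgroupOf H)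
        (fun h hh => Subgroup.mem_subgroupOf.2 (hM₃ h hh))
        (fun h _ hw => Subgroup.mem_subgroupOf.2 (by
          by_contra hne
          exact hcon h hne hw)) ⟨g, hgH⟩
      exact hg (Subgroup.mem_subgroupOf.1 h1)
    obtain ⟨h₀, t₀, ht₀, hat⟩ := hT.cover ⟨a, ha⟩
    have hat' : a = (h₀ : G) • t₀.1 := congrArg Subtype.val hat
    set n' := (h₀ : G)⁻¹ • n with hn'
    have hn'F : n' ∈ F := hFs _ _ hn
    have ht₀n' : Y.Adj t₀.1 n' := by
      have := hgood.adj (h₀ : G)⁻¹ _ _ han
      rw [hat', inv_smul_smul] at this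
      exact this
    -- translates of c₀ by M
    have hc₀F : ∃ m ∈ M, m • c₀.1 ≠ c₀.1 := by
      by_contra hcon
      push Not at hcon
      have h1 : c₀.1 ∉ F := rho_notmem hvF c₀.2
      apply h1
      intro m hm
      exact hcon m hm
    obtain ⟨m₀, hm₀, hm₀c⟩ := hc₀F
    obtain ⟨y, hy⟩ := (hB.subgroup M).translates (a := c₀.1) (g := ⟨m₀, hm₀⟩) hm₀c
      (show k ≤ N by omega)
    have hxn : ∀ i j : ℕ, i < N → j < N → (x : G) ^ i • n' = (x : G) ^ j • n' → i = j := by
      intro i j hi hj hij
      refine hB.pow (a := n') (g := (x : G)) ?_ hi hj hij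
      intro h
      exact hxM (hFM n' hn'F _ h)
    obtain ⟨t₁, ht₁, t₂, ht₂, hxadj⟩ := hxW
    have hxadj' : Y.Adj t₁.1 ((x : G) • t₂.1) := hxadj
    -- the paths
    let U : Set V := {w | ∃ j < k, ∃ t ∈ T, w = (x : G) ^ j • (t : C).1}
    have hpiece : ∀ j < k, ∀ t ∈ T, ∀ t' ∈ T,
        Relation.ReflTransGen (StepIn Y U) ((x : G) ^ j • (t : C).1) ((x : G) ^ j • (t' : C).1) := by
      intro j hj t ht t' ht'
      have h1 := step_of_conn hT.conn ht ht'
      have key : ∀ t' : C, Relation.ReflTransGen (StepIn (Y.induce C) T) t t' →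
          Relation.ReflTransGen (StepIn Y U) ((x : G) ^ j • t.1) ((x : G) ^ j • t'.1) := by
        intro t' h
        induction h with
        | refl => exact Relation.ReflTransGen.refl
        | tail _ hs ih =>
          exact Relation.ReflTransGen.tail ih ⟨hgood.adj _ _ _ hs.1, j, hj, _, hs.2, rfl⟩
      exact key t' h1
    have hUconn : (Y.induce U).Connected := by
      have h0 : (x : G) ^ 0 • t₁.1 ∈ U := ⟨0, hk, t₁, ht₁, rfl⟩
      refine conn_of_base h0 ?_
      rintro _ ⟨j, hj, t, ht, rfl⟩
      have key : ∀ j < k, ∀ t ∈ T, Relation.ReflTransGen (StepIn Y U) ((x : G) ^ 0 • t₁.1)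
          ((x : G) ^ j • (t : C).1) := by
        intro j
        induction j with
        | zero =>
          intro hj t ht
          exact hpiece 0 hj t₁ ht₁ t ht
        | succ j ih =>
          intro hj t ht
          refine Relation.ReflTransGen.trans (ih (by omega) t₁ ht₁) ?_
          refine Relation.ReflTransGen.head ⟨?_, j + 1, hj, t₂, ht₂, rfl⟩
            (hpiece (j + 1) hj t₂ ht₂ t ht)
          have := hgood.adj ((x : G) ^ j) _ _ hxadj'
          rw [← mul_smul, ← pow_succ] at this
          exact this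
      exact key j hj t ht
    apply hgood.nominor
    refine hasKMinor_of_biclique (fun i : Fin k => {w | ∃ s ∈ U, w = (y i : G) • s})
      (fun j : Fin k => {(x : G) ^ j.1 • n'}) (fun i => conn_smul hgood.adj hUconn _)
      (fun j => conn_singleton _ _) ?_ ?_ ?_ ?_
    · intro i i' hii
      rw [Set.disjoint_left]
      rintro _ ⟨_, ⟨j, hj, t, ht, rfl⟩, rfl⟩ ⟨_, ⟨j', hj', t', ht', rfl⟩, h⟩
      apply hii
      have hyH : ∀ i, (y i : G) ∈ H := fun i => hcase _ (y i).2
      let u : H := (⟨y i, hyH i⟩ * x ^ j)⁻¹ * (⟨y i', hyH i'⟩ * x ^ j')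
      have hut : u • t' = t := by
        apply Subtype.ext
        rw [hsm]
        change (((y i : G) * (x : G) ^ j)⁻¹ * ((y i' : G) * (x : G) ^ j')) • t'.1 = t.1
        rw [mul_smul, inv_smul_eq_iff, mul_smul, mul_smul]
        exact h.symm
      have hu3 : u ∈ stabilizer H c₀ := hT.free u t' ht' (by rw [hut]; exact ht)
      have huM : (u : G) ∈ M := hM₃ u hu3
      have hueq : (y i' : G) * (x : G) ^ j' = (y i : G) * (x : G) ^ j * (u : G) := by
        change _ = (y i : G) * (x : G) ^ j * (((y i : G) * (x : G) ^ j)⁻¹ * ((y i' : G) * (x : G) ^ j'))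
        rw [mul_inv_cancel_left]
      have h1 : (x : G) ^ j' • n' = (x : G) ^ j • n' := by
        have h2 : ((y i' : G) * (x : G) ^ j') • n' = ((y i : G) * (x : G) ^ j * (u : G)) • n' := by
          rw [hueq]
        rw [mul_smul, mul_smul, mul_smul, hFf _ huM n' hn'F,
          hFf _ (y i').2 _ (hFs _ _ hn'F), hFf _ (y i).2 _ (hFs _ _ hn'F)] at h2
        exact h2
      have h3 := hxn j' j (by omega) (by omega) h1
      subst h3
      have h4 : x ^ j' * u * (x ^ j')⁻¹ ∈ stabilizer H c₀ := hM₃n.conj_mem u hu3 _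
      have h5 : (y i' : G) = (y i : G) * ((x ^ j' * u * (x ^ j')⁻¹ : H) : G) := by
        have : (y i' : G) = (y i : G) * (x : G) ^ j' * (u : G) * ((x : G) ^ j')⁻¹ := by
          rw [← hueq, mul_inv_cancel_right]
        rw [this]
        push_cast
        group
      have h6 : ((x ^ j' * u * (x ^ j')⁻¹ : H) : G) • c₀.1 = c₀.1 := congrArg Subtype.val h4
      apply hy
      change (y i : G) • c₀.1 = (y i' : G) • c₀.1
      rw [h5, mul_smul, h6]
    · intro j j' hjj
      rw [Set.disjoint_singleton]
      intro h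
      apply hjj
      apply Fin.ext
      exact hxn _ _ (by omega) (by omega) h
    · intro i j
      rw [Set.disjoint_singleton_right]
      rintro ⟨_, ⟨j', hj', t, ht, rfl⟩, h⟩
      have h1 : (x : G) ^ j.1 • n' ∈ F := hFs _ _ hn'F
      rw [h] at h1
      exact hFs' _ _ (hFs' _ _ (rho_notmem hvF t.2)) h1
    · intro i j
      refine ⟨(y i : G) • ((x : G) ^ j.1 • t₀.1), ⟨_, ⟨j.1, j.2, t₀, ht₀, rfl⟩, rfl⟩,
        (x : G) ^ j.1 • n', rfl, ?_⟩
      have h1 := hgood.adj (y i : G) _ _ (hgood.adj ((x : G) ^ j.1) _ _ ht₀n')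
      rw [hFf _ (y i).2 _ (hFs _ _ hn'F)] at h1
      exact h1
  · -- M moves the component
    push Not at hcase
    obtain ⟨m₀, hm₀, hm₀H⟩ := hcase
    obtain ⟨f, hf⟩ := (hB.subgroup H).translates (a := n) (g := ⟨g, hvg⟩) (fun h => hg (hFM n hn g h))
      (show k ≤ N by omega)
    obtain ⟨y, hy⟩ := (hB.subgroup M).translates (a := ((1 : M) : M ⧸ (H.subgroupOf M)))
      (g := ⟨m₀, hm₀⟩) (by
        intro h
        have h2 : (((⟨m₀, hm₀⟩ : M) * 1 : M) : M ⧸ (H.subgroupOf M)) =
          ((1 : M) : M ⧸ (H.subgroupOf M)) := h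
        rw [mul_one, QuotientGroup.eq, mul_one] at h2
        have h3 := inv_mem h2
        rw [inv_inv, Subgroup.mem_subgroupOf] at h3
        exact hm₀H h3) (show k ≤ N by omega)
    have hy' : ∀ i j, rho Y F ((y i : G) • v) ((y j : G) • v) → i = j := by
      intro i j h
      apply hy
      change ((y i * 1 : M) : M ⧸ (H.subgroupOf M)) = ((y j * 1 : M) : M ⧸ (H.subgroupOf M))
      rw [mul_one, mul_one, QuotientGroup.eq, Subgroup.mem_subgroupOf]
      have h1 := hmap (y i : G)⁻¹ h
      rw [inv_smul_smul, ← mul_smul] at h1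
      exact h1
    apply hgood.nominor
    refine hasKMinor_of_biclique (fun i : Fin k => {w | rho Y F ((y i : G) • v) w})
      (fun j : Fin k => {(f j : G) • n}) (fun i => rho_conn Y F _)
      (fun j => conn_singleton _ _) ?_ ?_ ?_ ?_
    · intro i j hij
      rw [Set.disjoint_left]
      intro w hw hw'
      exact hij (hy' i j (rho_trans hw (rho_symm hw')))
    · intro i j hij
      rw [Set.disjoint_singleton]
      intro h
      exact hij (hf i j h)
    · intro i j
      rw [Set.disjoint_singleton_right]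
      intro h
      exact rho_notmem (hFs' _ _ hvF) h (hFs _ _ hn)
    · intro i j
      refine ⟨(y i : G) • ((f j : G) • a), ?_, (f j : G) • n, rfl, ?_⟩
      · exact hmap (y i : G) (rho_trans (f j).2 (hmap (f j : G) ha))
      · have h1 := hgood.adj (y i : G) _ _ (hgood.adj (f j : G) _ _ han)
        rw [hFf _ (y i).2 _ (hFs _ _ hn)] at h1
        exact h1

theorem KT {k N : ℕ} (hN : 2 ^ k ≤ N) (hN2 : 2 * k ≤ N) (n : ℕ) :
    ∀ (G V : Type) [Group G] [Finite G] [Finite V] [MulAction G V] (Y : SimpleGraph V),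
      Nat.card G + Nat.card V ≤ n → Big N G → Good G k V Y → ∃ x₀ : V, KTc G V Y x₀ := by
  classical
  induction n with
  | zero =>
    intro G V _ _ _ _ Y hcard _ hgood
    exfalso
    have := hgood.conn.nonempty
    have := Nat.card_pos (α := V)
    omega
  | succ n ih =>
    intro G V _ _ _ _ Y hcard hB hgood
    obtain ⟨M₁, hM₁, hstab⟩ := step1 hN hB _ V Y le_rfl hgood
    have h1 : ∃ x₀ : V, ∀ v : V, stabilizer G v ≤ stabilizer G x₀ := by
      by_cases hfix : ∃ x₀ : V, ∀ m ∈ M₁, m • x₀ = x₀
      · obtain ⟨x₀, hx₀⟩ := hfix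
        exact ⟨x₀, fun v g hg => hx₀ g (hstab v hg)⟩
      · push Not at hfix
        have hgood1 : Good M₁ k V Y := by
          refine ⟨fun g a b h => hgood.adj (g : G) a b h, hgood.conn, ?_, hgood.nominor⟩
          intro v
          obtain ⟨m, hm, h⟩ := hfix v
          exact ⟨⟨m, hm⟩, h⟩
        have hcard1 : Nat.card M₁ < Nat.card G := by
          have h2 : Nat.card M₁ ≠ Nat.card G := fun h => hM₁ (Subgroup.eq_top_of_card_eq _ h)
          have h3 : Nat.card M₁ ≤ Nat.card G :=
            Nat.card_le_card_of_injective _ Subtype.val_injective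
          omega
        obtain ⟨x₀, hx₀⟩ := ih M₁ V Y (by omega) (hB.subgroup M₁) hgood1
        refine ⟨x₀, ?_⟩
        intro v g hg
        have h2 : (⟨g, hstab v hg⟩ : M₁) ∈ stabilizer M₁ v := hg
        exact hx₀.big v h2
    obtain ⟨x₀, hbig⟩ := h1
    have hcomp := comp_step hN2 hB hgood hbig (fun G' V' _ _ _ _ Y' hcard' hB' hgood' =>
      ih G' V' Y' (by omega) hB' hgood')
    exact ⟨x₀, hbig, hcomp, quot_abelian hN hN2 hB hgood hbig hcomp⟩

end Pool.Agent.Helper999.CW
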