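import Pool.Agent.Helper999.HMContract

set_option autoImplicit false

namespace Pool.Agent.Helper999.CW

open SimpleGraph Pool.Agent.Helper999.HM

/-- number of ordered adjacent pairs -/
noncomputable def aa {V : Type} (Y : SimpleGraph V) : ℕ := Nat.card {p : V × V // Y.Adj p.1 p.2}

theorem HasKMinor.mono_graph {V : Type} {E Y : SimpleGraph V} (hEY : ∀ a b, E.Adj a b → Y.Adj a b)
    {k : ℕ} (h : HasKMinor E k) : HasKMinor Y k := by
  obtain ⟨B, h1, h2, h3⟩ := h
  refine ⟨B, ?_, h2, ?_⟩
  · intro i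
    obtain ⟨⟨b, hb⟩⟩ := (h1 i).nonempty
    refine conn_of_base hb ?_
    intro a ha
    have h := step_of_conn (h1 i) hb ha
    exact Relation.ReflTransGen.mono (fun x y (h' : StepIn E (B i) x y) =>
      (⟨hEY _ _ h'.1, h'.2⟩ : StepIn Y (B i) x y)) _ _ h
  · intro i j hij
    obtain ⟨a, ha, b, hb, hab⟩ := h3 i j hij
    exact ⟨a, ha, b, hb, hEY _ _ hab⟩

/-- minors of minors -/
theorem HasKMinor.of_branch {Q V : Type} {R : SimpleGraph Q} {Y : SimpleGraph V} (S : Q → Set V)
    (conn : ∀ q, (Y.induce (S q)).Connected) (disj : ∀ q q', q ≠ q' → Disjoint (S q) (S q'))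
    (adj : ∀ q q', R.Adj q q' → ∃ a ∈ S q, ∃ b ∈ S q', Y.Adj a b) {k : ℕ}
    (h : HasKMinor R k) : HasKMinor Y k := by
  obtain ⟨B, h1, h2, h3⟩ := h
  refine ⟨fun i => {v | ∃ q ∈ B i, v ∈ S q}, ?_, ?_, ?_⟩
  · intro i
    obtain ⟨⟨c, hc⟩⟩ := (h1 i).nonempty
    obtain ⟨⟨a₀, ha₀⟩⟩ := (conn c).nonempty
    have fib : ∀ q ∈ B i, ∀ a ∈ S q, ∀ b ∈ S q,
        Relation.ReflTransGen (StepIn Y {v | ∃ q ∈ B i, v ∈ S q}) a b := by
      intro q hq a ha b hb
      refine StepIn.mono ?_ (step_of_conn (conn q) ha hb)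
      intro v hv
      exact ⟨q, hq, hv⟩
    refine conn_of_base (b := a₀) ⟨c, hc, ha₀⟩ ?_
    rintro a ⟨q, hq, ha⟩
    have h := step_of_conn (h1 i) hc hq
    have key : ∀ q, Relation.ReflTransGen (StepIn R (B i)) c q → ∀ a ∈ S q,
        Relation.ReflTransGen (StepIn Y {v | ∃ q ∈ B i, v ∈ S q}) a₀ a := by
      intro q h
      induction h with
      | refl =>
        intro a ha
        exact fib c hc _ ha₀ _ ha
      | tail _ hst ih =>
        intro a ha
        obtain ⟨u, hu, v, hv, huv⟩ := adj _ _ hst.1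
        exact Relation.ReflTransGen.trans
          (Relation.ReflTransGen.tail (ih u hu) ⟨huv, _, hst.2, hv⟩) (fib _ hst.2 _ hv _ ha)
    exact key _ h a ha
  · intro i j hij
    rw [Set.disjoint_left]
    rintro v ⟨q, hq, hv⟩ ⟨q', hq', hv'⟩
    by_cases h : q = q'
    · subst h
      exact Set.disjoint_left.1 (h2 i j hij) hq hq'
    · exact Set.disjoint_left.1 (disj q q' h) hv hv'
  · intro i j hij
    obtain ⟨q, hq, q', hq', hqq⟩ := h3 i j hij
    obtain ⟨a, ha, b, hb, hab⟩ := adj _ _ hqq
    exact ⟨a, ⟨q, hq, ha⟩, b, ⟨q', hq', hb⟩, hab⟩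

theorem add_vertex {V : Type} {Y : SimpleGraph V} {x : V} {k : ℕ}
    (h : HasKMinor (Y.induce (Y.neighborSet x)) k) : HasKMinor Y (k + 1) := by
  obtain ⟨B, h1, h2, h3⟩ := h
  have himg : ∀ i, (Y.induce (Subtype.val '' (B i))).Connected := by
    intro i
    obtain ⟨⟨b, hb⟩⟩ := (h1 i).nonempty
    refine conn_of_base (b := b.1) ⟨b, hb, rfl⟩ ?_
    rintro _ ⟨a, ha, rfl⟩
    have h := step_of_conn (h1 i) hb ha
    have key : ∀ a, Relation.ReflTransGen (StepIn (Y.induce (Y.neighborSet x)) (B i)) b a →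
        Relation.ReflTransGen (StepIn Y (Subtype.val '' (B i))) b.1 a.1 := by
      intro a h
      induction h with
      | refl => exact Relation.ReflTransGen.refl
      | tail _ hs ih => exact Relation.ReflTransGen.tail ih ⟨hs.1, _, hs.2, rfl⟩
    exact key a h
  have hx : ∀ i, x ∉ Subtype.val '' (B i) := by
    rintro i ⟨a, _, ha⟩
    have := a.2
    rw [mem_neighborSet, ha] at this
    exact this.ne rfl
  have hadj : ∀ i, ∃ b ∈ Subtype.val '' (B i), Y.Adj x b := by
    intro i
    obtain ⟨⟨b, hb⟩⟩ := (h1 i).nonempty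
    exact ⟨b.1, ⟨b, hb, rfl⟩, b.2⟩
  refine ⟨Fin.cons {x} (fun i => Subtype.val '' (B i)), ?_, ?_, ?_⟩
  · intro i
    refine Fin.cases ?_ ?_ i
    · exact conn_singleton Y x
    · intro i
      exact himg i
  · intro i j
    refine Fin.cases ?_ ?_ i
    · refine Fin.cases ?_ ?_ j
      · intro h; exact absurd rfl h
      · intro j _
        simp only [Fin.cons_zero, Fin.cons_succ]
        rw [Set.disjoint_singleton_left]
        exact hx j
    · intro i
      refine Fin.cases ?_ ?_ j
      · intro _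
        simp only [Fin.cons_zero, Fin.cons_succ]
        rw [Set.disjoint_singleton_right]
        exact hx i
      · intro j hij
        simp only [Fin.cons_succ]
        rw [Set.disjoint_left]
        rintro _ ⟨a, ha, rfl⟩ ⟨b, hb, hab⟩
        have := Subtype.ext hab
        subst this
        exact Set.disjoint_left.1 (h2 i j (fun h => hij (congrArg Fin.succ h))) ha hb
  · intro i j
    refine Fin.cases ?_ ?_ i
    · refine Fin.cases ?_ ?_ j
      · intro h; exact absurd rfl h
      · intro j _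
        obtain ⟨b, hb, hxb⟩ := hadj j
        exact ⟨x, by simp, b, by simpa using hb, hxb⟩
    · intro i
      refine Fin.cases ?_ ?_ j
      · intro _
        obtain ⟨b, hb, hxb⟩ := hadj i
        exact ⟨b, by simpa using hb, x, by simp, hxb.symm⟩
      · intro j hij
        obtain ⟨a, ha, b, hb, hab⟩ := h3 i j (fun h => hij (congrArg Fin.succ h))
        refine ⟨a.1, ?_, b.1, ?_, hab⟩
        · simp only [Fin.cons_succ]
          exact ⟨a, ha, rfl⟩
        · simp only [Fin.cons_succ]
          exact ⟨b, hb, rfl⟩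

theorem aa_eq_sum {V : Type} [Fintype V] (Y : SimpleGraph V) :
    aa Y = ∑ v : V, Nat.card {w : V // Y.Adj v w} := by
  classical
  unfold aa
  rw [Nat.card_congr (Equiv.subtypeProdEquivSigmaSubtype (fun a b => Y.Adj a b))]
  rw [Nat.card_sigma]

theorem le_aa {V : Type} [Finite V] (Y : SimpleGraph V) (d : ℕ)
    (h : ∀ v, d ≤ Nat.card {w : V // Y.Adj v w}) : d * Nat.card V ≤ aa Y := by
  classical
  have := Fintype.ofFinite V
  rw [aa_eq_sum]
  have h1 : ∑ _v : V, d ≤ ∑ v : V, Nat.card {w : V // Y.Adj v w} :=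
    Finset.sum_le_sum (fun v _ => h v)
  rw [Finset.sum_const, Finset.card_univ, smul_eq_mul] at h1
  rw [Nat.card_eq_fintype_card, mul_comm]
  exact h1

/-- identify `x` and `y` -/
def glueSetoid {V : Type} (x y : V) : Setoid V where
  r a b := a = b ∨ ((a = x ∨ a = y) ∧ (b = x ∨ b = y))
  iseqv := by
    refine ⟨fun a => Or.inl rfl, ?_, ?_⟩
    · rintro a b (h | ⟨h, h'⟩)
      · exact Or.inl h.symm
      · exact Or.inr ⟨h', h⟩
    · rintro a b c (rfl | ⟨h, h'⟩) (rfl | ⟨g, g'⟩)
      · exact Or.inl rfl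
      · exact Or.inr ⟨g, g'⟩
      · exact Or.inr ⟨h, h'⟩
      · exact Or.inr ⟨h, g'⟩

theorem aa_contract {V : Type} [Finite V] (Y : SimpleGraph V) {x y : V} (hxy : Y.Adj x y) :
    aa Y ≤ aa (quotGraph Y (glueSetoid x y)) + 2 +
      2 * Nat.card {c : V // Y.Adj x c ∧ Y.Adj y c} := by
  classical
  have := Fintype.ofFinite V
  have := Fintype.ofFinite (Quotient (glueSetoid x y))
  set s := glueSetoid x y with hs
  have hmk : ∀ a b : V, Quotient.mk s a = Quotient.mk s b →
      a = b ∨ ((a = x ∨ a = y) ∧ (b = x ∨ b = y)) := fun a b h => Quotient.exact h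
  let P : Finset (V × V) := Finset.univ.filter (fun p => Y.Adj p.1 p.2)
  let P' : Finset (Quotient s × Quotient s) :=
    Finset.univ.filter (fun p => (quotGraph Y s).Adj p.1 p.2)
  let Com : Finset V := Finset.univ.filter (fun c => Y.Adj x c ∧ Y.Adj y c)
  have hP : aa Y = P.card := by
    unfold aa
    rw [Nat.card_eq_fintype_card, Fintype.card_subtype]
  have hP' : aa (quotGraph Y s) = P'.card := by
    unfold aa
    rw [Nat.card_eq_fintype_card, Fintype.card_subtype]
  have hCom : Nat.card {c : V // Y.Adj x c ∧ Y.Adj y c} = Com.card := by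
    rw [Nat.card_eq_fintype_card, Fintype.card_subtype]
  rw [hP, hP', hCom]
  let E : Finset (V × V) := {(x, y), (y, x)} ∪ (Com.image (fun c => (y, c)) ∪
    Com.image (fun c => (c, y)))
  have hE : E.card ≤ 2 + (Com.card + Com.card) := by
    refine le_trans (Finset.card_union_le _ _) (Nat.add_le_add Finset.card_le_two ?_)
    exact le_trans (Finset.card_union_le _ _) (Nat.add_le_add Finset.card_image_le
      Finset.card_image_le)
  have hsub : (P \ E).card ≤ P'.card := by
    refine Finset.card_le_card_of_injOn (fun p => (Quotient.mk s p.1, Quotient.mk s p.2)) ?_ ?_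
    · rintro ⟨a, b⟩ hab
      simp only [P, E, Finset.coe_sdiff, Finset.coe_union, Set.mem_sdiff, Finset.mem_coe,
        Finset.mem_filter, Finset.mem_univ, true_and, Set.mem_union, Finset.mem_insert,
        Finset.mem_singleton, Prod.mk.injEq, not_or] at hab
      simp only [P', Finset.coe_filter, Finset.mem_univ, true_and]
      refine ⟨?_, a, b, rfl, rfl, hab.1⟩
      intro h
      rcases hmk _ _ h with h | ⟨h | h, h' | h'⟩
      · exact hab.1.ne h
      · exact hab.1.ne (h.trans h'.symm)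
      · exact hab.2.1.1 ⟨h, h'⟩
      · exact hab.2.1.2 ⟨h, h'⟩
      · exact hab.1.ne (h.trans h'.symm)
    · rintro ⟨a, b⟩ hab ⟨a', b'⟩ hab' heq
      simp only [P, E, Com, Finset.coe_sdiff, Finset.coe_union, Set.mem_sdiff, Finset.mem_coe,
        Finset.mem_filter, Finset.mem_univ, true_and, Set.mem_union, Finset.mem_insert,
        Finset.mem_singleton, Prod.mk.injEq, not_or, Finset.mem_image, not_exists] at hab hab'
      simp only [Prod.mk.injEq] at heq
      obtain ⟨h1, h2⟩ := heq
      obtain ⟨hab0, ⟨e1, e2⟩, e3, e4⟩ := hab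
      obtain ⟨hab0', ⟨e1', e2'⟩, e3', e4'⟩ := hab'
      have key : ∀ a b a' b' : V, Y.Adj a b → Y.Adj a' b' →
          (¬ (a = x ∧ b = y)) → (¬ (a = y ∧ b = x)) →
          (∀ c, ¬ ((Y.Adj x c ∧ Y.Adj y c) ∧ y = a ∧ c = b)) →
          (∀ c, ¬ ((Y.Adj x c ∧ Y.Adj y c) ∧ c = a ∧ y = b)) →
          (¬ (a' = x ∧ b' = y)) → (¬ (a' = y ∧ b' = x)) →
          (∀ c, ¬ ((Y.Adj x c ∧ Y.Adj y c) ∧ y = a' ∧ c = b')) →
          (∀ c, ¬ ((Y.Adj x c ∧ Y.Adj y c) ∧ c = a' ∧ y = b')) →
          Quotient.mk s a = Quotient.mk s a' → Quotient.mk s b = Quotient.mk s b' → a = a' := by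
        intro a b a' b' hab0 hab0' e1 e2 e3 e4 e1' e2' e3' e4' h1 h2
        rcases hmk _ _ h1 with h | ⟨h, h'⟩
        · exact h
        · by_contra hne
          rcases hmk _ _ h2 with g | ⟨g, g'⟩
          · subst g
            rcases h with rfl | rfl <;> rcases h' with rfl | rfl
            · exact hne rfl
            · exact e3' b ⟨⟨hab0, hab0'⟩, rfl, rfl⟩
            · exact e3 b ⟨⟨hab0', hab0⟩, rfl, rfl⟩
            · exact hne rfl
          · rcases h with rfl | rfl <;> rcases g with rfl | rfl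
            · exact hab0.ne rfl
            · exact e1 ⟨rfl, rfl⟩
            · exact e2 ⟨rfl, rfl⟩
            · exact hab0.ne rfl
      have h3 := key a b a' b' hab0 hab0' e1 e2 e3 e4 e1' e2' e3' e4' h1 h2
      have h4 := key b a b' a' hab0.symm hab0'.symm (fun h => e2 ⟨h.2, h.1⟩)
        (fun h => e1 ⟨h.2, h.1⟩) (fun c h => e4 c ⟨h.1, h.2.2, h.2.1⟩)
        (fun c h => e3 c ⟨h.1, h.2.2, h.2.1⟩) (fun h => e2' ⟨h.2, h.1⟩)
        (fun h => e1' ⟨h.2, h.1⟩) (fun c h => e4' c ⟨h.1, h.2.2, h.2.1⟩)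
        (fun c h => e3' c ⟨h.1, h.2.2, h.2.1⟩) h2 h1
      rw [h3, h4]
  have h5 : P.card ≤ (P \ E).card + E.card := Finset.card_le_card_sdiff_add_card
  omega

theorem mader (k : ℕ) : ∀ (n : ℕ) (V : Type) [Finite V] (Y : SimpleGraph V), Nat.card V ≤ n →
    Nonempty V → 2 ^ k * Nat.card V ≤ aa Y → HasKMinor Y (k + 2) := by
  classical
  induction k with
  | zero =>
    intro n V _ Y _ hne h
    have hpos : 0 < Nat.card V := Nat.card_pos
    have h1 : 0 < aa Y := by
      have : 2 ^ 0 * Nat.card V = Nat.card V := by simp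
      omega
    unfold aa at h1
    obtain ⟨⟨⟨x, y⟩, hxy⟩⟩ := (Nat.card_pos_iff.1 h1).1
    refine ⟨![{x}, {y}], ?_, ?_, ?_⟩
    · intro i
      fin_cases i
      · exact conn_singleton Y x
      · exact conn_singleton Y y
    · intro i j hij
      fin_cases i <;> fin_cases j
      · exact absurd rfl hij
      · simpa using hxy.ne
      · simpa using hxy.ne'
      · exact absurd rfl hij
    · intro i j hij
      fin_cases i <;> fin_cases j
      · exact absurd rfl hij
      · exact ⟨x, rfl, y, rfl, hxy⟩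
      · exact ⟨y, rfl, x, rfl, hxy.symm⟩
      · exact absurd rfl hij
  | succ k ihk =>
    intro n
    induction n with
    | zero =>
      intro V _ Y hn hne _
      have : 0 < Nat.card V := Nat.card_pos
      omega
    | succ n ihn =>
      intro V _ Y hn hne h
      have hpos : 0 < Nat.card V := Nat.card_pos
      by_cases hlow : ∃ x y, Y.Adj x y ∧ Nat.card {c : V // Y.Adj x c ∧ Y.Adj y c} < 2 ^ k
      · obtain ⟨x, y, hxy, hc⟩ := hlow
        have h1 := aa_contract Y hxy
        have hcard : Nat.card (Quotient (glueSetoid x y)) < Nat.card V := by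
          have := Fintype.ofFinite V
          have := Fintype.ofFinite (Quotient (glueSetoid x y))
          rw [Nat.card_eq_fintype_card, Nat.card_eq_fintype_card]
          refine Fintype.card_lt_of_surjective_not_injective (Quotient.mk (glueSetoid x y))
            Quotient.exists_rep ?_
          intro hinj
          exact hxy.ne (hinj (Quotient.sound (s := glueSetoid x y)
            (Or.inr ⟨Or.inl rfl, Or.inr rfl⟩)))
        have h2 : HasKMinor (quotGraph Y (glueSetoid x y)) (k + 1 + 2) := by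
          refine ihn _ _ (by omega) ⟨Quotient.mk _ x⟩ ?_
          have h3 : 2 ^ (k + 1) * Nat.card (Quotient (glueSetoid x y)) + 2 ^ (k + 1) ≤
              2 ^ (k + 1) * Nat.card V := by
            rw [← Nat.mul_succ]
            exact Nat.mul_le_mul_left _ hcard
          have h4 : 2 ^ (k + 1) = 2 * 2 ^ k := by ring
          omega
        refine HasKMinor.of_quot ?_ h2
        rintro a b (rfl | ⟨h | h, h' | h'⟩)
        · exact Relation.ReflTransGen.refl
        · rw [h, h']
        · subst h h'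
          exact Relation.ReflTransGen.single ⟨hxy, Or.inr ⟨Or.inl rfl, Or.inr rfl⟩⟩
        · subst h h'
          exact Relation.ReflTransGen.single ⟨hxy.symm, Or.inr ⟨Or.inr rfl, Or.inl rfl⟩⟩
        · rw [h, h']
      · push Not at hlow
        have h1 : 0 < aa Y := by
          have : 0 < 2 ^ (k + 1) * Nat.card V := by positivity
          omega
        unfold aa at h1
        obtain ⟨⟨⟨x, y⟩, hxy⟩⟩ := (Nat.card_pos_iff.1 h1).1
        have h2 : HasKMinor (Y.induce (Y.neighborSet x)) (k + 2) := by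
          refine ihk (Nat.card (Y.neighborSet x)) _ _ le_rfl ⟨⟨y, hxy⟩⟩ ?_
          refine le_aa _ _ ?_
          rintro ⟨v, hv⟩
          refine le_trans (hlow x v hv) ?_
          refine Nat.card_le_card_of_injective
            (fun c => ⟨⟨c.1, c.2.1⟩, c.2.2⟩ : {c : V // Y.Adj x c ∧ Y.Adj v c} →
              {w : Y.neighborSet x // (Y.induce (Y.neighborSet x)).Adj ⟨v, hv⟩ w}) ?_
          rintro ⟨c, hc⟩ ⟨c', hc'⟩ h
          simp only [Subtype.mk.injEq] at h
          exact Subtype.ext h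
        exact add_vertex h2

theorem exists_low_degree {k : ℕ} {V : Type} [Finite V] [Nonempty V] {Y : SimpleGraph V}
    (h : ¬ HasKMinor Y k) : ∃ v, Nat.card {w : V // Y.Adj v w} < 2 ^ k := by
  by_contra hcon
  push Not at hcon
  exact h (HasKMinor.mono (mader k _ V Y le_rfl inferInstance (le_aa Y _ hcon)) (by omega))

end Pool.Agent.Helper999.CW
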