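import Pool.Agent.Helper999.CWCayley

set_option autoImplicit false

namespace Pool.Agent.Helper999.CW

open SimpleGraph MulAction Pool.Agent.Helper999.HM Subgroup

theorem conn_smul {G V : Type} [Group G] [MulAction G V] {Y : SimpleGraph V}
    (hadj : ∀ (g : G) (a b : V), Y.Adj a b → Y.Adj (g • a) (g • b)) {S : Set V}
    (hS : (Y.induce S).Connected) (g : G) :
    (Y.induce {w | ∃ s ∈ S, w = g • s}).Connected := by
  obtain ⟨⟨b, hb⟩⟩ := hS.nonempty
  refine conn_of_base (b := g • b) ⟨b, hb, rfl⟩ ?_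
  rintro _ ⟨a, ha, rfl⟩
  have h := step_of_conn hS hb ha
  have key : ∀ a, Relation.ReflTransGen (StepIn Y S) b a →
      Relation.ReflTransGen (StepIn Y {w | ∃ s ∈ S, w = g • s}) (g • b) (g • a) := by
    intro a h
    induction h with
    | refl => exact Relation.ReflTransGen.refl
    | tail _ hs ih => exact Relation.ReflTransGen.tail ih ⟨hadj g _ _ hs.1, _, hs.2, rfl⟩
  exact key a h

section
variable {G V : Type} [Group G] [MulAction G V]

/-- the points whose stabilizer contains the stabilizer of `x₀` -/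
def FF (G : Type) {V : Type} [Group G] [MulAction G V] (x₀ : V) : Set V :=
  {w | stabilizer G x₀ ≤ stabilizer G w}

theorem normal_of_big {x₀ : V} (hbig : ∀ v : V, stabilizer G v ≤ stabilizer G x₀) :
    (stabilizer G x₀).Normal := by
  refine ⟨?_⟩
  intro m hm g
  apply hbig (g • x₀)
  rw [mem_stabilizer_iff] at hm ⊢
  rw [mul_smul, mul_smul, inv_smul_smul, hm]

theorem FF_smul {x₀ : V} (hbig : ∀ v : V, stabilizer G v ≤ stabilizer G x₀) (g : G) (v : V)
    (hv : v ∈ FF G x₀) : g • v ∈ FF G x₀ := by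
  intro m hm
  have h1 := (normal_of_big hbig).conj_mem m hm g⁻¹
  rw [inv_inv] at h1
  have h2 := hv h1
  rw [mem_stabilizer_iff] at h2 ⊢
  rw [mul_smul, mul_smul, inv_smul_eq_iff] at h2
  exact h2

theorem FF_fix {x₀ : V} (m : G) (hm : m ∈ stabilizer G x₀) (v : V) (hv : v ∈ FF G x₀) :
    m • v = v := hv hm

theorem quot_abelian [Finite G] [Finite V] {k N : ℕ} (hN : 2 ^ k ≤ N) (hN2 : 2 * k ≤ N)
    (hB : Big N G) {Y : SimpleGraph V} (hgood : Good G k V Y) {x₀ : V}
    (hbig : ∀ v : V, stabilizer G v ≤ stabilizer G x₀)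
    (hcomp : ∀ (v : V) (g : G), rho Y (FF G x₀) v (g • v) → g ∈ stabilizer G x₀) (a b : G) :
    a⁻¹ * b⁻¹ * a * b ∈ stabilizer G x₀ := by
  classical
  set M := stabilizer G x₀ with hM
  have hn : M.Normal := normal_of_big hbig
  obtain ⟨T, hT⟩ := exists_trans hgood.adj hgood.conn (FF_smul hbig) hcomp
  have hW : ∀ g m : G, g ∉ M → m ∈ M → Wadj Y T g → Wadj Y T (g * m) := fun g m hg hm h =>
    hT.inv hgood.adj hn (FF_smul hbig) FF_fix hg hm h
  let R : SimpleGraph (G ⧸ M) :=
    { Adj := fun a b => a ≠ b ∧ ∃ g h : G, (g : G ⧸ M) = a ∧ (h : G ⧸ M) = b ∧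
        Wadj Y T (g⁻¹ * h)
      symm := ⟨by
        rintro a b ⟨hne, g, h, hg, hh, t, ht, t', ht', hadj⟩
        refine ⟨hne.symm, h, g, hh, hg, t', ht', t, ht, ?_⟩
        have := hgood.adj (h⁻¹ * g) _ _ hadj
        rw [← mul_smul, show h⁻¹ * g * (g⁻¹ * h) = 1 by group, one_smul] at this
        exact this.symm⟩
      loopless := ⟨fun a h => h.1 rfl⟩ }
  have hR : ∀ g h : G, R.Adj (g : G ⧸ M) (h : G ⧸ M) → Wadj Y T (g⁻¹ * h) := by
    rintro g h ⟨hne, g', h', hg, hh, hw⟩
    have h1 : g'⁻¹ * h' ∉ M := by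
      intro hmem
      apply hne
      rw [← hg, ← hh]
      exact QuotientGroup.eq.2 hmem
    have h2 : (g'⁻¹ * h')⁻¹ * (g⁻¹ * h) ∈ M := by
      rw [← QuotientGroup.eq]
      rw [QuotientGroup.mk_mul, QuotientGroup.mk_mul, QuotientGroup.mk_inv, QuotientGroup.mk_inv,
        hg, hh]
    have h3 := hW _ _ h1 h2 hw
    rwa [mul_inv_cancel_left] at h3
  have hinv : ∀ q a b : G ⧸ M, R.Adj a b → R.Adj (q * a) (q * b) := by
    rintro q a b ⟨hne, g, h, rfl, rfl, hw⟩
    obtain ⟨c, rfl⟩ := QuotientGroup.mk_surjective q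
    refine ⟨fun h => hne (mul_left_cancel h), c * g, c * h, rfl, rfl, ?_⟩
    rw [show (c * g)⁻¹ * (c * h) = g⁻¹ * h by group]
    exact hw
  have hrch : ∀ q a b : G ⧸ M, R.Reachable a b → R.Reachable (q * a) (q * b) := by
    rintro q a b ⟨w⟩
    induction w with
    | nil => exact Reachable.refl _
    | cons h _ ih => exact (hinv q _ _ h).reachable.trans ih
  let K : Subgroup G :=
    { carrier := {g | R.Reachable 1 (g : G ⧸ M)}
      mul_mem' := by
        intro g h hg hh
        have := hrch (g : G ⧸ M) _ _ hh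
        rw [mul_one] at this
        exact Reachable.trans hg this
      one_mem' := Reachable.refl _
      inv_mem' := by
        intro g hg
        have := hrch ((g⁻¹ : G) : G ⧸ M) _ _ hg
        rw [mul_one, ← QuotientGroup.mk_mul, inv_mul_cancel] at this
        exact this.symm }
  have hconn : R.Connected := by
    rw [connected_iff_exists_forall_reachable]
    refine ⟨1, ?_⟩
    intro q
    obtain ⟨g, rfl⟩ := QuotientGroup.mk_surjective q
    refine hT.gen hgood.adj hgood.conn K ?_ ?_ g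
    · intro m hm
      change R.Reachable 1 (m : G ⧸ M)
      rw [(QuotientGroup.eq_one_iff m).2 hm]
    · intro g hg hw
      apply Adj.reachable
      refine ⟨?_, 1, g, rfl, rfl, ?_⟩
      · intro h
        exact hg ((QuotientGroup.eq_one_iff g).1 h.symm)
      · rw [inv_one, one_mul]
        exact hw
  have hno : ¬ HasKMinor R k := by
    intro h
    apply hgood.nominor
    refine HasKMinor.of_branch (fun q : G ⧸ M => {w | ∃ t ∈ T, w = q.out • t}) ?_ ?_ ?_ h
    · intro q
      exact conn_smul hgood.adj hT.conn _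
    · intro q q' hqq
      rw [Set.disjoint_left]
      rintro _ ⟨t, ht, rfl⟩ ⟨t', ht', h⟩
      apply hqq
      have h1 : (q'.out⁻¹ * q.out) ∈ M := by
        refine hT.free _ t ht ?_
        rw [mul_smul, h, inv_smul_smul]
        exact ht'
      have h2 : (q'.out : G ⧸ M) = (q.out : G ⧸ M) := QuotientGroup.eq.2 h1
      rw [QuotientGroup.out_eq', QuotientGroup.out_eq'] at h2
      exact h2.symm
    · intro q q' hqq
      have h1 := hR q.out q'.out (by
        rw [QuotientGroup.out_eq', QuotientGroup.out_eq']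
        exact hqq)
      obtain ⟨t, ht, t', ht', h2⟩ := h1
      refine ⟨q.out • t, ⟨t, ht, rfl⟩, q'.out • t', ⟨t', ht', rfl⟩, ?_⟩
      have h3 := hgood.adj q.out _ _ h2
      rw [← mul_smul, mul_inv_cancel_left] at h3
      exact h3
  have hBQ : Big N (G ⧸ M) := fun d hd => hB d (hd.trans (Subgroup.card_quotient_dvd_card M))
  have h1 := cayley_abelian hN hN2 hBQ hconn hinv hno (a : G ⧸ M) (b : G ⧸ M)
  rw [← QuotientGroup.mk_mul, ← QuotientGroup.mk_mul] at h1
  have h2 := QuotientGroup.eq.1 h1.symm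
  rw [show (b * a)⁻¹ * (a * b) = a⁻¹ * b⁻¹ * a * b by group] at h2
  exact h2

end

end Pool.Agent.Helper999.CW
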