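import Pool.Agent.Helper999.CWBig

set_option autoImplicit false

namespace Pool.Agent.Helper999.CW

open SimpleGraph MulAction Pool.Agent.Helper999.HM

theorem edge_aux {G V : Type} [Group G] [MulAction G V] {E : SimpleGraph V} {x y : V}
    (hE : ∀ a b, E.Adj a b ↔ ∃ g : G, (a = g • x ∧ b = g • y) ∨ (a = g • y ∧ b = g • x))
    (hinv : ∃ v₀ : V, ∀ g : G, E.Reachable v₀ (g • v₀))
    (hnofix : ∀ v : V, ∃ g : G, g • v ≠ v)
    (hx : ∀ h : G, h • x = x → ∀ u, E.Adj x u → h • u = u) :
    stabilizer G x = stabilizer G y := by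
  have hExy : E.Adj x y := (hE x y).2 ⟨1, Or.inl ⟨(one_smul _ _).symm, (one_smul _ _).symm⟩⟩
  have hEadj : ∀ (g : G) (a b : V), E.Adj a b → E.Adj (g • a) (g • b) := by
    intro g a b hab
    obtain ⟨h, ⟨rfl, rfl⟩ | ⟨rfl, rfl⟩⟩ := (hE a b).1 hab
    · exact (hE _ _).2 ⟨g * h, Or.inl ⟨by rw [mul_smul], by rw [mul_smul]⟩⟩
    · exact (hE _ _).2 ⟨g * h, Or.inr ⟨by rw [mul_smul], by rw [mul_smul]⟩⟩
  have hErch : ∀ (g : G) (a b : V), E.Reachable a b → E.Reachable (g • a) (g • b) := by
    rintro g a b ⟨w⟩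
    induction w with
    | nil => exact Reachable.refl _
    | cons h _ ih => exact (hEadj g _ _ h).reachable.trans ih
  by_cases hyx : ∃ a : G, a • x = y
  · obtain ⟨a, ha⟩ := hyx
    have hmem : ∀ u w, E.Adj u w → ∃ g : G, u = g • x := by
      intro u w h
      obtain ⟨g, ⟨h, _⟩ | ⟨h, _⟩⟩ := (hE u w).1 h
      · exact ⟨g, h⟩
      · exact ⟨g * a, by rw [mul_smul, ha]; exact h⟩
    have hle : ∀ u w, E.Adj u w → stabilizer G u ≤ stabilizer G w := by
      intro u w h
      obtain ⟨g, rfl⟩ := hmem u w h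
      intro k hk
      rw [mem_stabilizer_iff] at hk ⊢
      have h1 : E.Adj x (g⁻¹ • w) := by
        have := hEadj g⁻¹ _ _ h
        rwa [inv_smul_smul] at this
      have h2 : (g⁻¹ * k * g) • x = x := by
        rw [mul_smul, mul_smul, hk, inv_smul_smul]
      have h3 := hx _ h2 _ h1
      rw [mul_smul, mul_smul, smul_inv_smul] at h3
      have := congrArg (fun v => g • v) h3
      simpa using this
    exact le_antisymm (hle _ _ hExy) (hle _ _ hExy.symm)
  · exfalso
    push Not at hyx
    have hnx : ∀ g : G, x ≠ g • y := by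
      intro g h
      exact hyx g⁻¹ (by rw [h, inv_smul_smul])
    have h1 : ∀ u, E.Adj x u → u = y := by
      intro u hu
      obtain ⟨g, ⟨h, h'⟩ | ⟨h, _⟩⟩ := (hE x u).1 hu
      · rw [h']
        exact hx g h.symm y hExy
      · exact absurd h (hnx g)
    have h2 : ∀ w, E.Adj y w → ∃ g : G, w = g • x ∧ g • y = y := by
      intro w hw
      obtain ⟨g, ⟨h, h'⟩ | ⟨h, h'⟩⟩ := (hE y w).1 hw
      · exact absurd h.symm (hyx g)
      · exact ⟨g, h', h.symm⟩
    have hstar : ∀ w, E.Reachable y w → w = y ∨ E.Adj y w := by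
      intro w hw
      rw [reachable_iff_reflTransGen] at hw
      induction hw with
      | refl => exact Or.inl rfl
      | tail _ hst ih =>
        rcases ih with rfl | ih
        · exact Or.inr hst
        · obtain ⟨g, rfl, hg⟩ := h2 _ ih
          left
          have h3 := hEadj g⁻¹ _ _ hst
          rw [inv_smul_smul] at h3
          have h4 := h1 _ h3
          rw [inv_smul_eq_iff, hg] at h4
          exact h4
    obtain ⟨v₀, hv₀⟩ := hinv
    have hall : ∀ g : G, E.Reachable y (g • y) := by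
      obtain ⟨g₀, hg₀⟩ := hnofix v₀
      obtain ⟨w⟩ := hv₀ g₀
      obtain ⟨c, hc⟩ := first_step w (Ne.symm hg₀)
      obtain ⟨g₁, ⟨h, _⟩ | ⟨h, _⟩⟩ := (hE v₀ c).1 hc
      · have h3 : ∀ g : G, E.Reachable x (g • x) := by
          intro g
          have h4 := hErch g₁⁻¹ _ _ (hv₀ (g₁ * g * g₁⁻¹))
          rw [h, inv_smul_smul, mul_smul, mul_smul, inv_smul_smul, inv_smul_smul] at h4
          exact h4
        intro g
        exact (hExy.symm.reachable.trans (h3 g)).trans (hEadj g _ _ hExy).reachable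
      · intro g
        have h4 := hErch g₁⁻¹ _ _ (hv₀ (g₁ * g * g₁⁻¹))
        rw [h, inv_smul_smul, mul_smul, mul_smul, inv_smul_smul, inv_smul_smul] at h4
        exact h4
    obtain ⟨g, hg⟩ := hnofix y
    rcases hstar _ (hall g) with h | h
    · exact hg h
    · obtain ⟨g', hg', _⟩ := h2 _ h
      exact hyx (g⁻¹ * g') (by rw [mul_smul, ← hg', inv_smul_smul])

theorem edge_case {G V : Type} [Group G] [Finite G] [MulAction G V] [Finite V] {k N : ℕ}
    (hN : 2 ^ k ≤ N) (hB : Big N G) {Y : SimpleGraph V} (hgood : Good G k V Y) {x y : V}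
    (hxy : Y.Adj x y)
    (hinv : ∃ v₀ : V, ∀ g : G, (edgeOrbit G hgood.adj hxy).Reachable v₀ (g • v₀)) :
    stabilizer G x = stabilizer G y := by
  classical
  set E := edgeOrbit G hgood.adj hxy with hEdef
  have hE : ∀ a b, E.Adj a b ↔ ∃ g : G, (a = g • x ∧ b = g • y) ∨ (a = g • y ∧ b = g • x) :=
    fun a b => Iff.rfl
  have hEY : ∀ a b, E.Adj a b → Y.Adj a b := by
    rintro a b ⟨g, ⟨rfl, rfl⟩ | ⟨rfl, rfl⟩⟩
    · exact hgood.adj _ _ _ hxy
    · exact hgood.adj _ _ _ hxy.symm
  have hEadj : ∀ (g : G) (a b : V), E.Adj a b → E.Adj (g • a) (g • b) := by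
    rintro g a b ⟨h, ⟨rfl, rfl⟩ | ⟨rfl, rfl⟩⟩
    · exact ⟨g * h, Or.inl ⟨by rw [mul_smul], by rw [mul_smul]⟩⟩
    · exact ⟨g * h, Or.inr ⟨by rw [mul_smul], by rw [mul_smul]⟩⟩
  have hErch : ∀ (g : G) (a b : V), E.Reachable a b → E.Reachable (g • a) (g • b) := by
    rintro g a b ⟨w⟩
    induction w with
    | nil => exact Reachable.refl _
    | cons h _ ih => exact (hEadj g _ _ h).reachable.trans ih
  obtain ⟨v₀, hv₀⟩ := hinv
  let C : Set V := {v | E.Reachable v₀ v}
  have hne : Nonempty C := ⟨⟨v₀, Reachable.refl _⟩⟩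
  have hno : ¬ HasKMinor (E.induce C) k :=
    fun h => hgood.nominor (HasKMinor.mono_graph hEY h.of_induce)
  obtain ⟨⟨v, hvC⟩, hdeg⟩ := exists_low_degree hno
  have hfixnb : ∀ h : G, h • v = v → ∀ u, E.Adj v u → h • u = u := by
    intro h hh u hu
    by_contra hne
    have h1 := (hB.subgroup (stabilizer G v)).orbit (a := u)
      (g := ⟨h, mem_stabilizer_iff.2 hh⟩) hne
    have h2 : Nat.card (MulAction.orbit (stabilizer G v) u) ≤
        Nat.card {w : C // (E.induce C).Adj ⟨v, hvC⟩ w} := by
      have hadj : ∀ w ∈ MulAction.orbit (stabilizer G v) u, E.Adj v w := by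
        rintro _ ⟨⟨g, hg⟩, rfl⟩
        have := hEadj g _ _ hu
        rw [mem_stabilizer_iff.1 hg] at this
        exact this
      refine Nat.card_le_card_of_injective
        (fun w => ⟨⟨w.1, (Reachable.trans hvC (hadj w.1 w.2).reachable : E.Reachable v₀ w.1)⟩,
          hadj w.1 w.2⟩) ?_
      rintro ⟨w, hw⟩ ⟨w', hw'⟩ h
      simp only [Subtype.mk.injEq] at h
      exact Subtype.ext h
    omega
  obtain ⟨g₀, hg₀⟩ := hgood.nofix v
  have hreach : E.Reachable v (g₀ • v) :=
    (Reachable.symm hvC).trans ((hv₀ g₀).trans (hErch g₀ _ _ hvC))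
  obtain ⟨w⟩ := hreach
  obtain ⟨c, hc⟩ := first_step w (Ne.symm hg₀)
  have htrans : ∀ (g : G) (z : V), v = g • z → ∀ h : G, h • z = z → ∀ u, E.Adj z u → h • u = u := by
    intro g z hz h hh u hu
    have h1 : (g * h * g⁻¹) • v = v := by
      rw [hz, mul_smul, mul_smul, inv_smul_smul, hh]
    have h2 : E.Adj v (g • u) := by
      rw [hz]; exact hEadj g _ _ hu
    have h3 := hfixnb _ h1 _ h2
    rw [mul_smul, mul_smul, inv_smul_smul] at h3
    exact smul_left_cancel g h3
  obtain ⟨g₁, ⟨h, _⟩ | ⟨h, _⟩⟩ := hc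
  · exact edge_aux hE ⟨v₀, hv₀⟩ hgood.nofix (htrans g₁ x h)
  · refine (edge_aux (E := E) (x := y) (y := x) ?_ ⟨v₀, hv₀⟩ hgood.nofix (htrans g₁ y h)).symm
    intro a b
    rw [hE]
    constructor
    · rintro ⟨g, h | h⟩
      · exact ⟨g, Or.inr h⟩
      · exact ⟨g, Or.inl h⟩
    · rintro ⟨g, h | h⟩
      · exact ⟨g, Or.inr h⟩
      · exact ⟨g, Or.inl h⟩

theorem closed_of_conn {V : Type} {Y : SimpleGraph V} (hconn : Y.Connected) {S : Set V}
    (hS : ∀ a ∈ S, ∀ b, Y.Adj a b → b ∈ S) {u : V} (hu : u ∈ S) (v : V) : v ∈ S := by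
  obtain ⟨w⟩ := hconn.preconnected u v
  induction w with
  | nil => exact hu
  | cons h _ ih => exact ih (hS _ hu _ h)

theorem step1 {G : Type} [Group G] [Finite G] {k N : ℕ} (hN : 2 ^ k ≤ N) (hB : Big N G) (n : ℕ) :
    ∀ (V : Type) [Finite V] [MulAction G V] (Y : SimpleGraph V), Nat.card V ≤ n → Good G k V Y →
    ∃ M₁ : Subgroup G, M₁ ≠ ⊤ ∧ ∀ v : V, stabilizer G v ≤ M₁ := by
  classical
  induction n with
  | zero =>
    intro V _ _ Y hcard hgood
    exfalso
    have := hgood.conn.nonempty
    have := Nat.card_pos (α := V)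
    omega
  | succ n ih =>
    intro V _ _ Y hcard hgood
    have hne := hgood.conn.nonempty
    obtain ⟨z⟩ := hne
    by_cases hq : ∃ (x y : V) (hxy : Y.Adj x y), ∀ v₀ : V, ∃ g : G,
        ¬ (edgeOrbit G hgood.adj hxy).Reachable v₀ (g • v₀)
    · obtain ⟨x, y, hxy, hfix⟩ := hq
      set E := edgeOrbit G hgood.adj hxy with hE
      have hEY : ∀ a b, E.Adj a b → Y.Adj a b := by
        rintro a b ⟨g, ⟨rfl, rfl⟩ | ⟨rfl, rfl⟩⟩
        · exact hgood.adj _ _ _ hxy
        · exact hgood.adj _ _ _ hxy.symm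
      have hEadj : ∀ (g : G) (a b : V), E.Adj a b → E.Adj (g • a) (g • b) := by
        rintro g a b ⟨h, ⟨rfl, rfl⟩ | ⟨rfl, rfl⟩⟩
        · exact ⟨g * h, Or.inl ⟨by rw [mul_smul], by rw [mul_smul]⟩⟩
        · exact ⟨g * h, Or.inr ⟨by rw [mul_smul], by rw [mul_smul]⟩⟩
      have hErch : ∀ (g : G) (a b : V), E.Reachable a b → E.Reachable (g • a) (g • b) := by
        rintro g a b ⟨w⟩
        induction w with
        | nil => exact Reachable.refl _
        | cons h _ ih => exact (hEadj g _ _ h).reachable.trans ih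
      have hExy : E.Adj x y := ⟨1, Or.inl ⟨(one_smul _ _).symm, (one_smul _ _).symm⟩⟩
      let s : Setoid V := ⟨fun a b => E.Reachable a b, ⟨fun a => Reachable.refl a,
        fun h => h.symm, fun h h' => h.trans h'⟩⟩
      have hsr : ∀ a b, s a b ↔ E.Reachable a b := fun _ _ => Iff.rfl
      let act : MulAction G (Quotient s) :=
        { smul := fun g => Quotient.map (fun v => g • v) (fun a b h => hErch g a b h)
          one_smul := by
            intro c
            obtain ⟨a, rfl⟩ := Quotient.exists_rep c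
            exact congrArg (Quotient.mk s) (one_smul G a)
          mul_smul := by
            intro g h c
            obtain ⟨a, rfl⟩ := Quotient.exists_rep c
            exact congrArg (Quotient.mk s) (mul_smul g h a) }
      have hsm : ∀ (g : G) (v : V), g • (Quotient.mk s v) = Quotient.mk s (g • v) :=
        fun _ _ => rfl
      obtain ⟨M₁, hM₁, hstab⟩ := ih (Quotient s) (quotGraph Y s) (by
        have h1 : Nat.card (Quotient s) < Nat.card V := by
          have := Fintype.ofFinite V
          have := Fintype.ofFinite (Quotient s)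
          rw [Nat.card_eq_fintype_card, Nat.card_eq_fintype_card]
          refine Fintype.card_lt_of_surjective_not_injective (Quotient.mk s)
            Quotient.exists_rep ?_
          intro hinj
          exact hxy.ne (hinj (Quotient.sound (s := s) (hExy.reachable)))
        omega) (by
        refine ⟨?_, ?_, ?_, ?_⟩
        · rintro g c c' ⟨hne, a, b, rfl, rfl, hab⟩
          refine ⟨?_, g • a, g • b, rfl, rfl, hgood.adj g _ _ hab⟩
          intro h
          apply hne
          have h1 := congrArg (fun c => g⁻¹ • c) h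
          simp only [inv_smul_smul] at h1
          exact h1
        · have hnonempty : Nonempty (Quotient s) := ⟨Quotient.mk s z⟩
          refine ⟨?_⟩
          intro c c'
          obtain ⟨a, rfl⟩ := Quotient.exists_rep c
          obtain ⟨b, rfl⟩ := Quotient.exists_rep c'
          obtain ⟨w⟩ := hgood.conn.preconnected a b
          induction w with
          | nil => exact Reachable.refl _
          | @cons u v _ h _ ih =>
            refine Reachable.trans ?_ ih
            by_cases huv : Quotient.mk s u = Quotient.mk s v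
            · rw [huv]
            · exact Adj.reachable ⟨huv, u, v, rfl, rfl, h⟩
        · intro c
          obtain ⟨a, rfl⟩ := Quotient.exists_rep c
          obtain ⟨g, hg⟩ := hfix a
          refine ⟨g, fun h => hg ?_⟩
          exact ((hsr _ _).1 (Quotient.exact h)).symm
        · intro h
          apply hgood.nominor
          refine HasKMinor.of_quot ?_ h
          rintro a b ⟨w⟩
          induction w with
          | nil => exact Relation.ReflTransGen.refl
          | cons h _ ih => exact Relation.ReflTransGen.head ⟨hEY _ _ h, h.reachable⟩ ih)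
      refine ⟨M₁, hM₁, ?_⟩
      intro v g hg
      apply hstab (Quotient.mk s v)
      rw [mem_stabilizer_iff] at hg ⊢
      rw [hsm, hg]
    · push Not at hq
      refine ⟨stabilizer G z, ?_, ?_⟩
      · intro h
        obtain ⟨g, hg⟩ := hgood.nofix z
        have : g ∈ stabilizer G z := by rw [h]; trivial
        exact hg this
      · intro v
        have h1 : v ∈ {u : V | stabilizer G u ≤ stabilizer G z} := by
          refine closed_of_conn hgood.conn ?_ (u := z) (le_refl (stabilizer G z)) v
          intro a ha b hab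
          have h2 := edge_case hN hB hgood hab (hq a b hab)
          rw [Set.mem_ofPred_eq] at ha ⊢
          rw [← h2]
          exact ha
        exact h1

end Pool.Agent.Helper999.CW
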