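import Pool.Agent.Helper999.CWDecomp

set_option autoImplicit false

namespace Pool.Agent.Helper999.CW

open SimpleGraph MulAction Pool.Agent.Helper999.HM Subgroup

section
variable {V α : Type} {X : SimpleGraph V} {χ : V → α} {M : Subgroup (CAut X χ)}

theorem swap_comp {N : ℕ} [Finite V] (hB : Big N (CAut X χ)) (hN : 3 ≤ N) {v : V}
    (hv : v ∉ FixM M) (m : CAut X χ) (hm : m ∈ M) : rho X (FixM M) v (m • v) := by
  classical
  by_contra hcon
  set F := FixM M with hF
  have hFfix : ∀ m ∈ M, ∀ v ∈ F, m • v = v := fun m hm v hv => hv m hm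
  have hmap : ∀ (m : CAut X χ) (_ : m ∈ M) {a b : V}, rho X F a b → rho X F (m • a) (m • b) := by
    intro m hm a b h
    exact rho_map (G := M) (fun g a b hab => (CAut_adj (g : CAut X χ) a b).2 hab)
      (fun g v hv => by
        have : (g • v : V) = v := hv g g.2
        rw [this]; exact hv) ⟨m, hm⟩ h
  have hFnot : ∀ m ∈ M, ∀ v, v ∉ F → m • v ∉ F := by
    intro m hm v hv h
    apply hv
    have h1 := hFfix m⁻¹ (inv_mem hm) _ h
    rw [inv_smul_smul] at h1
    rwa [h1]
  let f : V → V := fun w => if rho X F v w then m • w else if rho X F (m • v) w then m⁻¹ • w else w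
  have h1 : ∀ w, rho X F v w → f w = m • w := fun w hw => if_pos hw
  have hdisj : ∀ w, rho X F v w → ¬ rho X F (m • v) w :=
    fun w hw hw' => hcon (rho_trans hw (rho_symm hw'))
  have h2 : ∀ w, rho X F (m • v) w → f w = m⁻¹ • w := by
    intro w hw
    have : ¬ rho X F v w := fun h => hdisj w h hw
    simp only [f]
    rw [if_neg this, if_pos hw]
  have h3 : ∀ w, ¬ rho X F v w → ¬ rho X F (m • v) w → f w = w := by
    intro w hw hw'
    simp only [f]
    rw [if_neg hw, if_neg hw']
  have hback : ∀ w, rho X F (m • v) w → rho X F v (m⁻¹ • w) := by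
    intro w hw
    have := hmap m⁻¹ (inv_mem hm) hw
    rwa [inv_smul_smul] at this
  have hinv : Function.Involutive f := by
    intro w
    by_cases hw : rho X F v w
    · rw [h1 w hw, h2 _ (hmap m hm hw), inv_smul_smul]
    · by_cases hw' : rho X F (m • v) w
      · rw [h2 w hw', h1 _ (hback w hw'), smul_inv_smul]
      · rw [h3 w hw hw', h3 w hw hw']
  have hmv : m • v ∉ F := hFnot m hm v hv
  have hadj1 : ∀ a b, rho X F v a → X.Adj a b → X.Adj (f a) (f b) := by
    intro a b ha hab
    by_cases hb : b ∈ F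
    · have hb1 : ¬ rho X F v b := fun h => rho_notmem hv h hb
      have hb2 : ¬ rho X F (m • v) b := fun h => rho_notmem hmv h hb
      rw [h1 a ha, h3 b hb1 hb2]
      have := (CAut_adj m _ _).2 hab
      rwa [hFfix m hm b hb] at this
    · have hb1 : rho X F v b := Relation.ReflTransGen.tail ha ⟨hab, rho_notmem hv ha, hb⟩
      rw [h1 a ha, h1 b hb1, CAut_adj]
      exact hab
  have hadj2 : ∀ a b, rho X F (m • v) a → X.Adj a b → X.Adj (f a) (f b) := by
    intro a b ha hab
    by_cases hb : b ∈ F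
    · have hb1 : ¬ rho X F v b := fun h => rho_notmem hv h hb
      have hb2 : ¬ rho X F (m • v) b := fun h => rho_notmem hmv h hb
      rw [h2 a ha, h3 b hb1 hb2]
      have := (CAut_adj m⁻¹ _ _).2 hab
      rwa [hFfix m⁻¹ (inv_mem hm) b hb] at this
    · have hb1 : rho X F (m • v) b := Relation.ReflTransGen.tail ha ⟨hab, rho_notmem hmv ha, hb⟩
      rw [h2 a ha, h2 b hb1, CAut_adj]
      exact hab
  have hadj : ∀ a b, X.Adj a b → X.Adj (f a) (f b) := by
    intro a b hab
    by_cases ha1 : rho X F v a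
    · exact hadj1 a b ha1 hab
    by_cases ha2 : rho X F (m • v) a
    · exact hadj2 a b ha2 hab
    by_cases hb1 : rho X F v b
    · exact (hadj1 b a hb1 hab.symm).symm
    by_cases hb2 : rho X F (m • v) b
    · exact (hadj2 b a hb2 hab.symm).symm
    rw [h3 a ha1 ha2, h3 b hb1 hb2]
    exact hab
  have hcol : ∀ a, χ (f a) = χ a := by
    intro a
    by_cases ha1 : rho X F v a
    · rw [h1 a ha1, CAut_col m]
    by_cases ha2 : rho X F (m • v) a
    · rw [h2 a ha2, CAut_col m⁻¹]
    rw [h3 a ha1 ha2]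
  let ψ : CAut X χ := ⟨hinv.toPerm f, by
    refine ⟨?_, hcol⟩
    intro a b
    constructor
    · intro h
      have := hadj _ _ h
      simp only [Function.Involutive.coe_toPerm] at this
      rw [hinv a, hinv b] at this
      exact this
    · intro h
      exact hadj a b h⟩
  have hψ2 : ψ ^ 2 = 1 := by
    apply Subtype.ext
    ext w
    rw [pow_two]
    exact hinv w
  have hψ1 : ψ ≠ 1 := by
    intro h
    have h4 : ψ • v = v := by rw [h, one_smul]
    have h5 : ψ • v = m • v := h1 v (rho_refl X F v)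
    apply hcon
    rw [← h5, h4]
    exact rho_refl X F v
  have h6 : orderOf ψ = 2 := orderOf_eq_prime hψ2 hψ1
  have h7 : 2 ∣ Nat.card (CAut X χ) := by
    rw [← h6]
    exact orderOf_dvd_natCard ψ
  rcases hB 2 h7 with h | h
  · omega
  · omega

/-- a subgroup for which the decomposition works -/
theorem exists_dec {k N : ℕ} [Finite V] (hN : 2 ^ k ≤ N) (hN2 : 2 * k ≤ N) (hN3 : 3 ≤ N)
    (hB : Big N (CAut X χ)) (hno : ¬ HasKMinor X k) :
    ∃ M : Subgroup (CAut X χ), Dec X χ M ∧ (∀ a b : CAut X χ, a⁻¹ * b⁻¹ * a * b ∈ M) ∧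
      ∀ v, v ∉ FixM M → ∃ w, ¬ rho X (FixM M) v w := by
  classical
  by_cases hcase : (∃ v : V, ∀ g : CAut X χ, g • v = v) ∨ ¬ X.Connected
  · refine ⟨⊤, ⟨inferInstance, fun _ _ => trivial, fun _ _ _ _ => trivial,
      fun v hv m hm => swap_comp hB hN3 hv m hm⟩, fun _ _ => trivial, ?_⟩
    intro v hv
    rcases hcase with ⟨v₀, hv₀⟩ | hdis
    · refine ⟨v₀, fun h => rho_notmem hv h ?_⟩
      intro m _
      exact hv₀ m
    · by_contra hcon
      push Not at hcon
      apply hdis
      rw [connected_iff_exists_forall_reachable]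
      refine ⟨v, fun w => ?_⟩
      have h := hcon w
      rw [reachable_iff_reflTransGen]
      exact Relation.ReflTransGen.mono (fun a b (h' : X.Adj a b ∧ a ∉ FixM ⊤ ∧ b ∉ FixM ⊤) =>
        h'.1) _ _ h
  · push Not at hcase
    obtain ⟨hnofix, hconn⟩ := hcase
    have hgood : Good (CAut X χ) k V X :=
      ⟨fun g a b hab => (CAut_adj g a b).2 hab, hconn, hnofix, hno⟩
    obtain ⟨x₀, hx₀⟩ := KT hN hN2 _ (CAut X χ) V X le_rfl hB hgood
    have hFF : FixM (stabilizer (CAut X χ) x₀) = FF (CAut X χ) x₀ := rfl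
    have hx₀F : x₀ ∈ FixM (stabilizer (CAut X χ) x₀) := fun m hm => hm
    refine ⟨stabilizer (CAut X χ) x₀, ⟨normal_of_big hx₀.big, fun g hg => hg x₀ hx₀F, ?_,
      fun v hv m hm => swap_comp hB hN3 hv m hm⟩, hx₀.comm, ?_⟩
    · intro v _ g h
      exact hx₀.comp v g h
    · intro v hv
      exact ⟨x₀, fun h => rho_notmem hv h hx₀F⟩

end

end Pool.Agent.Helper999.CW
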