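import Pool.Agent.Helper999.CWStep

set_option autoImplicit false

namespace Pool.Agent.Helper999.CW

open SimpleGraph MulAction Pool.Agent.Helper999.HM

/-- connectivity by edges both of whose ends lie outside `F` -/
def rho {V : Type} (Y : SimpleGraph V) (F : Set V) (v w : V) : Prop :=
  Relation.ReflTransGen (fun a b => Y.Adj a b ∧ a ∉ F ∧ b ∉ F) v w

theorem rho_refl {V : Type} (Y : SimpleGraph V) (F : Set V) (v : V) : rho Y F v v :=
  Relation.ReflTransGen.refl

theorem rho_symm {V : Type} {Y : SimpleGraph V} {F : Set V} {v w : V} (h : rho Y F v w) :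
    rho Y F w v := by
  unfold rho at *
  induction h with
  | refl => exact Relation.ReflTransGen.refl
  | tail _ hs ih => exact Relation.ReflTransGen.head ⟨hs.1.symm, hs.2.2, hs.2.1⟩ ih

theorem rho_trans {V : Type} {Y : SimpleGraph V} {F : Set V} {u v w : V} (h : rho Y F u v)
    (h' : rho Y F v w) : rho Y F u w := Relation.ReflTransGen.trans h h'

theorem rho_step {V : Type} {Y : SimpleGraph V} {F : Set V} {a b : V} (h : Y.Adj a b)
    (ha : a ∉ F) (hb : b ∉ F) : rho Y F a b := Relation.ReflTransGen.single ⟨h, ha, hb⟩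

theorem rho_fix {V : Type} {Y : SimpleGraph V} {F : Set V} {v w : V} (hv : v ∈ F)
    (h : rho Y F v w) : w = v := by
  unfold rho at h
  induction h with
  | refl => rfl
  | tail _ hs ih =>
    subst ih
    exact absurd hv hs.2.1

theorem rho_notmem {V : Type} {Y : SimpleGraph V} {F : Set V} {v w : V} (hv : v ∉ F)
    (h : rho Y F v w) : w ∉ F := by
  unfold rho at h
  induction h with
  | refl => exact hv
  | tail _ hs _ => exact hs.2.2

theorem rho_map {G V : Type} [Group G] [MulAction G V] {Y : SimpleGraph V} {F : Set V}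
    (hadj : ∀ (g : G) (a b : V), Y.Adj a b → Y.Adj (g • a) (g • b))
    (hF : ∀ (g : G) (v : V), v ∈ F → g • v ∈ F) (g : G) {v w : V} (h : rho Y F v w) :
    rho Y F (g • v) (g • w) := by
  have hF' : ∀ v : V, v ∉ F → g • v ∉ F := by
    intro v hv h
    apply hv
    have := hF g⁻¹ _ h
    rwa [inv_smul_smul] at this
  unfold rho at *
  induction h with
  | refl => exact Relation.ReflTransGen.refl
  | tail _ hs ih =>
    exact Relation.ReflTransGen.tail ih ⟨hadj g _ _ hs.1, hF' _ hs.2.1, hF' _ hs.2.2⟩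

theorem rho_conn {V : Type} (Y : SimpleGraph V) (F : Set V) (v : V) :
    (Y.induce {w | rho Y F v w}).Connected := by
  refine conn_of_base (b := v) (rho_refl Y F v) ?_
  intro a ha
  have key : ∀ a, rho Y F v a → Relation.ReflTransGen (StepIn Y {w | rho Y F v w}) v a := by
    intro a ha
    unfold rho at ha
    induction ha with
    | refl => exact Relation.ReflTransGen.refl
    | tail h hs ih =>
      exact Relation.ReflTransGen.tail ih ⟨hs.1, Relation.ReflTransGen.tail h hs⟩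
  exact key a ha

/-- a connected transversal -/
structure Trans (G : Type) {V : Type} [Group G] [MulAction G V] (Y : SimpleGraph V) (F : Set V)
    (M : Subgroup G) (T : Set V) : Prop where
  conn : (Y.induce T).Connected
  sat : ∀ u v, u ∈ T → rho Y F u v → v ∈ T
  free : ∀ (g : G) (u : V), u ∈ T → g • u ∈ T → g ∈ M
  cover : ∀ v, ∃ g : G, ∃ t ∈ T, v = g • t

theorem exists_trans {G V : Type} [Group G] [MulAction G V] [Finite V] {Y : SimpleGraph V}
    {F : Set V} {M : Subgroup G}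
    (hadj : ∀ (g : G) (a b : V), Y.Adj a b → Y.Adj (g • a) (g • b)) (hconn : Y.Connected)
    (hF : ∀ (g : G) (v : V), v ∈ F → g • v ∈ F)
    (hM : ∀ (v : V) (g : G), rho Y F v (g • v) → g ∈ M) : ∃ T : Set V, Trans G Y F M T := by
  classical
  let P : Set (Set V) := {T | (Y.induce T).Connected ∧ (∀ u v, u ∈ T → rho Y F u v → v ∈ T) ∧
    ∀ (g : G) (u : V), u ∈ T → g • u ∈ T → rho Y F u (g • u)}
  have hPne : P.Nonempty := by
    obtain ⟨z⟩ := hconn.nonempty
    refine ⟨{w | rho Y F z w}, rho_conn Y F z, ?_, ?_⟩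
    · intro u v hu huv
      exact rho_trans hu huv
    · intro g u hu hgu
      exact rho_trans (rho_symm hu) hgu
  obtain ⟨T, hT, hmax⟩ := Set.exists_max_image P Set.ncard (Set.toFinite P) hPne
  obtain ⟨h1, h2, h3⟩ := hT
  refine ⟨T, h1, h2, fun g u hu hgu => hM u g (h3 g u hu hgu), ?_⟩
  by_contra hcon
  push Not at hcon
  obtain ⟨v, hv⟩ := hcon
  -- boundary edge
  have hb : ∃ u ∈ T, ∃ w, Y.Adj u w ∧ ∀ g : G, ∀ t ∈ T, w ≠ g • t := by
    by_contra hcon
    push Not at hcon
    obtain ⟨⟨t₀, ht₀⟩⟩ := h1.nonempty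
    have h4 : v ∈ {v : V | ∃ g : G, ∃ t ∈ T, v = g • t} := by
      have h40 : t₀ ∈ {v : V | ∃ g : G, ∃ t ∈ T, v = g • t} :=
        ⟨1, t₀, ht₀, (one_smul _ _).symm⟩
      refine closed_of_conn hconn ?_ h40 v
      rintro _ ⟨g, t, ht, rfl⟩ b hab
      have h5 := hadj g⁻¹ _ _ hab
      rw [inv_smul_smul] at h5
      obtain ⟨g', t', ht', h6⟩ := hcon t ht _ h5
      exact ⟨g * g', t', ht', by rw [mul_smul, ← h6, smul_inv_smul]⟩
    obtain ⟨g, t, ht, h⟩ := h4
    exact hv g t ht h
  obtain ⟨u, hu, w, huw, hw⟩ := hb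
  have hsatg : ∀ (g : G) (t : V), t ∈ T → ¬ rho Y F w (g • t) := by
    intro g t ht h
    have h4 := rho_map hadj hF g⁻¹ (rho_symm h)
    rw [inv_smul_smul] at h4
    have h5 := h2 _ _ ht h4
    exact hw g _ h5 (by rw [smul_inv_smul])
  have hT' : T ∪ {a | rho Y F w a} ∈ P := by
    refine ⟨conn_union h1 (rho_conn Y F w) hu (rho_refl Y F w) huw, ?_, ?_⟩
    · rintro a b (ha | ha) hab
      · exact Or.inl (h2 _ _ ha hab)
      · exact Or.inr (rho_trans ha hab)
    · rintro g a (ha | ha) (hga | hga)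
      · exact h3 g a ha hga
      · exact absurd hga (hsatg g a ha)
      · exfalso
        refine hsatg g⁻¹ (g • a) hga ?_
        rw [inv_smul_smul]
        exact ha
      · exact rho_trans (rho_symm ha) hga
  have h4 := hmax _ hT'
  have h5 : T.ncard < (T ∪ {a | rho Y F w a}).ncard := by
    refine Set.ncard_lt_ncard ?_ (Set.toFinite _)
    refine ⟨Set.subset_union_left, ?_⟩
    intro h
    have : w ∈ T := h (Or.inr (rho_refl Y F w))
    exact hw 1 w this (one_smul _ _).symm
  omega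

section
variable {G V : Type} [Group G] [MulAction G V] {Y : SimpleGraph V} {F : Set V}
  {M : Subgroup G} {T : Set V}

/-- `T` and `g T` are joined by an edge -/
def Wadj (Y : SimpleGraph V) (T : Set V) (g : G) : Prop := ∃ t ∈ T, ∃ t' ∈ T, Y.Adj t (g • t')

theorem Trans.gen (hT : Trans G Y F M T)
    (hadj : ∀ (g : G) (a b : V), Y.Adj a b → Y.Adj (g • a) (g • b)) (hconn : Y.Connected)
    (K : Subgroup G) (hMK : M ≤ K) (hK : ∀ g, g ∉ M → Wadj Y T g → g ∈ K) (g : G) : g ∈ K := by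
  obtain ⟨⟨t₀, ht₀⟩⟩ := hT.conn.nonempty
  have h4 : g • t₀ ∈ {v : V | ∃ g ∈ K, ∃ t ∈ T, v = g • t} := by
    have h40 : t₀ ∈ {v : V | ∃ g ∈ K, ∃ t ∈ T, v = g • t} :=
      ⟨1, K.one_mem, t₀, ht₀, (one_smul _ _).symm⟩
    refine closed_of_conn hconn ?_ h40 _
    rintro _ ⟨g, hg, t, ht, rfl⟩ b hab
    have h5 := hadj g⁻¹ _ _ hab
    rw [inv_smul_smul] at h5
    obtain ⟨g', t', ht', h6⟩ := hT.cover (g⁻¹ • b)
    have hg' : g' ∈ K := by
      by_cases h : g' ∈ M
      · exact hMK h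
      · refine hK g' h ⟨t, ht, t', ht', ?_⟩
        rw [← h6]; exact h5
    exact ⟨g * g', K.mul_mem hg hg', t', ht', by rw [mul_smul, ← h6, smul_inv_smul]⟩
  obtain ⟨k, hk, t, ht, h⟩ := h4
  have h5 : (k⁻¹ * g) ∈ M := by
    refine hT.free _ t₀ ht₀ ?_
    rw [mul_smul, h, inv_smul_smul]
    exact ht
  have h6 := K.mul_mem hk (hMK h5)
  rwa [mul_inv_cancel_left] at h6

theorem Trans.inv (hT : Trans G Y F M T)
    (hadj : ∀ (g : G) (a b : V), Y.Adj a b → Y.Adj (g • a) (g • b)) (hn : M.Normal)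
    (hF : ∀ (g : G) (v : V), v ∈ F → g • v ∈ F)
    (hfix : ∀ m ∈ M, ∀ v ∈ F, m • v = v) {g m : G} (hg : g ∉ M) (hm : m ∈ M)
    (h : Wadj Y T g) : Wadj Y T (g * m) := by
  obtain ⟨t, ht, t', ht', hadj'⟩ := h
  by_cases h1 : t' ∈ F
  · refine ⟨t, ht, t', ht', ?_⟩
    rw [mul_smul, hfix m hm t' h1]
    exact hadj'
  · by_cases h2 : t ∈ F
    · refine ⟨t, ht, t', ht', ?_⟩
      have h3 : g * m * g⁻¹ ∈ M := hn.conj_mem m hm g
      have h4 := hadj (g * m * g⁻¹) _ _ hadj'
      rw [hfix _ h3 t h2, ← mul_smul, inv_mul_cancel_right] at h4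
      exact h4
    · exfalso
      apply hg
      have h3 : g • t' ∉ F := by
        intro h
        apply h1
        have := hF g⁻¹ _ h
        rwa [inv_smul_smul] at this
      have h4 := hT.sat _ _ ht (rho_step hadj' h2 h3)
      exact hT.free g t' ht' h4

end

end Pool.Agent.Helper999.CW
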