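import Mathlib

set_option autoImplicit false

/-!
Two free actions of a group on sets of the same large cardinality are isomorphic.
-/

namespace Pool.Agent.Helper999

open Cardinal

universe u

variable {H : Type u} [Group H]

/-- a free action splits as a product of the group with the set of orbits -/
theorem exists_free_coord (S : Type u) [MulAction H S]
    (hS : ∀ (h : H) (s : S), h • s = s → h = 1) :
    ∃ e : H × MulAction.orbitRel.Quotient H S ≃ S, ∀ (h h' : H) q, e (h * h', q) = h • e (h', q) := by
  refine ⟨Equiv.ofBijective (fun p => p.1 • p.2.out) ⟨?_, ?_⟩, ?_⟩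
  · rintro ⟨h, q⟩ ⟨h', q'⟩ hEq
    simp only at hEq
    have hq : q = q' := by
      rw [← Quotient.out_eq q, ← Quotient.out_eq q']
      have hmem : q.out ∈ MulAction.orbit H q'.out :=
        ⟨h⁻¹ * h', by simp only; rw [mul_smul, ← hEq, inv_smul_smul]⟩
      exact Quotient.sound hmem
    subst hq
    have : (h⁻¹ * h') • q.out = q.out := by
      rw [mul_smul, ← hEq, inv_smul_smul]
    have := hS _ _ this
    rw [inv_mul_eq_one] at this
    rw [this]
  · intro s
    have : (Quotient.mk (MulAction.orbitRel H S) s).out ∈ MulAction.orbit H s := by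
      have := Quotient.mk_out (s := MulAction.orbitRel H S) s
      exact this
    obtain ⟨h, hh⟩ := this
    refine ⟨(h⁻¹, Quotient.mk (MulAction.orbitRel H S) s), ?_⟩
    simp only at hh ⊢
    rw [← hh, inv_smul_smul]
  · intro h h' q
    exact mul_smul h h' q.out

theorem mk_orbits_eq (S : Type u) [MulAction H S]
    (hS : ∀ (h : H) (s : S), h • s = s → h = 1) (hinf : ℵ₀ ≤ #S) (hH : #H < #S) :
    #(MulAction.orbitRel.Quotient H S) = #S := by
  obtain ⟨e, -⟩ := exists_free_coord S hS
  have h1 : #H * #(MulAction.orbitRel.Quotient H S) = #S := by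
    rw [Cardinal.mul_def]
    exact Cardinal.mk_congr e
  apply le_antisymm
  · exact Cardinal.mk_quotient_le
  · by_contra hlt
    push Not at hlt
    exact absurd h1 (Cardinal.mul_lt_of_lt hinf hH hlt).ne

theorem exists_equivariant (S T : Type u) [MulAction H S] [MulAction H T]
    (hS : ∀ (h : H) (s : S), h • s = s → h = 1) (hT : ∀ (h : H) (s : T), h • s = s → h = 1)
    (hcard : #S = #T) (hinf : ℵ₀ ≤ #S) (hH : #H < #S) :
    ∃ e : S ≃ T, ∀ (h : H) (s : S), e (h • s) = h • e s := by
  obtain ⟨eS, heS⟩ := exists_free_coord S hS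
  obtain ⟨eT, heT⟩ := exists_free_coord T hT
  have h1 : #(MulAction.orbitRel.Quotient H S) = #(MulAction.orbitRel.Quotient H T) := by
    rw [mk_orbits_eq S hS hinf hH, mk_orbits_eq T hT (hcard ▸ hinf) (hcard ▸ hH), hcard]
  obtain ⟨f⟩ := Cardinal.eq.1 h1
  refine ⟨eS.symm.trans (((Equiv.refl H).prodCongr f).trans eT), ?_⟩
  intro h s
  obtain ⟨⟨h', q⟩, rfl⟩ := eS.surjective s
  rw [← heS]
  simp [heT]

end Pool.Agent.Helper999

namespace Pool.Agent.Helper999

open Cardinal

universe u v

/-- the same statement for actions given by homomorphisms to permutation groups -/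
theorem exists_equivariant_perm {H : Type u} [Group H] {S T : Type u}
    (α : H →* Equiv.Perm S) (β : H →* Equiv.Perm T)
    (hS : ∀ (h : H) (s : S), α h s = s → h = 1) (hT : ∀ (h : H) (s : T), β h s = s → h = 1)
    (hcard : #S = #T) (hinf : ℵ₀ ≤ #S) (hH : #H < #S) :
    ∃ e : S ≃ T, ∀ (h : H) (s : S), e (α h s) = β h (e s) := by
  let _ : MulAction H S := MulAction.compHom S α
  let _ : MulAction H T := MulAction.compHom T β
  exact exists_equivariant S T hS hT hcard hinf hH

/-- left multiplication on the first factor -/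
def leftPerm (N : Type u) [Group N] (Y : Type v) : N →* Equiv.Perm (N × Y) where
  toFun n := (Equiv.mulLeft n).prodCongr (Equiv.refl Y)
  map_one' := by ext p <;> simp
  map_mul' a b := by ext p <;> simp [mul_assoc]

@[simp] theorem leftPerm_apply (N : Type u) [Group N] (Y : Type v) (n : N) (p : N × Y) :
    leftPerm N Y n p = (n * p.1, p.2) := rfl

theorem leftPerm_free (N : Type u) [Group N] (Y : Type v) (n : N) (p : N × Y)
    (h : leftPerm N Y n p = p) : n = 1 := by
  have := congrArg Prod.fst h
  simpa using this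

end Pool.Agent.Helper999
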