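import Mathlib

set_option autoImplicit false

/-!
Words in a letter `t` over a subgroup, and elements that are free over a subgroup.
-/

namespace Pool.Agent.Helper999

universe u

variable {G : Type u} [Group G]

/-- The product `t^{u_1} g_1 t^{u_2} g_2 ...` of a word. -/
def wprod (t : G) (w : List (ℤˣ × G)) : G :=
  (w.map (fun p => t ^ (p.1 : ℤ) * p.2)).prod

@[simp] theorem wprod_nil (t : G) : wprod t [] = 1 := rfl

@[simp] theorem wprod_cons (t : G) (p : ℤˣ × G) (w : List (ℤˣ × G)) :
    wprod t (p :: w) = t ^ (p.1 : ℤ) * p.2 * wprod t w := by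
  simp [wprod]

/-- `t` is free over the subgroup `E`: a nonempty reduced word in `t` with coefficients in `E`
never lies in `E`. -/
def FreeOver (E : Subgroup G) (t : G) : Prop :=
  ∀ w : List (ℤˣ × G), w ≠ [] → (∀ p ∈ w, p.2 ∈ E) →
    w.IsChain (fun a b => a.2 = 1 → a.1 = b.1) → wprod t w ∉ E

theorem FreeOver.anti {E E' : Subgroup G} (h : E ≤ E') {t : G} (ht : FreeOver E' t) :
    FreeOver E t := fun w hw hE hc hmem =>
  ht w hw (fun p hp => h (hE p hp)) hc (h hmem)

/-- head factor -/
def hfac (e : G) (w : List (ℤˣ × G)) : G :=
  match w with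
  | [] => 1
  | (p :: _) => if p.1 = 1 then e else 1

/-- tail factor -/
def tfac (e : G) (u : ℤˣ) : G := if u = 1 then 1 else e⁻¹

/-- conversion of words in `e * t` to words in `t` -/
def conv (e : G) : List (ℤˣ × G) → List (ℤˣ × G)
  | [] => []
  | (p :: l) => (p.1, tfac e p.1 * p.2 * hfac e l) :: conv e l

theorem hfac_mul_wprod (e t : G) (w : List (ℤˣ × G)) :
    wprod (e * t) w = hfac e w * wprod t (conv e w) := by
  induction w with
  | nil => simp [hfac, conv]
  | cons p l ih =>
    rw [wprod_cons, conv, wprod_cons, ih]
    rcases Int.units_eq_one_or p.1 with h | h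
    · simp [h, hfac, tfac, mul_assoc]
    · simp [h, hfac, tfac, mul_assoc]

theorem FreeOver.mul_left {E : Subgroup G} {t : G} (ht : FreeOver E t) {e : G} (he : e ∈ E) :
    FreeOver E (e * t) := by
  intro w hw hE hc hmem
  have hh : ∀ l : List (ℤˣ × G), hfac e l ∈ E := by
    intro l
    cases l with
    | nil => exact E.one_mem
    | cons p l =>
      unfold hfac
      simp only
      split_ifs
      · exact he
      · exact E.one_mem
  have htf : ∀ u : ℤˣ, tfac e u ∈ E := by
    intro u
    unfold tfac
    split_ifs
    · exact E.one_mem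
    · exact E.inv_mem he
  rw [hfac_mul_wprod] at hmem
  have hmem' : wprod t (conv e w) ∈ E := (E.mul_mem_cancel_left (hh w)).1 hmem
  refine ht (conv e w) ?_ ?_ ?_ hmem'
  · cases w with
    | nil => exact absurd rfl hw
    | cons p l => simp [conv]
  · clear hmem hmem' hc hw
    induction w with
    | nil => simp [conv]
    | cons p l ih =>
      intro q hq
      rw [conv, List.mem_cons] at hq
      rcases hq with rfl | hq
      · exact E.mul_mem (E.mul_mem (htf _) (hE p (by simp))) (hh _)
      · exact ih (fun p hp => hE p (by simp [hp])) q hq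
  · clear hmem hmem' hw hE
    induction w with
    | nil => simp [conv]
    | cons p l ih =>
      cases l with
      | nil => simp [conv]
      | cons q l =>
        rw [List.isChain_cons_cons] at hc
        have ih' := ih hc.2
        rw [conv] at ih' ⊢
        rw [conv, List.isChain_cons_cons]
        refine ⟨?_, ih'⟩
        intro h1
        by_contra hne
        apply hne
        simp only at h1 ⊢
        apply hc.1
        rcases Int.units_eq_one_or p.1 with h | h
        · rcases Int.units_eq_one_or q.1 with h' | h'
          · exact absurd (h.trans h'.symm) hne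
          · simpa [h, h', tfac, hfac] using h1
        · rcases Int.units_eq_one_or q.1 with h' | h'
          · have h2 : e⁻¹ * p.2 * e = 1 := by simpa [h, h', tfac, hfac] using h1
            have h3 : p.2 = e * (e⁻¹ * p.2 * e) * e⁻¹ := by group
            rw [h3, h2]; group
          · exact absurd (h.trans h'.symm) hne

theorem FreeOver.ne_one {E : Subgroup G} {t : G} (ht : FreeOver E t) : t ≠ 1 := by
  intro h
  have := ht [(1, 1)] (by simp) (by simp) (by simp)
  apply this
  simp [h]

end Pool.Agent.Helper999
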