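import Mathlib
import Pool.Agent.Helper999.FreeOver
import Pool.Agent.Helper999.Equi

set_option autoImplicit false

/-!
Solving all conjugation problems over a group at once, inside a permutation group.
-/

namespace Pool.Agent.Helper999

open Cardinal

universe u v

/-- reducedness of a word relative to two subgroups -/
def Red {G : Type u} [Group G] (A B : Subgroup G) (w : List (ℤˣ × G)) : Prop :=
  w.IsChain (fun p q => p.2 ∈ HNNExtension.toSubgroup A B p.1 → p.1 = q.1)

theorem mk_hnn_le {K : Type u} [Group K] (A B : Subgroup K) (φ : A ≃* B) :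
    #(HNNExtension K A B φ) ≤ #(K × List (ℤˣ × K)) := by
  obtain ⟨d⟩ := HNNExtension.NormalWord.TransversalPair.nonempty K A B
  rw [Cardinal.mk_congr (HNNExtension.NormalWord.equiv φ d)]
  refine Cardinal.mk_le_of_injective
    (f := fun w : HNNExtension.NormalWord d => (w.head, w.toList)) ?_
  intro w w' h
  simp only [Prod.mk.injEq] at h
  exact HNNExtension.NormalWord.ext h.1 h.2

theorem step (K : Type u) [Group K] :
    ∃ (P : Type u) (_ : Group P) (l : K →* P), Function.Injective l ∧
      ∀ (F : Type v) [Group F] (a b : F →* K), Function.Injective a → Function.Injective b →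
        ∃ c : P, (∀ f, c * l (a f) * c⁻¹ = l (b f)) ∧
          ∀ w : List (ℤˣ × K), w ≠ [] → Red a.range b.range w →
            wprod c (w.map (fun p => (p.1, l p.2))) ∉ l.range := by
  let Z := K × List (ℤˣ × K)
  let Y := Set Z
  have hZ : Infinite Z := inferInstance
  have hY : ℵ₀ ≤ #Y := by
    rw [Cardinal.aleph0_le_mk_iff]
    infer_instance
  have hZY : #Z < #Y := by
    rw [Cardinal.mk_set]
    exact Cardinal.cantor _
  have hKZ : #K ≤ #Z := by
    refine Cardinal.mk_le_of_injective (f := fun k => (k, [])) ?_
    intro a b h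
    exact congrArg Prod.fst h
  have hK0 : #K ≠ 0 := Cardinal.mk_ne_zero K
  have hKY : #(K × Y) = #Y := by
    rw [Cardinal.mk_prod, Cardinal.lift_id, Cardinal.lift_id]
    exact Cardinal.mul_eq_right hY (hKZ.trans hZY.le) hK0
  refine ⟨Equiv.Perm (K × Y), inferInstance, leftPerm K Y, ?_, ?_⟩
  · rw [injective_iff_map_eq_one]
    intro k hk
    apply leftPerm_free K Y k (1, ∅)
    rw [hk]; rfl
  · intro F _ a b ha hb
    let φ : a.range ≃* b.range := (MonoidHom.ofInjective ha).symm.trans (MonoidHom.ofInjective hb)
    have hφ : ∀ f : F, (φ ⟨a f, ⟨f, rfl⟩⟩ : K) = b f := by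
      intro f
      have h1 : (⟨a f, ⟨f, rfl⟩⟩ : a.range) = MonoidHom.ofInjective ha f := rfl
      simp only [φ, MulEquiv.trans_apply, h1, MulEquiv.symm_apply_apply]
      rfl
    let N := HNNExtension K a.range b.range φ
    have hN : #N ≤ #Z := mk_hnn_le _ _ φ
    have hN0 : #N ≠ 0 := Cardinal.mk_ne_zero N
    have hNY : #(N × Y) = #Y := by
      rw [Cardinal.mk_prod, Cardinal.lift_id, Cardinal.lift_id]
      exact Cardinal.mul_eq_right hY (hN.trans hZY.le) hN0
    obtain ⟨e, he⟩ := exists_equivariant_perm (leftPerm K Y)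
      ((leftPerm N Y).comp (HNNExtension.of : K →* N))
      (fun h s => leftPerm_free K Y h s)
      (fun h s hs => by
        have := leftPerm_free N Y _ s hs
        exact HNNExtension.of_injective (φ := φ) (this.trans (map_one _).symm))
      (hKY.trans hNY.symm) (hKY ▸ hY) (by rw [hKY]; exact hKZ.trans_lt hZY)
    let ρ : N →* Equiv.Perm (K × Y) := (e.symm.permCongrHom).toMonoidHom.comp (leftPerm N Y)
    have hρ : ∀ n s, ρ n s = e.symm (leftPerm N Y n (e s)) := fun n s => rfl
    have hρof : ∀ k, ρ (HNNExtension.of k) = leftPerm K Y k := by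
      intro k
      apply Equiv.ext
      intro s
      rw [hρ, Equiv.symm_apply_eq, he]
      rfl
    have hρinj : Function.Injective ρ := by
      rw [injective_iff_map_eq_one]
      intro n hn
      apply leftPerm_free N Y n (e (1, ∅))
      have h3 := hρ n (1, ∅)
      rw [hn] at h3
      have h4 : ((1 : Equiv.Perm (K × Y)) (1, ∅)) = ((1 : K), (∅ : Y)) := rfl
      rw [h4, eq_comm, Equiv.symm_apply_eq] at h3
      exact h3
    refine ⟨ρ HNNExtension.t, ?_, ?_⟩
    · intro f
      rw [← hρof, ← hρof, ← map_inv, ← map_mul, ← map_mul]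
      congr 1
      have := HNNExtension.equiv_eq_conj (φ := φ) ⟨a f, ⟨f, rfl⟩⟩
      rw [hφ] at this
      exact this.symm
    · intro w hw hred hmem
      obtain ⟨k, hk⟩ := hmem
      let r : HNNExtension.NormalWord.ReducedWord K a.range b.range := ⟨1, w, hred⟩
      have h1 : ρ (r.prod φ) = wprod (ρ HNNExtension.t) (w.map (fun p => (p.1, leftPerm K Y p.2))) := by
        simp only [HNNExtension.NormalWord.ReducedWord.prod, r, map_one, one_mul, wprod, map_list_prod,
          List.map_map]
        congr 1
        apply List.map_congr_left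
        intro p _
        simp [hρof]
      have h2 : r.prod φ = HNNExtension.of k := by
        apply hρinj
        rw [h1, hρof, hk]
      have := HNNExtension.ReducedWord.toList_eq_nil_of_mem_of_range φ r ⟨k, h2.symm⟩
      exact hw this

end Pool.Agent.Helper999
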