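import Mathlib
import Pool.Agent.Helper999.FreeOver

set_option autoImplicit false

/-!
Sequences of elements, each free over a subgroup containing the earlier ones, generate a free group.
-/

namespace Pool.Agent.Helper999

universe u v

variable {G : Type u} [Group G] {J : Type v} [LinearOrder J]

/-- evaluation of a list of letters -/
def lprod (x : J → G) (L : List (J × Bool)) : G :=
  (L.map fun p => cond p.2 (x p.1) (x p.1)⁻¹).prod

omit [LinearOrder J] in
@[simp] theorem lprod_nil (x : J → G) : lprod x [] = 1 := rfl

omit [LinearOrder J] in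
@[simp] theorem lprod_cons (x : J → G) (p : J × Bool) (L : List (J × Bool)) :
    lprod x (p :: L) = cond p.2 (x p.1) (x p.1)⁻¹ * lprod x L := by
  simp [lprod]

/-- sign of a letter -/
def sgn (b : Bool) : ℤˣ := if b then 1 else -1

theorem sgn_inj {a b : Bool} (h : sgn a = sgn b) : a = b := by
  cases a <;> cases b <;> simp [sgn] at h ⊢

/-- rewriting a list of letters as a head and a word in `x j`. -/
def split (x : J → G) (j : J) : List (J × Bool) → G × List (ℤˣ × G)
  | [] => (1, [])
  | (p :: L) => if p.1 = j then (1, (sgn p.2, (split x j L).1) :: (split x j L).2)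
      else (cond p.2 (x p.1) (x p.1)⁻¹ * (split x j L).1, (split x j L).2)

theorem split_prod (x : J → G) (j : J) (L : List (J × Bool)) :
    lprod x L = (split x j L).1 * wprod (x j) (split x j L).2 := by
  induction L with
  | nil => simp [split]
  | cons p L ih =>
    rw [lprod_cons, ih, split]
    split_ifs with h
    · subst h
      rw [wprod_cons]
      cases p.2 <;> simp [sgn, mul_assoc]
    · simp [mul_assoc]

theorem split_mem (x : J → G) (j : J) (E : Subgroup G) (hx : ∀ i, i < j → x i ∈ E)
    (L : List (J × Bool)) (hL : ∀ p ∈ L, p.1 ≤ j) :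
    (split x j L).1 ∈ E ∧ ∀ q ∈ (split x j L).2, q.2 ∈ E := by
  induction L with
  | nil => simp [split]
  | cons p L ih =>
    have ih' := ih (fun q hq => hL q (by simp [hq]))
    rw [split]
    split_ifs with h
    · refine ⟨E.one_mem, ?_⟩
      intro q hq
      rcases List.mem_cons.1 hq with rfl | hq
      · exact ih'.1
      · exact ih'.2 q hq
    · refine ⟨E.mul_mem ?_ ih'.1, ih'.2⟩
      have hlt : p.1 < j := lt_of_le_of_ne (hL p (by simp)) h
      have := hx _ hlt
      cases p.2
      · exact E.inv_mem this
      · exact this

theorem split_ne_nil (x : J → G) (j : J) (L : List (J × Bool)) (hL : ∃ p ∈ L, p.1 = j) :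
    (split x j L).2 ≠ [] := by
  induction L with
  | nil => simp at hL
  | cons p L ih =>
    rw [split]
    split_ifs with h
    · simp
    · apply ih
      rcases hL with ⟨q, hq, hqj⟩
      rcases List.mem_cons.1 hq with rfl | hq
      · exact absurd hqj h
      · exact ⟨q, hq, hqj⟩

theorem split_fst (x : J → G) (j : J) (L : List (J × Bool)) :
    (split x j L).1 = lprod x (L.takeWhile (fun p => decide (p.1 ≠ j))) := by
  induction L with
  | nil => simp [split]
  | cons p L ih =>
    rw [split, List.takeWhile_cons]
    split_ifs with h h' h'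
    · simp [h] at h'
    · simp
    · rw [lprod_cons, ih]
    · simp [h] at h'

theorem isReduced_of_isInfix {α : Type*} {B L : List (α × Bool)} (h : FreeGroup.IsReduced L)
    (h' : B <:+: L) : FreeGroup.IsReduced B := by
  obtain ⟨s, t, rfl⟩ := h'
  exact List.IsChain.right_of_append (List.IsChain.left_of_append h)

/-- if the second component is nonempty and the block is trivial then the first letter is `j`. -/
theorem split_chain (x : J → G) (j : J) (L : List (J × Bool)) (hL : FreeGroup.IsReduced L)
    (hIH : ∀ B : List (J × Bool), B <:+: L → B.length < L.length → B ≠ [] → lprod x B ≠ 1) :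
    (split x j L).2.IsChain (fun a b => a.2 = 1 → a.1 = b.1) ∧
    (∀ q ∈ (split x j L).2.head?, (split x j L).1 = 1 → ∃ b, L.head? = some (j, b) ∧ sgn b = q.1) := by
  induction L with
  | nil => simp [split]
  | cons p L ih =>
    have hLred : FreeGroup.IsReduced L := isReduced_of_isInfix hL (List.suffix_cons p L).isInfix
    have ih' := ih hLred (fun B hB hlen hne => hIH B (hB.trans (List.suffix_cons p L).isInfix)
      (by simp; omega) hne)
    by_cases h : p.1 = j
    · rw [split, if_pos h]
      refine ⟨?_, ?_⟩
      · rw [List.isChain_cons]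
        refine ⟨?_, ih'.1⟩
        intro q hq hg
        obtain ⟨b, hb, hbq⟩ := ih'.2 q hq hg
        simp only
        rw [← hbq]
        congr 1
        cases L with
        | nil => simp at hb
        | cons r L =>
          simp only [List.head?_cons, Option.some.injEq] at hb
          rw [FreeGroup.isReduced_cons_cons] at hL
          have := hL.1
          rw [hb] at this
          exact this h
      · intro q hq _
        simp only [List.head?_cons, Option.mem_def, Option.some.injEq] at hq
        refine ⟨p.2, ?_, ?_⟩
        · simp only [List.head?_cons, Option.some.injEq]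
          rw [← h]
        · rw [← hq]
    · have hsp : split x j (p :: L) = (cond p.2 (x p.1) (x p.1)⁻¹ * (split x j L).1, (split x j L).2) := by
        rw [split, if_neg h]
      refine ⟨by rw [hsp]; exact ih'.1, ?_⟩
      intro q hq hg
      exfalso
      rw [split_fst] at hg
      refine hIH _ (List.takeWhile_prefix _).isInfix ?_ ?_ hg
      · have hne : (split x j (p :: L)).2 ≠ [] := by
          intro h0
          rw [h0] at hq
          simp at hq
        have hex : ∃ q ∈ (p :: L), q.1 = j := by
          by_contra hno
          push Not at hno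
          apply hne
          clear ih ih' hq hg hsp h hIH hL hLred hne
          generalize p :: L = M at hno
          induction M with
          | nil => simp [split]
          | cons r M ih =>
            rw [split, if_neg (hno r (by simp))]
            exact ih (fun q hq => hno q (by simp [hq]))
        have hle := (List.takeWhile_prefix (fun p : J × Bool => decide (p.1 ≠ j)) (l := p :: L)).length_le
        rcases lt_or_eq_of_le hle with hlt | heq
        · exact hlt
        · exfalso
          have := (List.takeWhile_prefix (fun p : J × Bool => decide (p.1 ≠ j)) (l := p :: L)).eq_of_length heq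
          rw [List.takeWhile_eq_self_iff] at this
          obtain ⟨r, hr, hrj⟩ := hex
          have := this r hr
          simp [hrj] at this
      · rw [List.takeWhile_cons]
        simp [h]

theorem free_seq (x : J → G) (E : J → Subgroup G) (E₀ : Subgroup G)
    (hfree : ∀ j, FreeOver (E j) (x j)) (hE : ∀ i j, i < j → x i ∈ E j) (hE₀ : ∀ j, E₀ ≤ E j)
    (L : List (J × Bool)) (hL : FreeGroup.IsReduced L) (hne : L ≠ []) : lprod x L ∉ E₀ := by
  induction hn : L.length using Nat.strong_induction_on generalizing L with
  | _ n ih =>
    subst hn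
    obtain ⟨j, hj, hmax⟩ : ∃ j, (∃ p ∈ L, p.1 = j) ∧ ∀ p ∈ L, p.1 ≤ j := by
      obtain ⟨p, hp, hpm⟩ := L.toFinset.exists_max_image (fun p => p.1)
        (by simpa using hne)
      refine ⟨p.1, ⟨p, by simpa using hp, rfl⟩, fun q hq => hpm q (by simpa using hq)⟩
    have hIH : ∀ B : List (J × Bool), B <:+: L → B.length < L.length → B ≠ [] → lprod x B ≠ 1 := by
      intro B hB hlen hB0 h1
      exact ih B.length hlen B (isReduced_of_isInfix hL hB) hB0 rfl (h1 ▸ E₀.one_mem)
    have hc := (split_chain x j L hL hIH).1
    have hm := split_mem x j (E j) (fun i hi => hE i j hi) L hmax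
    intro hmem
    have hmem' := hE₀ j hmem
    rw [split_prod x j L] at hmem'
    exact hfree j _ (split_ne_nil x j L hj) hm.2 hc (((E j).mul_mem_cancel_left hm.1).1 hmem')

theorem free_seq_lift (x : J → G) (E : J → Subgroup G) (E₀ : Subgroup G)
    (hfree : ∀ j, FreeOver (E j) (x j)) (hE : ∀ i j, i < j → x i ∈ E j) (hE₀ : ∀ j, E₀ ≤ E j)
    (w : FreeGroup J) (hw : FreeGroup.lift x w ∈ E₀) : w = 1 := by
  by_contra hne
  have h1 : FreeGroup.lift x w = lprod x w.toWord := by
    conv_lhs => rw [← FreeGroup.mk_toWord (x := w)]
    rw [FreeGroup.lift_mk]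
    rfl
  rw [h1] at hw
  exact free_seq x E E₀ hfree hE hE₀ w.toWord FreeGroup.isReduced_toWord
    (fun h => hne (FreeGroup.toWord_eq_nil_iff.1 h)) hw

theorem free_seq_injective (x : J → G) (E : J → Subgroup G) (E₀ : Subgroup G)
    (hfree : ∀ j, FreeOver (E j) (x j)) (hE : ∀ i j, i < j → x i ∈ E j) (hE₀ : ∀ j, E₀ ≤ E j) :
    Function.Injective (FreeGroup.lift x) := by
  rw [injective_iff_map_eq_one]
  intro w hw
  exact free_seq_lift x E E₀ hfree hE hE₀ w (hw ▸ E₀.one_mem)

end Pool.Agent.Helper999
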