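import Pool.Agent.Helper999.HMBasic

set_option autoImplicit false

namespace Pool.Agent.Helper999.HM

open SimpleGraph MulAction

section
variable {V P : Type*} [CommGroup P] [MulAction P V]

theorem stab_smul (g : P) (x : V) : stabilizer P (g • x) = stabilizer P x := by
  ext h
  rw [mem_stabilizer_iff, mem_stabilizer_iff, smul_smul, mul_comm, ← smul_smul, smul_left_cancel_iff]

theorem pow_inj_mod {p : ℕ} (hp : p.Prime) (M : Subgroup P) {g : P} (hg : g ∉ M)
    (hgp : g ^ p = 1) {a b : ℕ} (ha : a < p) (hb : b < p) (hab : g ^ a * (g ^ b)⁻¹ ∈ M) : a = b := by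
  have := Fact.mk hp
  have h1 : orderOf (QuotientGroup.mk' M g) = p := by
    apply orderOf_eq_prime
    · rw [← map_pow, hgp, map_one]
    · intro h
      apply hg
      rwa [← QuotientGroup.ker_mk' M, MonoidHom.mem_ker]
  have h2 : (QuotientGroup.mk' M g) ^ a = (QuotientGroup.mk' M g) ^ b := by
    rw [← QuotientGroup.ker_mk' M, MonoidHom.mem_ker, map_mul, map_inv, map_pow, map_pow,
      mul_inv_eq_one] at hab
    exact hab
  exact pow_injOn_Iio_orderOf (by rw [h1]; exact ha) (by rw [h1]; exact hb) h2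

theorem kminor_of_no_largest [Finite P] [Finite V] {p : ℕ} (hp : p.Prime)
    (hexp : ∀ g : P, g ^ p = 1) {Y : SimpleGraph V}
    (hadj : ∀ (g : P) (a b : V), Y.Adj a b → Y.Adj (g • a) (g • b)) (hconn : Y.Connected)
    (hno : ∀ x : V, ∃ y : V, ¬ stabilizer P y ≤ stabilizer P x) : HasKMinor Y p := by
  classical
  have := hconn.nonempty
  obtain ⟨x₀, hx₀⟩ := Finite.exists_max (fun x : V => Nat.card (stabilizer P x))
  set M : Subgroup P := stabilizer P x₀ with hM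
  obtain ⟨y₀, hy₀⟩ := hno x₀
  obtain ⟨d, f, h0, hd, hfadj, hfT, -, hinj⟩ := exists_shortest (Γ := P) hadj hconn
    {x | stabilizer P x = M} {y | ¬ stabilizer P y ≤ M} ⟨x₀, rfl⟩ ⟨y₀, hy₀⟩
    (by intro g v hv; simp only [Set.mem_ofPred_eq, stab_smul]; exact hv)
  simp only [Set.mem_ofPred_eq, not_not] at h0 hd hfT
  have hd0 : 0 < d := by
    rcases Nat.eq_zero_or_pos d with h | h
    · subst h; exact absurd h0.le hd
    · exact h
  obtain ⟨g₀, hg₀, hg₀M⟩ := SetLike.not_le_iff_exists.1 hd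
  have hMnot : ¬ M ≤ stabilizer P (f d) := by
    intro hle
    have h1 : M = stabilizer P (f d) := by
      apply SetLike.coe_injective
      apply Set.eq_of_subset_of_ncard_le hle _ (Set.toFinite _)
      exact hx₀ (f d)
    exact hd h1.ge
  obtain ⟨m₀, hm₀, hm₀'⟩ := SetLike.not_le_iff_exists.1 hMnot
  have hg₀' : ∀ i : ℕ, g₀ ^ i • f d = f d := fun i => (stabilizer P (f d)).pow_mem hg₀ i
  refine hasKMinor_of_biclique
    (fun j : Fin p => {v | ∃ m ∈ M, ∃ i < d, v = g₀ ^ (j : ℕ) • m • f i})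
    (fun j : Fin p => {m₀ ^ (j : ℕ) • f d}) ?_ ?_ ?_ ?_ ?_ ?_
  · intro j
    have hb : g₀ ^ (j : ℕ) • (f 0) ∈ {v | ∃ m ∈ M, ∃ i < d, v = g₀ ^ (j : ℕ) • m • f i} :=
      ⟨1, M.one_mem, 0, hd0, by rw [one_smul]⟩
    refine conn_of_base hb ?_
    rintro _ ⟨m, hm, i, hi, rfl⟩
    induction i with
    | zero =>
      have : m • f 0 = f 0 := by
        rw [← mem_stabilizer_iff, h0]; exact hm
      rw [this]
    | succ i ih =>
      refine Relation.ReflTransGen.tail (ih (by omega)) ⟨?_, m, hm, i + 1, hi, rfl⟩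
      exact hadj _ _ _ (hadj _ _ _ (hfadj i (by omega)))
  · intro j
    exact conn_singleton _ _
  · intro j j' hjj'
    rw [Set.disjoint_left]
    rintro _ ⟨m, hm, i, hi, rfl⟩ ⟨m', hm', i', hi', h⟩
    apply hjj'
    have h1 : ((g₀ ^ (j' : ℕ) * m')⁻¹ * (g₀ ^ (j : ℕ) * m)) • f i = f i' := by
      rw [mul_smul, inv_smul_eq_iff, mul_smul, mul_smul, h]
    have hii := hinj i i' hi.le hi'.le _ h1
    subst hii
    have h2 : (g₀ ^ (j' : ℕ) * m')⁻¹ * (g₀ ^ (j : ℕ) * m) ∈ M := by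
      have := hfT i hi
      exact this h1
    apply Fin.ext
    refine pow_inj_mod hp M hg₀M (hexp g₀) j.2 j'.2 ?_
    have h3 : g₀ ^ (j : ℕ) * (g₀ ^ (j' : ℕ))⁻¹ =
        ((g₀ ^ (j' : ℕ) * m')⁻¹ * (g₀ ^ (j : ℕ) * m)) * (m' * m⁻¹) := by
      have h : ∀ x y m m' : P, (y * m')⁻¹ * (x * m) * (m' * m⁻¹) =
          (x * y⁻¹) * (m * m⁻¹) * (m' * m'⁻¹) := by
        intro x y m m'
        rw [mul_inv]
        ac_rfl
      rw [h, mul_inv_cancel, mul_inv_cancel, mul_one, mul_one]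
    rw [h3]
    exact M.mul_mem h2 (M.mul_mem hm' (M.inv_mem hm))
  · intro j j' hjj'
    rw [Set.disjoint_singleton]
    intro h
    apply hjj'
    apply Fin.ext
    refine pow_inj_mod hp (stabilizer P (f d)) hm₀' (hexp m₀) j.2 j'.2 ?_
    rw [mem_stabilizer_iff, mul_comm, mul_smul, h, inv_smul_smul]
  · intro j j'
    rw [Set.disjoint_singleton_right]
    rintro ⟨m, hm, i, hi, h⟩
    apply hd
    rw [← stab_smul (m₀ ^ (j' : ℕ)) (f d), h, stab_smul, stab_smul]
    exact hfT i hi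
  · intro i j
    refine ⟨g₀ ^ (i : ℕ) • m₀ ^ (j : ℕ) • f (d - 1), ⟨m₀ ^ (j : ℕ), M.pow_mem hm₀ _, d - 1,
      by omega, rfl⟩, _, rfl, ?_⟩
    have h1 : m₀ ^ (j : ℕ) • f d = g₀ ^ (i : ℕ) • m₀ ^ (j : ℕ) • f d := by
      rw [smul_smul, mul_comm, mul_smul, hg₀']
    rw [h1]
    apply hadj
    apply hadj
    have := hfadj (d - 1) (by omega)
    rwa [Nat.sub_add_cancel hd0] at this

end

end Pool.Agent.Helper999.HM
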