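import Pool.Agent.Helper999.HMJordan

set_option autoImplicit false

namespace Pool.Agent.Helper999.HM

open MulAction Equiv

section
variable {α : Type*} [Fintype α] [DecidableEq α]

omit [Fintype α] [DecidableEq α] in
theorem rtg_symm {r : α → α → Prop} (h : ∀ a b, r a b → r b a) {a b : α}
    (hab : Relation.ReflTransGen r a b) : Relation.ReflTransGen r b a := by
  induction hab with
  | refl => exact Relation.ReflTransGen.refl
  | tail _ hs ih => exact Relation.ReflTransGen.head (h _ _ hs) ih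

/-- `H` contains every even permutation supported in `C` -/
def AltIn (H : Subgroup (Perm α)) (C : Set α) : Prop :=
  ∀ g : Perm α, Perm.sign g = 1 → (∀ x, x ∉ C → g x = x) → g ∈ H

theorem AltIn.mono {H : Subgroup (Perm α)} {C D : Set α} (h : AltIn H D) (hCD : C ⊆ D) :
    AltIn H C := fun g h1 h2 => h g h1 (fun x hx => h2 x (fun h3 => hx (hCD h3)))

theorem altIn_of_alt_le {H : Subgroup (Perm α)} {C : Set α} [DecidablePred (· ∈ C)]
    (h : alternatingGroup C ≤ H.comap (Perm.ofSubtype (p := (· ∈ C)))) : AltIn H C := by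
  intro g hg hfix
  have h1 : ∀ x, g x ∈ C ↔ x ∈ C := by
    intro x
    constructor
    · intro h1
      by_contra h2
      rw [hfix x h2] at h1
      exact h2 h1
    · intro h1
      by_contra h2
      have h3 := hfix _ h2
      have h4 := g.injective h3
      rw [h4] at h2
      exact h2 h1
  have h2 : Perm.ofSubtype (g.subtypePerm h1) = g :=
    Perm.ofSubtype_subtypePerm h1 (fun x hx => by
      by_contra h3
      exact hx (hfix x h3))
  have h3 : g.subtypePerm h1 ∈ alternatingGroup C := by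
    rw [Perm.mem_alternatingGroup, ← Perm.sign_ofSubtype, h2]
    exact hg
  have h4 := h h3
  rw [Subgroup.mem_comap, h2] at h4
  exact h4

theorem conn_sub {H : Subgroup (Perm α)} {C : Set α} [DecidablePred (· ∈ C)] {q : ℕ}
    (hC : ∀ x ∈ C, ∀ y ∈ C, Relation.ReflTransGen (fun a b => ∃ w ∈ H, QCyc q w ∧
      (∀ c ∈ w.support, c ∈ C) ∧ a ∈ w.support ∧ b ∈ w.support) x y) (x y : C) :
    Relation.ReflTransGen (CycRel (H.comap (Perm.ofSubtype (p := (· ∈ C)))) q) x y := by
  have key : ∀ y, Relation.ReflTransGen (fun a b => ∃ w ∈ H, QCyc q w ∧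
      (∀ c ∈ w.support, c ∈ C) ∧ a ∈ w.support ∧ b ∈ w.support) x.1 y → ∃ hy : y ∈ C,
      Relation.ReflTransGen (CycRel (H.comap (Perm.ofSubtype (p := (· ∈ C)))) q) x ⟨y, hy⟩ := by
    intro y hy
    induction hy with
    | refl => exact ⟨x.2, Relation.ReflTransGen.refl⟩
    | tail _ hstep ih =>
      obtain ⟨hb, hr⟩ := ih
      obtain ⟨w, hwH, hw, hwC, hbw, hcw⟩ := hstep
      refine ⟨hwC _ hcw, Relation.ReflTransGen.tail hr ?_⟩
      have h1 : ∀ x, w x ∈ C ↔ x ∈ C := by
        intro x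
        by_cases hx : x ∈ w.support
        · exact ⟨fun _ => hwC _ hx, fun _ => hwC _ (Perm.apply_mem_support.2 hx)⟩
        · rw [Perm.notMem_support.1 hx]
      have h2 : Perm.ofSubtype (w.subtypePerm h1) = w :=
        Perm.ofSubtype_subtypePerm h1 (fun x hx => hwC _ (Perm.mem_support.2 hx))
      refine ⟨w.subtypePerm h1, ?_, ?_, ?_, ?_⟩
      · rw [Subgroup.mem_comap, h2]
        exact hwH
      · unfold QCyc
        rw [← Perm.cycleType_ofSubtype, h2]
        exact hw
      · rw [Perm.mem_support]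
        intro h3
        exact Perm.mem_support.1 hbw (congrArg Subtype.val h3)
      · rw [Perm.mem_support]
        intro h3
        exact Perm.mem_support.1 hcw (congrArg Subtype.val h3)
  obtain ⟨hy, hr⟩ := key y.1 (hC x.1 x.2 y.1 y.2)
  exact hr

theorem altIn_of_conn {H : Subgroup (Perm α)} {C : Set α} {q : ℕ} (hq : q.Prime)
    (hC : ∀ x ∈ C, ∀ y ∈ C, Relation.ReflTransGen (fun a b => ∃ w ∈ H, QCyc q w ∧
      (∀ c ∈ w.support, c ∈ C) ∧ a ∈ w.support ∧ b ∈ w.support) x y)
    (hex : ∃ w ∈ H, QCyc q w ∧ (∀ c ∈ w.support, c ∈ C))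
    (hcard : q = 3 ∨ 2 * q ≤ C.ncard) : AltIn H C := by
  classical
  have hprim := preprim hq (conn_sub hC)
  obtain ⟨w, hwH, hw, hwC⟩ := hex
  have h1 : ∀ x, w x ∈ C ↔ x ∈ C := by
    intro x
    by_cases hx : x ∈ w.support
    · exact ⟨fun _ => hwC _ hx, fun _ => hwC _ (Perm.apply_mem_support.2 hx)⟩
    · rw [Perm.notMem_support.1 hx]
  have h2 : Perm.ofSubtype (w.subtypePerm h1) = w :=
    Perm.ofSubtype_subtypePerm h1 (fun x hx => hwC _ (Perm.mem_support.2 hx))
  have h3 : w.subtypePerm h1 ∈ H.comap (Perm.ofSubtype (p := (· ∈ C))) := by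
    rw [Subgroup.mem_comap, h2]
    exact hwH
  have h4 : QCyc q (w.subtypePerm h1) := by
    unfold QCyc
    rw [← Perm.cycleType_ofSubtype, h2]
    exact hw
  apply altIn_of_alt_le
  rcases hcard with rfl | hcard
  · exact Perm.alternatingGroup_le_of_isPreprimitive_of_isThreeCycle_mem hprim
      (g := w.subtypePerm h1) h4 h3
  · exact alt_le_of_qCyc hprim hq h3 h4 (by rw [Nat.card_coe_set_eq]; exact hcard)

theorem exists_threeCycle {C : Set α} (hC : 3 ≤ C.ncard) {a b : α} (ha : a ∈ C) (hb : b ∈ C) :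
    ∃ w : Perm α, QCyc 3 w ∧ (∀ c ∈ w.support, c ∈ C) ∧ a ∈ w.support ∧ b ∈ w.support ∧
      Perm.sign w = 1 := by
  have key : ∀ a b : α, a ∈ C → b ∈ C → a ≠ b → ∃ w : Perm α, QCyc 3 w ∧
      (∀ c ∈ w.support, c ∈ C) ∧ a ∈ w.support ∧ b ∈ w.support ∧ Perm.sign w = 1 := by
    intro a b ha hb hab
    obtain ⟨c, hcC, hc⟩ : ∃ c ∈ C, c ∉ ({a, b} : Set α) := by
      apply Set.exists_mem_notMem_of_ncard_lt_ncard _ (Set.toFinite _)
      have := Set.ncard_pair hab
      omega
    rw [Set.mem_insert_iff, Set.mem_singleton_iff, not_or] at hc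
    have h3 : (swap a b * swap a c).IsThreeCycle :=
      Perm.isThreeCycle_swap_mul_swap_same hab (Ne.symm hc.1) (Ne.symm hc.2)
    refine ⟨swap a b * swap a c, h3, ?_, ?_, ?_, h3.sign⟩
    · intro d hd
      by_contra hdC
      rw [Perm.mem_support] at hd
      apply hd
      have h1 : d ≠ a := fun h => hdC (h ▸ ha)
      have h2 : d ≠ b := fun h => hdC (h ▸ hb)
      have h4 : d ≠ c := fun h => hdC (h ▸ hcC)
      rw [Perm.mul_apply, swap_apply_of_ne_of_ne h1 h4, swap_apply_of_ne_of_ne h1 h2]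
    · rw [Perm.mem_support, Perm.mul_apply, swap_apply_left, swap_apply_of_ne_of_ne hc.1 hc.2]
      exact hc.1
    · rw [Perm.mem_support, Perm.mul_apply, swap_apply_of_ne_of_ne (Ne.symm hab) (Ne.symm hc.2),
        swap_apply_right]
      exact hab
  by_cases hab : a = b
  · subst hab
    obtain ⟨c, hcC, hc⟩ : ∃ c ∈ C, c ∉ ({a} : Set α) := by
      apply Set.exists_mem_notMem_of_ncard_lt_ncard _ (Set.toFinite _)
      rw [Set.ncard_singleton]
      omega
    obtain ⟨w, h1, h2, h3, _, h5⟩ := key a c ha hcC (fun h => hc h.symm)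
    exact ⟨w, h1, h2, h3, h3, h5⟩
  · exact key a b ha hb hab

/-- two overlapping alternating groups generate the alternating group of the union -/
theorem AltIn.union {H : Subgroup (Perm α)} {S T : Set α} (hS : AltIn H S) (hT : AltIn H T)
    (hS3 : 3 ≤ S.ncard) (hT3 : 3 ≤ T.ncard) (hne : (S ∩ T).Nonempty) : AltIn H (S ∪ T) := by
  obtain ⟨o, hoS, hoT⟩ := hne
  have hsymm : ∀ {a b : α}, (∃ w ∈ H, QCyc 3 w ∧
      (∀ c ∈ w.support, c ∈ S ∪ T) ∧ a ∈ w.support ∧ b ∈ w.support) → (∃ w ∈ H, QCyc 3 w ∧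
      (∀ c ∈ w.support, c ∈ S ∪ T) ∧ b ∈ w.support ∧ a ∈ w.support) := by
    rintro a b ⟨w, h1, h2, h3, h4, h5⟩
    exact ⟨w, h1, h2, h3, h5, h4⟩
  have h1 : ∀ x ∈ S ∪ T, (∃ w ∈ H, QCyc 3 w ∧
      (∀ c ∈ w.support, c ∈ S ∪ T) ∧ x ∈ w.support ∧ o ∈ w.support) := by
    rintro x (hx | hx)
    · obtain ⟨w, h1, h2, h3, h4, h5⟩ := exists_threeCycle hS3 hx hoS
      exact ⟨w, hS w h5 (fun c hc => by
        by_contra h6
        exact hc (h2 c (Perm.mem_support.2 h6))), h1, fun c hc => Or.inl (h2 c hc), h3, h4⟩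
    · obtain ⟨w, h1, h2, h3, h4, h5⟩ := exists_threeCycle hT3 hx hoT
      exact ⟨w, hT w h5 (fun c hc => by
        by_contra h6
        exact hc (h2 c (Perm.mem_support.2 h6))), h1, fun c hc => Or.inr (h2 c hc), h3, h4⟩
  refine altIn_of_conn Nat.prime_three ?_ ?_ (Or.inl rfl)
  · intro x hx y hy
    exact Relation.ReflTransGen.trans (Relation.ReflTransGen.single (h1 x hx))
      (Relation.ReflTransGen.single (hsymm (h1 y hy)))
  · obtain ⟨w, h2, h3, h4, _, _⟩ := h1 o (Or.inl hoS)
    exact ⟨w, h2, h3, h4⟩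

theorem conj_support {g w : Perm α} {x : α} : x ∈ (g * w * g⁻¹).support ↔ g⁻¹ x ∈ w.support := by
  rw [Perm.mem_support, Perm.mem_support, Perm.mul_apply, Perm.mul_apply, Ne, Ne,
    ← Perm.eq_inv_iff_eq]

/-- a group containing a `p`-cycle and `q`-cycles covering all but fewer than `p` points, `p ≥ 2q`,
contains a big alternating group -/
theorem exists_altIn {H : Subgroup (Perm α)} {p q : ℕ} (hp : p.Prime) (hq : q.Prime)
    (hpq : 2 * q ≤ p) {z : Perm α} (hz : z ∈ H) (hzc : QCyc p z)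
    (hcov : {x : α | ¬ ∃ w ∈ H, QCyc q w ∧ x ∈ w.support}.ncard < p) :
    ∃ C : Set α, p ≤ C.ncard ∧ AltIn H C := by
  classical
  have hsymm : ∀ {a b : α}, Relation.ReflTransGen (CycRel H q) a b →
      Relation.ReflTransGen (CycRel H q) b a := fun h => rtg_symm (fun _ _ h => h.symm) h
  have hmap : ∀ h ∈ H, ∀ a b, Relation.ReflTransGen (CycRel H q) a b →
      Relation.ReflTransGen (CycRel H q) (h a) (h b) := by
    intro h hh a b hab
    induction hab with
    | refl => exact Relation.ReflTransGen.refl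
    | tail _ hs ih =>
      refine Relation.ReflTransGen.tail ih ?_
      obtain ⟨w, hwH, hw, h1, h2⟩ := hs
      refine ⟨h * w * h⁻¹, H.mul_mem (H.mul_mem hh hwH) (H.inv_mem hh), hw.conj h, ?_, ?_⟩
      · rw [conj_support, inv_app]; exact h1
      · rw [conj_support, inv_app]; exact h2
  obtain ⟨x, hxz, hx⟩ : ∃ x ∈ (z.support : Set α),
      x ∉ {x : α | ¬ ∃ w ∈ H, QCyc q w ∧ x ∈ w.support} := by
    apply Set.exists_mem_notMem_of_ncard_lt_ncard _ (Set.toFinite _)
    rw [Set.ncard_coe_finset, hzc.card_support]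
    exact hcov
  rw [Set.mem_ofPred_eq, not_not] at hx
  obtain ⟨w, hwH, hw, hxw⟩ := hx
  have hxz' : x ∈ z.support := hxz
  -- key: `x` and `z x` are equivalent
  have hpowmap : ∀ (h : Perm α), h ∈ H → ∀ a, Relation.ReflTransGen (CycRel H q) a (h a) →
      ∀ n : ℕ, Relation.ReflTransGen (CycRel H q) a ((h ^ n) a) := by
    intro h hh a ha n
    induction n with
    | zero => exact Relation.ReflTransGen.refl
    | succ n ih =>
      rw [pow_succ', Perm.mul_apply]
      exact Relation.ReflTransGen.trans ha (hmap h hh _ _ ih)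
  have hzpowmap : ∀ (h : Perm α), h ∈ H → ∀ a, Relation.ReflTransGen (CycRel H q) a (h a) →
      ∀ n : ℤ, Relation.ReflTransGen (CycRel H q) a ((h ^ n) a) := by
    intro h hh a ha n
    rcases n with n | n
    · rw [Int.ofNat_eq_natCast, zpow_natCast]
      exact hpowmap h hh a ha n
    · rw [zpow_negSucc]
      have h1 := hpowmap h hh a ha (n + 1)
      have h2 := hmap _ (H.inv_mem (H.pow_mem hh (n + 1))) _ _ h1
      rw [inv_app] at h2
      exact hsymm h2
  have hkey : Relation.ReflTransGen (CycRel H q) x (z x) := by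
    have hy : w x ∈ w.support := Perm.apply_mem_support.2 hxw
    have hxy : Relation.ReflTransGen (CycRel H q) x (w x) :=
      Relation.ReflTransGen.single ⟨w, hwH, hw, hxw, hy⟩
    by_cases hyz : w x ∈ z.support
    · obtain ⟨i, hi⟩ := cycle_pow hzc.isCycle hxz' hyz
      have hne : z ^ i ≠ 1 := by
        intro h
        rw [h] at hi
        exact Perm.mem_support.1 hxw hi.symm
      obtain ⟨j, hj⟩ := exists_zpow_pow hp (qCyc_pow hzc) hne
      have h1 := hzpowmap (z ^ i) (H.zpow_mem hz i) x (by rw [hi]; exact hxy) j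
      rwa [hj] at h1
    · have h1 := hmap z hz _ _ hxy
      rw [Perm.notMem_support.1 hyz] at h1
      exact Relation.ReflTransGen.trans hxy (hsymm h1)
  set C : Set α := {y | Relation.ReflTransGen (CycRel H q) x y} with hC
  have hsub : (z.support : Set α) ⊆ C := by
    intro y hy
    obtain ⟨i, hi⟩ := cycle_pow hzc.isCycle hxz' hy
    have := hzpowmap z hz x hkey i
    rw [hi] at this
    exact this
  have hcard : p ≤ C.ncard := by
    have := Set.ncard_le_ncard hsub (Set.toFinite _)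
    rwa [Set.ncard_coe_finset, hzc.card_support] at this
  refine ⟨C, hcard, altIn_of_conn hq ?_ ?_ (Or.inr (by omega))⟩
  · intro a ha b hb
    have h1 : Relation.ReflTransGen (CycRel H q) a b := Relation.ReflTransGen.trans (hsymm ha) hb
    clear hb
    induction h1 with
    | refl => exact Relation.ReflTransGen.refl
    | tail hab hs ih =>
      refine Relation.ReflTransGen.tail ih ?_
      obtain ⟨w', hw'H, hw', h1, h2⟩ := hs
      refine ⟨w', hw'H, hw', ?_, h1, h2⟩
      intro c hc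
      exact Relation.ReflTransGen.trans (Relation.ReflTransGen.trans ha hab)
        (Relation.ReflTransGen.single ⟨w', hw'H, hw', h1, hc⟩)
  · exact ⟨w, hwH, hw, fun c hc => Relation.ReflTransGen.single ⟨w, hwH, hw, hxw, hc⟩⟩

end

end Pool.Agent.Helper999.HM
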