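import Mathlib

set_option autoImplicit false

namespace Pool.Agent.Helper999.HM

open SimpleGraph

variable {V : Type*}

/-- `X` has `K_k` as a minor (subcontraction): there are `k` pairwise disjoint connected vertex
sets, any two of which are joined by an edge. -/
def HasKMinor (X : SimpleGraph V) (k : ℕ) : Prop :=
  ∃ B : Fin k → Set V, (∀ i, (X.induce (B i)).Connected) ∧
    (∀ i j, i ≠ j → Disjoint (B i) (B j)) ∧
    ∀ i j, i ≠ j → ∃ a ∈ B i, ∃ b ∈ B j, X.Adj a b

/-- one step inside `D` -/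
def StepIn (Y : SimpleGraph V) (D : Set V) (x y : V) : Prop := Y.Adj x y ∧ y ∈ D

theorem conn_of_base {Y : SimpleGraph V} {D : Set V} {b : V} (hb : b ∈ D)
    (h : ∀ a ∈ D, Relation.ReflTransGen (StepIn Y D) b a) : (Y.induce D).Connected := by
  rw [connected_iff_exists_forall_reachable]
  refine ⟨⟨b, hb⟩, ?_⟩
  have key : ∀ a, Relation.ReflTransGen (StepIn Y D) b a →
      ∃ ha : a ∈ D, (Y.induce D).Reachable ⟨b, hb⟩ ⟨a, ha⟩ := by
    intro a ha
    induction ha with
    | refl => exact ⟨hb, Reachable.refl _⟩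
    | tail _ hstep ih =>
      obtain ⟨hx, hr⟩ := ih
      refine ⟨hstep.2, hr.trans ?_⟩
      apply Adj.reachable
      simpa using hstep.1
  rintro ⟨a, ha⟩
  obtain ⟨_, hr⟩ := key a (h a ha)
  exact hr

theorem step_of_conn {Y : SimpleGraph V} {D : Set V} (h : (Y.induce D).Connected) {a b : V}
    (ha : a ∈ D) (hb : b ∈ D) : Relation.ReflTransGen (StepIn Y D) a b := by
  obtain ⟨w⟩ := h.preconnected ⟨a, ha⟩ ⟨b, hb⟩
  have key : ∀ (x y : D) (w : (Y.induce D).Walk x y),
      Relation.ReflTransGen (StepIn Y D) x.1 y.1 := by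
    intro x y w
    induction w with
    | nil => exact Relation.ReflTransGen.refl
    | cons hadj _ ih =>
      refine Relation.ReflTransGen.head ⟨?_, ?_⟩ ih
      · simpa using hadj
      · exact Subtype.coe_prop _
  exact key _ _ w

theorem StepIn.mono {Y : SimpleGraph V} {D E : Set V} (h : D ⊆ E) {a b : V}
    (hs : Relation.ReflTransGen (StepIn Y D) a b) : Relation.ReflTransGen (StepIn Y E) a b :=
  Relation.ReflTransGen.mono (fun _ _ (h' : StepIn Y D _ _) => (⟨h'.1, h h'.2⟩ : StepIn Y E _ _)) _ _ hs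

theorem conn_union {Y : SimpleGraph V} {D E : Set V} (hD : (Y.induce D).Connected)
    (hE : (Y.induce E).Connected) {a b : V} (ha : a ∈ D) (hb : b ∈ E) (hab : Y.Adj a b) :
    (Y.induce (D ∪ E)).Connected := by
  refine conn_of_base (b := a) (Or.inl ha) ?_
  rintro c (hc | hc)
  · exact StepIn.mono Set.subset_union_left (step_of_conn hD ha hc)
  · refine Relation.ReflTransGen.head ⟨hab, Or.inr hb⟩ ?_
    exact StepIn.mono Set.subset_union_right (step_of_conn hE hb hc)

theorem conn_singleton (Y : SimpleGraph V) (a : V) : (Y.induce ({a} : Set V)).Connected := by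
  refine conn_of_base (b := a) rfl ?_
  rintro c rfl
  exact Relation.ReflTransGen.refl

/-- a complete bipartite pattern of connected sets gives a complete minor -/
theorem hasKMinor_of_biclique {Y : SimpleGraph V} {k : ℕ} (D E : Fin k → Set V)
    (hD : ∀ i, (Y.induce (D i)).Connected) (hE : ∀ i, (Y.induce (E i)).Connected)
    (hDD : ∀ i j, i ≠ j → Disjoint (D i) (D j)) (hEE : ∀ i j, i ≠ j → Disjoint (E i) (E j))
    (hDE : ∀ i j, Disjoint (D i) (E j))
    (hadj : ∀ i j, ∃ a ∈ D i, ∃ b ∈ E j, Y.Adj a b) : HasKMinor Y k := by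
  refine ⟨fun i => D i ∪ E i, ?_, ?_, ?_⟩
  · intro i
    obtain ⟨a, ha, b, hb, hab⟩ := hadj i i
    exact conn_union (hD i) (hE i) ha hb hab
  · intro i j hij
    rw [Set.disjoint_union_left, Set.disjoint_union_right, Set.disjoint_union_right]
    exact ⟨⟨hDD i j hij, hDE i j⟩, (hDE j i).symm, hEE i j hij⟩
  · intro i j _
    obtain ⟨a, ha, b, hb, hab⟩ := hadj i j
    exact ⟨a, Or.inl ha, b, Or.inr hb, hab⟩

theorem HasKMinor.mono {Y : SimpleGraph V} {k l : ℕ} (h : HasKMinor Y k) (hlk : l ≤ k) :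
    HasKMinor Y l := by
  obtain ⟨B, h1, h2, h3⟩ := h
  refine ⟨fun i => B (Fin.castLE hlk i), fun i => h1 _, fun i j hij => h2 _ _ ?_,
    fun i j hij => h3 _ _ ?_⟩
  · intro h; exact hij (Fin.castLE_injective hlk h)
  · intro h; exact hij (Fin.castLE_injective hlk h)

/-- shortest path between two nonempty invariant sets of a connected graph -/
theorem exists_shortest {Γ : Type*} [Group Γ] [MulAction Γ V] {Y : SimpleGraph V}
    (hadj : ∀ (g : Γ) (a b : V), Y.Adj a b → Y.Adj (g • a) (g • b)) (hconn : Y.Connected)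
    (S T : Set V) (hS : S.Nonempty) (hT : T.Nonempty)
    (hSinv : ∀ (g : Γ) (v : V), v ∈ S → g • v ∈ S) :
    ∃ (d : ℕ) (f : ℕ → V), f 0 ∈ S ∧ f d ∈ T ∧ (∀ i, i < d → Y.Adj (f i) (f (i + 1))) ∧
      (∀ i, i < d → f i ∉ T) ∧ (∀ i, 0 < i → i ≤ d → f i ∉ S) ∧
      ∀ i j, i ≤ d → j ≤ d → ∀ g : Γ, g • f i = f j → i = j := by
  classical
  have hex : ∃ n : ℕ, ∃ s ∈ S, ∃ t ∈ T, ∃ w : Y.Walk s t, w.length = n := by
    obtain ⟨s, hs⟩ := hS
    obtain ⟨t, ht⟩ := hT
    obtain ⟨w⟩ := hconn.preconnected s t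
    exact ⟨w.length, s, hs, t, ht, w, rfl⟩
  obtain ⟨s, hs, t, ht, w, hw⟩ := Nat.find_spec hex
  have hmin : ∀ (s : V), s ∈ S → ∀ (t : V), t ∈ T → ∀ w' : Y.Walk s t, w.length ≤ w'.length := by
    intro s hs t ht w'
    rw [hw]
    exact Nat.find_min' hex ⟨s, hs, t, ht, w', rfl⟩
  have hmap : ∀ (g : Γ) {a b : V} (w : Y.Walk a b), ∃ w' : Y.Walk (g • a) (g • b),
      w'.length = w.length := by
    intro g a b w
    induction w with
    | nil => exact ⟨Walk.nil, rfl⟩
    | cons h _ ih =>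
      obtain ⟨w', hw'⟩ := ih
      exact ⟨Walk.cons (hadj g _ _ h) w', by simp [hw']⟩
  refine ⟨w.length, w.getVert, ?_, ?_, ?_, ?_, ?_, ?_⟩
  · simpa using hs
  · simpa using ht
  · intro i hi
    exact w.adj_getVert_succ hi
  · intro i hi hiT
    have := hmin s hs _ hiT (w.take i)
    rw [Walk.take_length] at this
    omega
  · intro i hi hid hiS
    have := hmin _ hiS t ht (w.drop i)
    rw [Walk.drop_length] at this
    omega
  · have key : ∀ i j, i ≤ w.length → j ≤ w.length → ∀ g : Γ, g • w.getVert i = w.getVert j →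
        j ≤ i := by
      intro i j hi hj g hg
      obtain ⟨w', hw'⟩ := hmap g (w.take i)
      have h1 := hmin (g • s) (hSinv g s hs) t ht ((w'.copy rfl hg).append (w.drop j))
      rw [Walk.length_append, Walk.length_copy, hw', Walk.take_length, Walk.drop_length] at h1
      omega
    intro i j hi hj g hg
    refine le_antisymm ?_ (key i j hi hj g hg)
    refine key j i hj hi g⁻¹ ?_
    rw [← hg, inv_smul_smul]

end Pool.Agent.Helper999.HM
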