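import Pool.Agent.Helper999.HMBasic

set_option autoImplicit false

namespace Pool.Agent.Helper999.HM

open SimpleGraph MulAction

/-- a connected graph without fixed vertices and without `K_k` minor, acted on by `G` -/
structure Good (G : Type*) [Group G] (k : ℕ) (V : Type*) [MulAction G V] (Y : SimpleGraph V) :
    Prop where
  adj : ∀ (g : G) (a b : V), Y.Adj a b → Y.Adj (g • a) (g • b)
  conn : Y.Connected
  nofix : ∀ v : V, ∃ g : G, g • v ≠ v
  nominor : ¬ HasKMinor Y k

theorem HasKMinor.of_induce {V : Type*} {Y : SimpleGraph V} {C : Set V} {k : ℕ}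
    (h : HasKMinor (Y.induce C) k) : HasKMinor Y k := by
  obtain ⟨B, h1, h2, h3⟩ := h
  refine ⟨fun i => Subtype.val '' (B i), ?_, ?_, ?_⟩
  · intro i
    obtain ⟨⟨b, hb⟩⟩ := (h1 i).nonempty
    refine conn_of_base (b := b.1) ⟨b, hb, rfl⟩ ?_
    rintro _ ⟨a, ha, rfl⟩
    have h := step_of_conn (h1 i) hb ha
    have key : ∀ a : C, Relation.ReflTransGen (StepIn (Y.induce C) (B i)) b a →
        Relation.ReflTransGen (StepIn Y (Subtype.val '' (B i))) b.1 a.1 := by
      intro a h
      induction h with
      | refl => exact Relation.ReflTransGen.refl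
      | tail _ hs ih => exact Relation.ReflTransGen.tail ih ⟨hs.1, _, hs.2, rfl⟩
    exact key a h
  · intro i j hij
    rw [Set.disjoint_left]
    rintro _ ⟨a, ha, rfl⟩ ⟨b, hb, hab⟩
    have := Subtype.ext hab
    subst this
    exact Set.disjoint_left.1 (h2 i j hij) ha hb
  · intro i j hij
    obtain ⟨a, ha, b, hb, hab⟩ := h3 i j hij
    exact ⟨a, ⟨a, ha, rfl⟩, b, ⟨b, hb, rfl⟩, hab⟩

/-- the quotient graph -/
def quotGraph {V : Type*} (Y : SimpleGraph V) (s : Setoid V) : SimpleGraph (Quotient s) where
  Adj c c' := c ≠ c' ∧ ∃ a b : V, Quotient.mk s a = c ∧ Quotient.mk s b = c' ∧ Y.Adj a b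
  symm := ⟨by
    rintro c c' ⟨h, a, b, ha, hb, hab⟩
    exact ⟨h.symm, b, a, hb, ha, hab.symm⟩⟩
  loopless := ⟨fun c h => h.1 rfl⟩

theorem HasKMinor.of_quot {V : Type*} {Y : SimpleGraph V} {s : Setoid V}
    (hs : ∀ a b : V, s a b → Relation.ReflTransGen (fun x y => Y.Adj x y ∧ s x y) a b) {k : ℕ}
    (h : HasKMinor (quotGraph Y s) k) : HasKMinor Y k := by
  obtain ⟨B, h1, h2, h3⟩ := h
  refine ⟨fun i => {v | Quotient.mk s v ∈ B i}, ?_, ?_, ?_⟩
  · intro i
    obtain ⟨⟨c, hc⟩⟩ := (h1 i).nonempty
    obtain ⟨a₀, rfl⟩ := Quotient.exists_rep c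
    have fib : ∀ a b : V, s a b → Quotient.mk s a ∈ B i →
        Relation.ReflTransGen (StepIn Y {v | Quotient.mk s v ∈ B i}) a b := by
      intro a b hab ha
      have h := hs a b hab
      clear hab
      have key : ∀ b, Relation.ReflTransGen (fun x y => Y.Adj x y ∧ s x y) a b →
          Quotient.mk s b ∈ B i ∧
          Relation.ReflTransGen (StepIn Y {v | Quotient.mk s v ∈ B i}) a b := by
        intro b h
        induction h with
        | refl => exact ⟨ha, Relation.ReflTransGen.refl⟩
        | tail _ hst ih =>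
          have h4 : Quotient.mk s _ = Quotient.mk s _ := Quotient.sound hst.2
          have h5 := ih.1
          rw [h4] at h5
          exact ⟨h5, Relation.ReflTransGen.tail ih.2 ⟨hst.1, h5⟩⟩
      exact (key b h).2
    refine conn_of_base (b := a₀) hc ?_
    intro a ha
    have h := step_of_conn (h1 i) hc ha
    have key : ∀ c : Quotient s, Relation.ReflTransGen (StepIn (quotGraph Y s) (B i))
        (Quotient.mk s a₀) c → ∀ a, Quotient.mk s a = c →
        Relation.ReflTransGen (StepIn Y {v | Quotient.mk s v ∈ B i}) a₀ a := by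
      intro c h
      induction h with
      | refl =>
        intro a ha
        exact fib a₀ a (Quotient.exact ha.symm) hc
      | tail _ hst ih =>
        intro a ha
        obtain ⟨⟨_, u, v, hu, hv, huv⟩, hc'⟩ := hst
        have hvB : Quotient.mk s v ∈ B i := by rw [hv]; exact hc'
        exact Relation.ReflTransGen.trans (Relation.ReflTransGen.tail (ih u hu) ⟨huv, hvB⟩)
          (fib v a (Quotient.exact (hv.trans ha.symm)) hvB)
    exact key _ h a rfl
  · intro i j hij
    rw [Set.disjoint_left]
    intro v hv hv'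
    exact Set.disjoint_left.1 (h2 i j hij) hv hv'
  · intro i j hij
    obtain ⟨c, hc, c', hc', ⟨_, a, b, ha, hb, hab⟩⟩ := h3 i j hij
    exact ⟨a, by rw [Set.mem_ofPred_eq, ha]; exact hc, b, by rw [Set.mem_ofPred_eq, hb]; exact hc', hab⟩

/-- the graph formed by one edge orbit -/
def edgeOrbit (G : Type*) [Group G] {V : Type*} [MulAction G V] {Y : SimpleGraph V}
    (hadj : ∀ (g : G) (a b : V), Y.Adj a b → Y.Adj (g • a) (g • b)) {x y : V} (hxy : Y.Adj x y) :
    SimpleGraph V where
  Adj a b := ∃ g : G, (a = g • x ∧ b = g • y) ∨ (a = g • y ∧ b = g • x)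
  symm := ⟨by
    rintro a b ⟨g, h | h⟩
    · exact ⟨g, Or.inr ⟨h.2, h.1⟩⟩
    · exact ⟨g, Or.inl ⟨h.2, h.1⟩⟩⟩
  loopless := ⟨by
    rintro a ⟨g, ⟨h1, h2⟩ | ⟨h1, h2⟩⟩
    · have := hadj g x y hxy
      rw [← h1, ← h2] at this
      exact this.ne rfl
    · have := hadj g x y hxy
      rw [← h1, ← h2] at this
      exact this.ne rfl⟩

theorem first_step {V : Type*} {Y : SimpleGraph V} {a b : V} (w : Y.Walk a b) (h : a ≠ b) :
    ∃ c, Y.Adj a c := by
  cases w with
  | nil => exact absurd rfl h
  | cons h' _ => exact ⟨_, h'⟩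

theorem exists_two_orbits {G : Type*} [Group G] {k : ℕ} (N : ℕ) :
    ∀ (V : Type) [Finite V] [MulAction G V] (Y : SimpleGraph V), Nat.card V ≤ N → Good G k V Y →
    ∃ (V' : Type) (_ : Finite V') (_ : MulAction G V') (Y' : SimpleGraph V'), Good G k V' Y' ∧
      ∃ x y : V', ∀ v : V', v ∈ orbit G x ∨ v ∈ orbit G y := by
  classical
  induction N with
  | zero =>
    intro V _ _ Y hcard hgood
    exfalso
    have := hgood.conn.nonempty
    have := Nat.card_pos (α := V)
    omega
  | succ N ih =>
    intro V _ _ Y hcard hgood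
    have hne := hgood.conn.nonempty
    obtain ⟨z⟩ := hne
    obtain ⟨g₀, hg₀⟩ := hgood.nofix z
    obtain ⟨x, y, hxy⟩ : ∃ x y, Y.Adj x y := by
      obtain ⟨w⟩ := hgood.conn.preconnected z (g₀ • z)
      obtain ⟨c, hc⟩ := first_step w (Ne.symm hg₀)
      exact ⟨_, _, hc⟩
    set E := edgeOrbit G hgood.adj hxy with hE
    have hEY : ∀ a b, E.Adj a b → Y.Adj a b := by
      rintro a b ⟨g, ⟨rfl, rfl⟩ | ⟨rfl, rfl⟩⟩
      · exact hgood.adj _ _ _ hxy
      · exact hgood.adj _ _ _ hxy.symm
    have hEadj : ∀ (g : G) (a b : V), E.Adj a b → E.Adj (g • a) (g • b) := by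
      rintro g a b ⟨h, ⟨rfl, rfl⟩ | ⟨rfl, rfl⟩⟩
      · exact ⟨g * h, Or.inl ⟨by rw [mul_smul], by rw [mul_smul]⟩⟩
      · exact ⟨g * h, Or.inr ⟨by rw [mul_smul], by rw [mul_smul]⟩⟩
    have hErch : ∀ (g : G) (a b : V), E.Reachable a b → E.Reachable (g • a) (g • b) := by
      rintro g a b ⟨w⟩
      induction w with
      | nil => exact Reachable.refl _
      | cons h _ ih => exact (hEadj g _ _ h).reachable.trans ih
    have hExy : E.Adj x y := ⟨1, Or.inl ⟨(one_smul _ _).symm, (one_smul _ _).symm⟩⟩
    by_cases hfix : ∃ v₀ : V, ∀ g : G, E.Reachable v₀ (g • v₀)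
    · obtain ⟨v₀, hv₀⟩ := hfix
      set C : Set V := {v | E.Reachable v₀ v} with hC
      have hCinv : ∀ (g : G) (v : V), v ∈ C → g • v ∈ C := by
        intro g v hv
        exact (hv₀ g).trans (hErch g _ _ hv)
      let act : MulAction G C :=
        { smul := fun g v => ⟨g • v.1, hCinv g v.1 v.2⟩
          one_smul := fun v => Subtype.ext (one_smul _ _)
          mul_smul := fun g h v => Subtype.ext (mul_smul _ _ _) }
      have hsm : ∀ (g : G) (v : C), ((g • v : C) : V) = g • v.1 := fun _ _ => rfl
      have hnbr : ∀ v ∈ C, ∃ u, E.Adj v u := by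
        intro v hv
        obtain ⟨g, hg⟩ := hgood.nofix v
        have h1 : E.Reachable v (g • v) := (Reachable.symm hv).trans (hCinv g v hv)
        obtain ⟨w⟩ := h1
        exact first_step w (Ne.symm hg)
      have hxy_orb : ∀ v ∈ C, (∃ g : G, v = g • x) ∨ (∃ g : G, v = g • y) := by
        intro v hv
        obtain ⟨u, g, ⟨h, _⟩ | ⟨h, _⟩⟩ := hnbr v hv
        · exact Or.inl ⟨g, h⟩
        · exact Or.inr ⟨g, h⟩
      have hv₀C : v₀ ∈ C := Reachable.refl _
      have hxC : x ∈ C ∧ y ∈ C := by
        rcases hxy_orb v₀ hv₀C with ⟨g, hg⟩ | ⟨g, hg⟩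
        · have h1 : x ∈ C := by
            have := hCinv g⁻¹ v₀ hv₀C
            rwa [hg, inv_smul_smul] at this
          exact ⟨h1, Reachable.trans h1 hExy.reachable⟩
        · have h1 : y ∈ C := by
            have := hCinv g⁻¹ v₀ hv₀C
            rwa [hg, inv_smul_smul] at this
          exact ⟨Reachable.trans h1 hExy.symm.reachable, h1⟩
      refine ⟨C, inferInstance, act, Y.induce C, ⟨?_, ?_, ?_, ?_⟩, ⟨x, hxC.1⟩, ⟨y, hxC.2⟩, ?_⟩
      · intro g a b hab
        exact hgood.adj g _ _ hab
      · refine conn_of_base hv₀C ?_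
        rintro a ⟨w⟩
        have key : ∀ (u a : V) (w : E.Walk u a), u ∈ C →
            Relation.ReflTransGen (StepIn Y C) u a := by
          intro u a w
          induction w with
          | nil => exact fun _ => Relation.ReflTransGen.refl
          | cons h _ ih =>
            intro hu
            have hv := Reachable.trans hu h.reachable
            exact Relation.ReflTransGen.head ⟨hEY _ _ h, hv⟩ (ih hv)
        exact key _ _ w hv₀C
      · rintro ⟨v, hv⟩
        obtain ⟨g, hg⟩ := hgood.nofix v
        exact ⟨g, fun h => hg (congrArg Subtype.val h)⟩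
      · exact fun h => hgood.nominor h.of_induce
      · rintro ⟨v, hv⟩
        rcases hxy_orb v hv with ⟨g, hg⟩ | ⟨g, hg⟩
        · exact Or.inl ⟨g, Subtype.ext hg.symm⟩
        · exact Or.inr ⟨g, Subtype.ext hg.symm⟩
    · push Not at hfix
      let s : Setoid V := ⟨fun a b => E.Reachable a b, ⟨fun a => Reachable.refl a,
        fun h => h.symm, fun h h' => h.trans h'⟩⟩
      have hsr : ∀ a b, s a b ↔ E.Reachable a b := fun _ _ => Iff.rfl
      let act : MulAction G (Quotient s) :=
        { smul := fun g => Quotient.map (fun v => g • v) (fun a b h => hErch g a b h)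
          one_smul := by
            intro c
            obtain ⟨a, rfl⟩ := Quotient.exists_rep c
            exact congrArg (Quotient.mk s) (one_smul G a)
          mul_smul := by
            intro g h c
            obtain ⟨a, rfl⟩ := Quotient.exists_rep c
            exact congrArg (Quotient.mk s) (mul_smul g h a) }
      have hsm : ∀ (g : G) (v : V), g • (Quotient.mk s v) = Quotient.mk s (g • v) := fun _ _ => rfl
      refine ih (Quotient s) (quotGraph Y s) ?_ ⟨?_, ?_, ?_, ?_⟩
      · have h1 : Nat.card (Quotient s) < Nat.card V := by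
          have := Fintype.ofFinite V
          have := Fintype.ofFinite (Quotient s)
          rw [Nat.card_eq_fintype_card, Nat.card_eq_fintype_card]
          refine Fintype.card_lt_of_surjective_not_injective (Quotient.mk s)
            Quotient.exists_rep ?_
          intro hinj
          exact hxy.ne (hinj (Quotient.sound (s := s) (hExy.reachable)))
        omega
      · rintro g c c' ⟨hne, a, b, rfl, rfl, hab⟩
        refine ⟨?_, g • a, g • b, rfl, rfl, hgood.adj g _ _ hab⟩
        intro h
        apply hne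
        have h1 := congrArg (fun c => g⁻¹ • c) h
        simp only [inv_smul_smul] at h1
        exact h1
      · have hnonempty : Nonempty (Quotient s) := ⟨Quotient.mk s z⟩
        refine ⟨?_⟩
        intro c c'
        obtain ⟨a, rfl⟩ := Quotient.exists_rep c
        obtain ⟨b, rfl⟩ := Quotient.exists_rep c'
        obtain ⟨w⟩ := hgood.conn.preconnected a b
        induction w with
        | nil => exact Reachable.refl _
        | @cons u v _ h _ ih =>
          refine Reachable.trans ?_ ih
          by_cases huv : Quotient.mk s u = Quotient.mk s v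
          · rw [huv]
          · exact Adj.reachable ⟨huv, u, v, rfl, rfl, h⟩
      · intro c
        obtain ⟨a, rfl⟩ := Quotient.exists_rep c
        obtain ⟨g, hg⟩ := hfix a
        refine ⟨g, fun h => hg ?_⟩
        exact ((hsr _ _).1 (Quotient.exact h)).symm
      · intro h
        apply hgood.nominor
        refine HasKMinor.of_quot ?_ h
        rintro a b ⟨w⟩
        induction w with
        | nil => exact Relation.ReflTransGen.refl
        | cons h _ ih => exact Relation.ReflTransGen.head ⟨hEY _ _ h, h.reachable⟩ ih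

end Pool.Agent.Helper999.HM
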