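import Mathlib

set_option autoImplicit false

namespace Pool.Agent.Helper999.HM

open MulAction
open scoped Nat Pointwise

section
variable {A : Type*} [Group A]

theorem orbit_ge [IsSimpleGroup A] [Finite A] {V : Type*} [MulAction A V] {s : ℕ}
    (hcard : 2 * Nat.card A = s !) (hs : 3 ≤ s) (v : V) (hv : ¬ ∀ a : A, a • v = v) :
    s ≤ (orbit A v).ncard := by
  classical
  have := Fintype.ofFinite A
  have hfin : (orbit A v).Finite := Set.finite_range _
  have := hfin.fintype
  let ff := toPermHom A (orbit A v)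
  rcases IsSimpleGroup.eq_bot_or_eq_top_of_normal ff.ker inferInstance with h | h
  · have hinj : Function.Injective ff := (MonoidHom.ker_eq_bot_iff ff).1 h
    have h1 : Nat.card A ≤ (Nat.card (orbit A v))! := by
      rw [← Nat.card_perm]
      exact Nat.card_le_card_of_injective ff hinj
    rw [Nat.card_coe_set_eq] at h1
    by_contra hcon
    have h2 : (orbit A v).ncard ≤ s - 1 := by omega
    have h3 := Nat.factorial_le h2
    obtain ⟨t, rfl⟩ : ∃ t, s = t + 1 := ⟨s - 1, by omega⟩
    rw [Nat.factorial_succ] at hcard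
    simp only [Nat.add_sub_cancel] at h3
    have h4 : 0 < t ! := Nat.factorial_pos t
    nlinarith
  · exfalso
    apply hv
    intro a
    have h1 : a ∈ ff.ker := by rw [h]; trivial
    rw [MonoidHom.mem_ker] at h1
    have h2 := Equiv.Perm.congr_fun h1 ⟨v, mem_orbit_self v⟩
    exact congrArg Subtype.val h2

theorem section_aux [IsSimpleGroup A] [Finite A] {R ι : Type*} [Group R] [DecidableEq ι] (θ : R →* A)
    (hθ : Function.Surjective θ) (J : Finset ι) {X : ι → Type*} [∀ i, Group (X i)]
    [∀ i, Finite (X i)] (ρ : ∀ i, R →* X i) (hcard : ∀ i ∈ J, Nat.card (X i) < Nat.card A) :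
    ∀ a : A, ∃ r : R, (∀ i ∈ J, ρ i r = 1) ∧ θ r = a := by
  classical
  induction J using Finset.induction_on with
  | empty =>
    intro a
    obtain ⟨r, hr⟩ := hθ a
    exact ⟨r, by simp, hr⟩
  | insert i J hi ih =>
    have ih' := ih (fun j hj => hcard j (Finset.mem_insert_of_mem hj))
    let N : Subgroup R :=
      { carrier := {r | ∀ j ∈ insert i J, ρ j r = 1}
        one_mem' := fun j _ => map_one _
        mul_mem' := fun {a b} ha hb j hj => by rw [map_mul, ha j hj, hb j hj, one_mul]
        inv_mem' := fun {a} ha j hj => by rw [map_inv, ha j hj, inv_one] }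
    have hN : ∀ r : R, r ∈ N ↔ ∀ j ∈ insert i J, ρ j r = 1 := fun r => Iff.rfl
    have hnormal : (N.map θ).Normal := by
      constructor
      rintro _ ⟨n, hn, rfl⟩ a
      obtain ⟨r, rfl⟩ := hθ a
      refine ⟨r * n * r⁻¹, ?_, by rw [map_mul, map_mul, map_inv]⟩
      intro j hj
      rw [map_mul, map_mul, map_inv, hn j hj, mul_one, mul_inv_cancel]
    rcases IsSimpleGroup.eq_bot_or_eq_top_of_normal (N.map θ) hnormal with h | h
    · exfalso
      have hlt := hcard i (Finset.mem_insert_self _ _)
      let g : X i → A := fun x => if h : ∃ n : R, (∀ j ∈ J, ρ j n = 1) ∧ ρ i n = x then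
        θ h.choose else 1
      have hg : Function.Surjective g := by
        intro a
        obtain ⟨n, hn, hna⟩ := ih' a
        have hex : ∃ n' : R, (∀ j ∈ J, ρ j n' = 1) ∧ ρ i n' = ρ i n := ⟨n, hn, rfl⟩
        refine ⟨ρ i n, ?_⟩
        have h1 : g (ρ i n) = θ hex.choose := dif_pos hex
        rw [h1]
        have h2 := hex.choose_spec
        have h3 : (hex.choose)⁻¹ * n ∈ N := by
          rw [hN]
          intro j hj
          rw [map_mul, map_inv]
          rcases Finset.mem_insert.1 hj with rfl | hj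
          · rw [h2.2, inv_mul_cancel]
          · rw [h2.1 j hj, hn j hj, inv_one, one_mul]
        have h4 : θ ((hex.choose)⁻¹ * n) ∈ N.map θ := ⟨_, h3, rfl⟩
        rw [h, Subgroup.mem_bot, map_mul, map_inv, inv_mul_eq_one] at h4
        rw [h4, hna]
      have := Nat.card_le_card_of_surjective g hg
      omega
    · intro a
      have h1 : a ∈ N.map θ := by rw [h]; trivial
      obtain ⟨n, hn, hna⟩ := h1
      exact ⟨n, hn, hna⟩

theorem no_diag [IsSimpleGroup A] [Finite A] {B V : Type*} [Group B] [MulAction A V] [MulAction B V]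
    [SMulCommClass A B V] {ι : Type*} [DecidableEq ι] (J : Finset ι) {X : ι → Type*}
    [∀ i, Group (X i)] [∀ i, Finite (X i)] (ρ : ∀ i, B →* X i)
    (hinj : ∀ b : B, (∀ i ∈ J, ρ i b = 1) → b = 1)
    (hcard : ∀ i ∈ J, Nat.card (X i) < Nat.card A) (v : V) (hv : ¬ ∀ a : A, a • v = v)
    (hall : ∀ a : A, ∃ b : B, a • v = b • v) : False := by
  classical
  have hcomm : ∀ (a : A) (b : B) (x : V), b • a • x = a • b • x := fun a b x => (smul_comm a b x).symm
  -- the stabilizer in `A` is trivial
  have hnormal : (stabilizer A v).Normal := by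
    constructor
    intro n hn g
    rw [mem_stabilizer_iff] at hn ⊢
    obtain ⟨b, hb⟩ := hall g⁻¹
    have h1 : n • b • v = b • v := by rw [← hcomm, hn]
    rw [mul_smul, mul_smul, hb, h1, ← hb, smul_inv_smul]
  have hstab : stabilizer A v = ⊥ := by
    rcases IsSimpleGroup.eq_bot_or_eq_top_of_normal _ hnormal with h | h
    · exact h
    · exfalso
      apply hv
      intro a
      have : a ∈ stabilizer A v := by rw [h]; trivial
      exact this
  have huniq : ∀ a a' : A, a • v = a' • v → a = a' := by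
    intro a a' h
    have h1 : a'⁻¹ * a ∈ stabilizer A v := by
      rw [mem_stabilizer_iff, mul_smul, h, inv_smul_smul]
    rw [hstab, Subgroup.mem_bot, inv_mul_eq_one] at h1
    exact h1.symm
  let R : Subgroup B :=
    { carrier := {b | ∃ a : A, a • v = b • v}
      one_mem' := ⟨1, by rw [one_smul, one_smul]⟩
      mul_mem' := by
        rintro b b' ⟨a, ha⟩ ⟨a', ha'⟩
        refine ⟨a' * a, ?_⟩
        rw [mul_smul, mul_smul, ha, ← ha', hcomm]
      inv_mem' := by
        rintro b ⟨a, ha⟩
        refine ⟨a⁻¹, ?_⟩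
        rw [inv_smul_eq_iff, ← hcomm, ha, inv_smul_smul] }
  have hR : ∀ r : R, ∃ a : A, a • v = (r : B) • v := fun r => r.2
  choose t ht using hR
  let θ : R →* A := MonoidHom.mk' (fun r => (t r)⁻¹) (by
    intro r r'
    rw [← mul_inv_rev]
    congr 1
    apply huniq
    rw [ht, mul_smul, ht, Subgroup.coe_mul, mul_smul, ← ht r', hcomm])
  have hθ : Function.Surjective θ := by
    intro a
    obtain ⟨b, hb⟩ := hall a⁻¹
    refine ⟨⟨b, a⁻¹, hb⟩, ?_⟩
    change (t ⟨b, a⁻¹, hb⟩)⁻¹ = a
    rw [inv_eq_iff_eq_inv]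
    apply huniq
    rw [ht]
    exact hb.symm
  have h1 := section_aux θ hθ J (fun i => (ρ i).comp R.subtype) hcard
  push Not at hv
  obtain ⟨a, ha⟩ := hv
  obtain ⟨r, hr, hra⟩ := h1 a
  have h2 : (r : B) = 1 := hinj _ hr
  have h3 : r = 1 := Subtype.ext h2
  apply ha
  rw [← hra, h3, map_one, one_smul]

end

end Pool.Agent.Helper999.HM
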