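import Pool.Agent.Helper999.HMCommute
import Pool.Agent.Helper999.HMSection
import Pool.Agent.Helper999.HMContract

set_option autoImplicit false

namespace Pool.Agent.Helper999.HM

open SimpleGraph MulAction Equiv
open scoped Pointwise

section
variable {α : Type*} [Fintype α] [DecidableEq α]

/-- the inclusion of the alternating group on a subset -/
def jT (T : Finset α) : alternatingGroup T →* alternatingGroup α :=
  ((Perm.ofSubtype (p := (· ∈ T))).comp (alternatingGroup T).subtype).codRestrict (alternatingGroup α)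
    (by
      intro g
      rw [Perm.mem_alternatingGroup, MonoidHom.comp_apply, Perm.sign_ofSubtype]
      exact g.2)

theorem jT_fix (T : Finset α) (g : alternatingGroup T) {x : α} (hx : x ∉ T) :
    (jT T g : Perm α) x = x := Perm.ofSubtype_apply_of_not_mem _ hx

theorem jT_mem (T : Finset α) (g : alternatingGroup T) {x : α} (hx : x ∈ T) :
    (jT T g : Perm α) x ∈ T := by
  have : (jT T g : Perm α) x = ((g : Perm T) ⟨x, hx⟩ : α) := Perm.ofSubtype_apply_of_mem _ hx
  rw [this]
  exact ((g : Perm T) ⟨x, hx⟩).2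

theorem exists_jT {T : Finset α} {g : alternatingGroup α} (hg : ∀ x, x ∉ T → (g : Perm α) x = x) :
    ∃ h : alternatingGroup T, jT T h = g := by
  have h1 : ∀ x, (g : Perm α) x ∈ T ↔ x ∈ T := by
    intro x
    constructor
    · intro h1
      by_contra h2
      rw [hg x h2] at h1
      exact h2 h1
    · intro h1
      by_contra h2
      have h3 := hg _ h2
      have h4 := (g : Perm α).injective h3
      rw [h4] at h2
      exact h2 h1
  have h2 : Perm.ofSubtype ((g : Perm α).subtypePerm h1) = (g : Perm α) :=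
    Perm.ofSubtype_subtypePerm h1 (fun x hx => by
      by_contra h3
      exact hx (hg x h3))
  refine ⟨⟨(g : Perm α).subtypePerm h1, ?_⟩, Subtype.ext h2⟩
  rw [Perm.mem_alternatingGroup, ← Perm.sign_ofSubtype, h2]
  exact g.2

/-- the even permutations supported in `T` -/
def altSub (T : Finset α) : Subgroup (alternatingGroup α) where
  carrier := {g | ∀ x, x ∉ T → (g : Perm α) x = x}
  one_mem' := fun x _ => rfl
  mul_mem' := by
    intro a b ha hb x hx
    rw [Subgroup.coe_mul, Perm.mul_apply, hb x hx, ha x hx]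
  inv_mem' := by
    intro a ha x hx
    rw [Subgroup.coe_inv, Perm.inv_eq_iff_eq, ha x hx]

/-- all even permutations supported in `T` fix `v` -/
def FixT {V : Type*} [MulAction (alternatingGroup α) V] (v : V) (T : Finset α) : Prop :=
  ∀ g : alternatingGroup α, (∀ x, x ∉ T → (g : Perm α) x = x) → g • v = v

theorem card_alt {T : Finset α} (hT : 2 ≤ T.card) :
    2 * Nat.card (alternatingGroup T) = Nat.factorial T.card := by
  have : Nontrivial T := Fintype.one_lt_card_iff_nontrivial.1 (by rw [Fintype.card_coe]; omega)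
  rw [two_mul_nat_card_alternatingGroup, Nat.card_perm, Nat.card_eq_fintype_card, Fintype.card_coe]

omit [Fintype α] in
theorem simple_alt {T : Finset α} (hT : 5 ≤ T.card) : IsSimpleGroup (alternatingGroup T) := by
  apply alternatingGroup.isSimpleGroup
  rw [Nat.card_eq_fintype_card, Fintype.card_coe]
  exact hT

theorem kminor_of_blocks {V : Type*} [Finite V] [MulAction (alternatingGroup α) V]
    {Y : SimpleGraph V}
    (hadj : ∀ (g : alternatingGroup α) (a b : V), Y.Adj a b → Y.Adj (g • a) (g • b))
    (hconn : Y.Connected) {ι : Type*} [DecidableEq ι] (T : ι → Finset α) (J : Finset ι) (i₀ : ι)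
    (hi₀ : i₀ ∉ J) {k : ℕ} (hk : ∀ i ∈ insert i₀ J, k ≤ (T i).card)
    (h5 : ∀ i ∈ insert i₀ J, 5 ≤ (T i).card)
    (hlt : ∀ i ∈ J, (T i).card < (T i₀).card)
    (hdisj : ∀ i ∈ insert i₀ J, ∀ j ∈ insert i₀ J, i ≠ j → Disjoint (T i) (T j))
    (hFA : ∃ u : V, FixT u (T i₀)) (hFB : ∃ v : V, ∀ i ∈ J, FixT v (T i))
    (hno : ∀ v : V, ¬ ∀ i ∈ insert i₀ J, FixT v (T i)) : HasKMinor Y k := by
  classical
  have hmem0 : i₀ ∈ insert i₀ J := Finset.mem_insert_self _ _
  have hsimple : IsSimpleGroup (alternatingGroup (T i₀)) := simple_alt (h5 i₀ hmem0)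
  let B : Subgroup (alternatingGroup α) := ⨆ i ∈ J, altSub (T i)
  have hBle : ∀ i ∈ J, altSub (T i) ≤ B := fun i hi => le_iSup₂_of_le i hi le_rfl
  -- properties of the elements of `B`
  let K : Subgroup (alternatingGroup α) :=
    { carrier := {g | (∀ x, (∀ i ∈ J, x ∉ T i) → (g : Perm α) x = x) ∧
        ∀ i ∈ J, ∀ x, (g : Perm α) x ∈ T i ↔ x ∈ T i}
      one_mem' := ⟨fun x _ => rfl, fun i _ x => Iff.rfl⟩
      mul_mem' := by
        rintro a b ⟨ha1, ha2⟩ ⟨hb1, hb2⟩
        refine ⟨fun x hx => ?_, fun i hi x => ?_⟩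
        · rw [Subgroup.coe_mul, Perm.mul_apply, hb1 x hx, ha1 x hx]
        · rw [Subgroup.coe_mul, Perm.mul_apply, ha2 i hi, hb2 i hi]
      inv_mem' := by
        rintro a ⟨ha1, ha2⟩
        refine ⟨fun x hx => ?_, fun i hi x => ?_⟩
        · rw [Subgroup.coe_inv, Perm.inv_eq_iff_eq, ha1 x hx]
        · rw [Subgroup.coe_inv, ← ha2 i hi]
          change (a : Perm α) ((a : Perm α)⁻¹ x) ∈ T i ↔ _
          rw [show (a : Perm α) ((a : Perm α)⁻¹ x) = x from (a : Perm α).apply_symm_apply x] }
  have hBK : B ≤ K := by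
    refine iSup₂_le (fun i hi g hg => ⟨fun x hx => hg x (hx i hi), fun j hj x => ?_⟩)
    by_cases hij : i = j
    · subst hij
      obtain ⟨h, rfl⟩ := exists_jT hg
      constructor
      · intro h1
        by_contra h2
        rw [jT_fix _ _ h2] at h1
        exact h2 h1
      · exact jT_mem _ _
    · have hd := hdisj i (Finset.mem_insert_of_mem hi) j (Finset.mem_insert_of_mem hj) hij
      constructor
      · intro h1
        have h2 : (g : Perm α) x ∉ T i := fun h => Finset.disjoint_left.1 hd h h1
        have h3 := hg _ h2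
        have h4 := (g : Perm α).injective h3
        rwa [h4] at h1
      · intro h1
        have h2 : x ∉ T i := fun h => Finset.disjoint_left.1 hd h h1
        rw [hg x h2]
        exact h1
  have hcomm : ∀ (a : alternatingGroup (T i₀)) (b : B), jT (T i₀) a * (b : alternatingGroup α) =
      (b : alternatingGroup α) * jT (T i₀) a := by
    intro a b
    apply Subtype.ext
    have h1 : Perm.Disjoint (jT (T i₀) a : Perm α) ((b : alternatingGroup α) : Perm α) := by
      intro x
      by_cases hx : x ∈ T i₀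
      · right
        apply (hBK b.2).1
        intro i hi hxi
        exact Finset.disjoint_left.1 (hdisj i₀ hmem0 i (Finset.mem_insert_of_mem hi)
          (fun h => hi₀ (h ▸ hi))) hx hxi
      · left
        exact jT_fix _ _ hx
    exact h1.commute
  let _ : MulAction (alternatingGroup (T i₀)) V := MulAction.compHom V (jT (T i₀))
  have hsm : ∀ (a : alternatingGroup (T i₀)) (v : V), a • v = jT (T i₀) a • v := fun _ _ => rfl
  have hsmB : ∀ (b : B) (v : V), b • v = (b : alternatingGroup α) • v := fun _ _ => rfl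
  have : SMulCommClass (alternatingGroup (T i₀)) B V := ⟨fun a b v => by
    rw [hsm, hsmB, hsmB, hsm, smul_smul, smul_smul, hcomm]⟩
  have hfixA : ∀ v : V, (∀ a : alternatingGroup (T i₀), a • v = v) ↔ FixT v (T i₀) := by
    intro v
    constructor
    · intro h g hg
      obtain ⟨a, rfl⟩ := exists_jT hg
      exact h a
    · intro h a
      exact h _ (fun x hx => jT_fix _ _ hx)
  have hfixB : ∀ v : V, (∀ b : B, b • v = v) ↔ ∀ i ∈ J, FixT v (T i) := by
    intro v
    constructor
    · intro h i hi g hg
      exact h ⟨g, hBle i hi hg⟩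
    · intro h
      have h1 : B ≤ stabilizer (alternatingGroup α) v :=
        iSup₂_le (fun i hi g hg => h i hi g hg)
      exact fun b => h1 b.2
  refine kminor_of_commuting (A := alternatingGroup (T i₀)) (B := B) (fun a x y h => hadj _ _ _ h)
    (fun b x y h => hadj _ _ _ h) hconn ?_ ?_ ?_ ?_ ?_
  · obtain ⟨u, hu⟩ := hFA
    exact ⟨u, (hfixA u).2 hu⟩
  · obtain ⟨v, hv⟩ := hFB
    exact ⟨v, (hfixB v).2 hv⟩
  · intro v h1 h2
    apply hno v
    intro i hi
    rcases Finset.mem_insert.1 hi with rfl | hi
    · exact (hfixA v).1 h1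
    · exact (hfixB v).1 h2 i hi
  · intro v hv
    refine (hk i₀ hmem0).trans (orbit_ge (card_alt (by have := h5 i₀ hmem0; omega))
      (by have := h5 i₀ hmem0; omega) _ ?_)
    intro hall
    let ρ : ∀ i : J, B →* Perm (T i.1) := fun i =>
      MonoidHom.mk' (fun b => ((b : alternatingGroup α) : Perm α).subtypePerm
        (fun x => (hBK b.2).2 i.1 i.2 x)) (fun a b => by ext x; rfl)
    refine no_diag (A := alternatingGroup (T i₀)) (B := B) (Finset.univ : Finset J)
      (X := fun i => Perm (T i.1)) ρ ?_ ?_ v hv ?_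
    · intro b hb
      apply Subtype.ext
      apply Subtype.ext
      ext x
      by_cases hx : ∃ i, i ∈ J ∧ x ∈ T i
      · obtain ⟨i, hi, hxi⟩ := hx
        have h1 := hb ⟨i, hi⟩ (Finset.mem_univ _)
        have h2 := Perm.congr_fun h1 ⟨x, hxi⟩
        exact congrArg Subtype.val h2
      · push Not at hx
        exact (hBK b.2).1 x hx
    · intro i _
      rw [Nat.card_perm, Nat.card_eq_fintype_card, Fintype.card_coe]
      have h1 := card_alt (T := T i₀) (by have := h5 i₀ hmem0; omega)
      have h2 := hlt i.1 i.2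
      have h3 : (T i.1).card ≤ (T i₀).card - 1 := by omega
      have h4 := Nat.factorial_le h3
      have h6 := h5 i₀ hmem0
      obtain ⟨t, ht⟩ : ∃ t, (T i₀).card = t + 1 := ⟨(T i₀).card - 1, by omega⟩
      rw [ht, Nat.factorial_succ] at h1
      rw [ht, Nat.add_sub_cancel] at h4
      have h7 := Nat.factorial_pos t
      have h8 : 4 ≤ t := by omega
      nlinarith
    · intro a
      have h1 := hall a
      have h2 : a • v ∈ a • (orbit B v : Set V) := ⟨v, mem_orbit_self v, rfl⟩
      rw [h1] at h2
      obtain ⟨b, hb⟩ := h2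
      exact ⟨b, hb.symm⟩
  · intro u hu
    rw [hfixB] at hu
    push Not at hu
    obtain ⟨i, hi, hui⟩ := hu
    unfold FixT at hui
    push Not at hui
    obtain ⟨g, hg, hgu⟩ := hui
    have hmem : i ∈ insert i₀ J := Finset.mem_insert_of_mem hi
    have hs : IsSimpleGroup (alternatingGroup (T i)) := simple_alt (h5 i hmem)
    let _ : MulAction (alternatingGroup (T i)) V := MulAction.compHom V (jT (T i))
    obtain ⟨a, rfl⟩ := exists_jT hg
    have h1 := orbit_ge (A := alternatingGroup (T i)) (card_alt (by have := h5 i hmem; omega))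
      (by have := h5 i hmem; omega) u (fun h => hgu (h a))
    refine ((hk i hmem).trans h1).trans (Set.ncard_le_ncard ?_ (Set.toFinite _))
    rintro _ ⟨a, rfl⟩
    exact ⟨⟨jT (T i) a, hBle i hi (fun x hx => jT_fix _ _ hx)⟩, rfl⟩

end

end Pool.Agent.Helper999.HM
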