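import Mathlib

set_option autoImplicit false

namespace Pool.Agent.Helper999.HM

open MulAction

section
variable {A W : Type*} [Group A] [Fintype A] [MulAction A W] [Fintype W] [DecidableEq W]

/-- number of group elements moving `x` to `v` -/
def cnt (x v : W) : ℕ := ∑ a : A, if a • x = v then 1 else 0

/-- number of group elements moving `x` to `v` and `y` to `u` -/
def cnt2 (x y v u : W) : ℕ := ∑ a : A, if a • x = v ∧ a • y = u then 1 else 0

omit [Fintype W] in
theorem cnt_le {k : ℕ} {x : W} (hk : k ≤ (orbit A x).ncard) (v : W) :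
    k * cnt (A := A) x v ≤ Fintype.card A := by
  by_cases hv : ∃ b : A, b • x = v
  · obtain ⟨b, rfl⟩ := hv
    have h1 : cnt (A := A) x (b • x) = Nat.card (stabilizer A x) := by
      unfold cnt
      rw [Finset.sum_boole, Nat.cast_id, ← Fintype.card_subtype, ← Nat.card_eq_fintype_card]
      refine Nat.card_congr ⟨fun a => ⟨b⁻¹ * a.1, ?_⟩, fun s => ⟨b * s.1, ?_⟩, fun a => ?_, fun s => ?_⟩
      · rw [mem_stabilizer_iff, mul_smul, a.2, inv_smul_smul]
      · rw [mul_smul, mem_stabilizer_iff.1 s.2]
      · apply Subtype.ext; simp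
      · apply Subtype.ext; simp
    rw [h1]
    have h2 : Nat.card (orbit A x) * Nat.card (stabilizer A x) = Nat.card A := by
      rw [← Nat.card_prod]
      exact Nat.card_congr (orbitProdStabilizerEquivGroup A x)
    rw [Nat.card_coe_set_eq, Nat.card_eq_fintype_card (α := A)] at h2
    rw [← h2]
    exact Nat.mul_le_mul_right _ hk
  · have h1 : cnt (A := A) x v = 0 := by
      unfold cnt
      apply Finset.sum_eq_zero
      intro a _
      rw [if_neg]
      exact fun h => hv ⟨a, h⟩
    rw [h1, mul_zero]
    exact Nat.zero_le _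

theorem sum_cnt (x : W) : ∑ v, cnt (A := A) x v = Fintype.card A := by
  unfold cnt
  rw [Finset.sum_comm]
  simp

theorem sum_cnt2_right (x y v : W) : ∑ u, cnt2 (A := A) x y v u = cnt (A := A) x v := by
  unfold cnt2 cnt
  rw [Finset.sum_comm]
  apply Finset.sum_congr rfl
  intro a _
  by_cases h : a • x = v
  · simp [h]
  · simp [h]

theorem sum_cnt2_left (x y u : W) : ∑ v, cnt2 (A := A) x y v u = cnt (A := A) y u := by
  unfold cnt2 cnt
  rw [Finset.sum_comm]
  apply Finset.sum_congr rfl
  intro a _
  by_cases h : a • y = u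
  · simp [h]
  · simp [h]

/-- Hall's theorem for a nonnegative integer matrix with constant row and column sums -/
theorem exists_matching {X Z : Type*} [Fintype X] [Fintype Z] [DecidableEq Z] (M : X → Z → ℕ)
    {N : ℕ} (hN : 0 < N) (hrow : ∀ x, ∑ z, M x z = N) (hcol : ∀ z, ∑ x, M x z = N) :
    ∃ f : X → Z, Function.Bijective f ∧ ∀ x, 0 < M x (f x) := by
  classical
  obtain ⟨f, hf, hfM⟩ := (Finset.all_card_le_biUnion_card_iff_exists_injective
    (fun x => Finset.univ.filter (fun z => 0 < M x z))).1 (by
      intro s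
      have h1 : s.card * N ≤ (s.biUnion (fun x => Finset.univ.filter (fun z => 0 < M x z))).card * N := by
        calc s.card * N = ∑ x ∈ s, ∑ z, M x z := by
              rw [Finset.sum_congr rfl (fun x _ => hrow x), Finset.sum_const, smul_eq_mul]
          _ = ∑ x ∈ s, ∑ z ∈ s.biUnion (fun x => Finset.univ.filter (fun z => 0 < M x z)), M x z := by
              apply Finset.sum_congr rfl
              intro x hx
              symm
              apply Finset.sum_subset (Finset.subset_univ _)
              intro z _ hz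
              by_contra h
              apply hz
              rw [Finset.mem_biUnion]
              exact ⟨x, hx, by simp; omega⟩
          _ = ∑ z ∈ s.biUnion (fun x => Finset.univ.filter (fun z => 0 < M x z)), ∑ x ∈ s, M x z :=
              Finset.sum_comm
          _ ≤ ∑ z ∈ s.biUnion (fun x => Finset.univ.filter (fun z => 0 < M x z)), ∑ x, M x z := by
              apply Finset.sum_le_sum
              intro z _
              exact Finset.sum_le_sum_of_subset (Finset.subset_univ _)
          _ = (s.biUnion (fun x => Finset.univ.filter (fun z => 0 < M x z))).card * N := by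
              rw [Finset.sum_congr rfl (fun z _ => hcol z), Finset.sum_const, smul_eq_mul]
      exact Nat.le_of_mul_le_mul_right h1 hN)
  have hcard : Fintype.card X = Fintype.card Z := by
    have h1 : ∑ x, ∑ z, M x z = ∑ z, ∑ x, M x z := Finset.sum_comm
    rw [Finset.sum_congr rfl (fun x _ => hrow x), Finset.sum_congr rfl (fun z _ => hcol z),
      Finset.sum_const, Finset.sum_const, smul_eq_mul, smul_eq_mul, Finset.card_univ,
      Finset.card_univ] at h1
    exact Nat.eq_of_mul_eq_mul_right hN h1
  refine ⟨f, (Fintype.bijective_iff_injective_and_card f).2 ⟨hf, hcard⟩, fun x => ?_⟩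
  have := hfM x
  simpa using this

/-- the transport matrix -/
def tmat (A : Type*) {W : Type*} [Group A] [Fintype A] [MulAction A W] [DecidableEq W]
    (w : ℕ → W) (d k : ℕ) : (Fin k ⊕ (Fin (d + 1) × W)) → ((Fin (d + 1) × W) ⊕ Fin k) → ℕ
  | Sum.inl _, Sum.inl z => if (z.1 : ℕ) = 0 then cnt (A := A) (w 0) z.2 else 0
  | Sum.inl _, Sum.inr _ => 0
  | Sum.inr y, Sum.inl z => (if z = y then Fintype.card A - k * cnt (A := A) (w y.1) y.2 else 0) +
      (if (z.1 : ℕ) = y.1 + 1 then k * cnt2 (A := A) (w y.1) (w (y.1 + 1)) y.2 z.2 else 0)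
  | Sum.inr y, Sum.inr _ => if (y.1 : ℕ) = d then cnt (A := A) (w d) y.2 else 0

theorem tmat_row (w : ℕ → W) (d k : ℕ) (h : ∀ i ≤ d, k ≤ (orbit A (w i)).ncard)
    (x : Fin k ⊕ (Fin (d + 1) × W)) : ∑ z, tmat A w d k x z = Fintype.card A := by
  rcases x with j | ⟨i, v⟩
  · rw [Fintype.sum_sum_type]
    simp only [tmat, Finset.sum_const_zero, add_zero]
    rw [Fintype.sum_prod_type, Finset.sum_eq_single (⟨0, Nat.succ_pos d⟩ : Fin (d + 1))]
    · simp only [if_true]
      exact sum_cnt _
    · intro i _ hi
      apply Finset.sum_eq_zero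
      intro v _
      rw [if_neg]
      intro h1
      exact hi (Fin.ext h1)
    · intro h1; exact absurd (Finset.mem_univ _) h1
  · have hi : (i : ℕ) ≤ d := Nat.lt_succ_iff.1 i.2
    have hle := cnt_le (A := A) (h i hi) v
    rw [Fintype.sum_sum_type]
    simp only [tmat, Finset.sum_add_distrib, Finset.sum_ite_eq', Finset.mem_univ, if_true]
    rw [Fintype.sum_prod_type]
    by_cases hid : (i : ℕ) = d
    · have hwd : w d = w i := by rw [hid]
      rw [Finset.sum_eq_zero, if_pos hid, Finset.sum_const, Finset.card_univ, Fintype.card_fin,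
        smul_eq_mul, hwd]
      · omega
      · intro i' _
        apply Finset.sum_eq_zero
        intro v' _
        rw [if_neg]
        simp only
        have := i'.2
        omega
    · rw [if_neg hid, Finset.sum_const_zero, add_zero,
        Finset.sum_eq_single (⟨i + 1, by omega⟩ : Fin (d + 1))]
      · simp only [if_true]
        rw [← Finset.mul_sum, sum_cnt2_right]
        omega
      · intro i' _ hi'
        apply Finset.sum_eq_zero
        intro v' _
        rw [if_neg]
        intro h1
        exact hi' (Fin.ext h1)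
      · intro h1; exact absurd (Finset.mem_univ _) h1

theorem tmat_col (w : ℕ → W) (d k : ℕ) (h : ∀ i ≤ d, k ≤ (orbit A (w i)).ncard)
    (z : (Fin (d + 1) × W) ⊕ Fin k) : ∑ x, tmat A w d k x z = Fintype.card A := by
  rcases z with ⟨i, v⟩ | j
  · have hi : (i : ℕ) ≤ d := Nat.lt_succ_iff.1 i.2
    have hle := cnt_le (A := A) (h i hi) v
    rw [Fintype.sum_sum_type]
    simp only [tmat, Finset.sum_add_distrib, Finset.sum_ite_eq, Finset.mem_univ, if_true,
      Finset.sum_const, Finset.card_univ, Fintype.card_fin, smul_eq_mul]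
    rw [Fintype.sum_prod_type (f := fun x : Fin (d + 1) × W =>
      if (i : ℕ) = x.1 + 1 then k * cnt2 (A := A) (w x.1) (w (x.1 + 1)) x.2 v else 0)]
    by_cases hi0 : (i : ℕ) = 0
    · rw [if_pos hi0, Finset.sum_eq_zero, hi0]
      · rw [hi0] at hle; omega
      · intro i' _
        apply Finset.sum_eq_zero
        intro v' _
        rw [if_neg]
        simp only
        omega
    · rw [if_neg hi0, Finset.sum_eq_single (⟨i - 1, by omega⟩ : Fin (d + 1))]
      · have h1 : (i : ℕ) - 1 + 1 = i := by omega
        simp only [h1, if_true]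
        rw [← Finset.mul_sum, sum_cnt2_left]
        omega
      · intro i' _ hi'
        apply Finset.sum_eq_zero
        intro v' _
        rw [if_neg]
        intro h1
        apply hi'
        apply Fin.ext
        simp only at h1 ⊢
        omega
      · intro h1; exact absurd (Finset.mem_univ _) h1
  · rw [Fintype.sum_sum_type]
    simp only [tmat, Finset.sum_const_zero, zero_add]
    rw [Fintype.sum_prod_type, Finset.sum_eq_single (⟨d, Nat.lt_succ_self d⟩ : Fin (d + 1))]
    · simp only [if_true]
      exact sum_cnt _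
    · intro i _ hi
      apply Finset.sum_eq_zero
      intro v _
      rw [if_neg]
      intro h1
      exact hi (Fin.ext h1)
    · intro h1; exact absurd (Finset.mem_univ _) h1

omit [Fintype W] in
theorem cnt_pos {x v : W} (h : 0 < cnt (A := A) x v) : ∃ a : A, a • x = v := by
  by_contra hcon
  push Not at hcon
  have : cnt (A := A) x v = 0 := by
    unfold cnt
    exact Finset.sum_eq_zero (fun a _ => if_neg (hcon a))
  omega

omit [Fintype W] in
theorem cnt2_pos {x y v u : W} (h : 0 < cnt2 (A := A) x y v u) :
    ∃ a : A, a • x = v ∧ a • y = u := by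
  by_contra hcon
  have : cnt2 (A := A) x y v u = 0 := by
    unfold cnt2
    exact Finset.sum_eq_zero (fun a _ => if_neg (fun h => hcon ⟨a, h⟩))
  omega

/-- `k` disjoint transversal paths through orbits of size at least `k` -/
theorem layer (w : ℕ → W) (d k : ℕ) (h : ∀ i ≤ d, k ≤ (orbit A (w i)).ncard) :
    ∃ v : ℕ → Fin k → W, (∀ i ≤ d, Function.Injective (v i)) ∧
      (∀ i ≤ d, ∀ j, v i j ∈ orbit A (w i)) ∧
      ∀ i < d, ∀ j, ∃ a : A, v i j = a • w i ∧ v (i + 1) j = a • w (i + 1) := by
  classical
  obtain ⟨f, hf, hfM⟩ := exists_matching (tmat A w d k) (Fintype.card_pos (α := A))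
    (tmat_row w d k h) (tmat_col w d k h)
  let out : ((Fin (d + 1) × W) ⊕ Fin k) → W := fun z => Sum.elim (fun z => z.2) (fun _ => w 0) z
  let ix : ℕ → Fin (d + 1) := fun i => ⟨min i d, by omega⟩
  have hix : ∀ i ≤ d, ((ix i : Fin (d + 1)) : ℕ) = i := fun i hi => by simp [ix]; omega
  let v : ℕ → Fin k → W := fun i => Nat.rec (motive := fun _ => Fin k → W)
    (fun j => out (f (Sum.inl j))) (fun i vi j => out (f (Sum.inr (ix i, vi j)))) i
  have hv0 : ∀ j, v 0 j = out (f (Sum.inl j)) := fun j => rfl
  have hvs : ∀ i j, v (i + 1) j = out (f (Sum.inr (ix i, v i j))) := fun i j => rfl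
  have base : ∀ j, f (Sum.inl j) = Sum.inl (ix 0, v 0 j) ∧ v 0 j ∈ orbit A (w 0) := by
    intro j
    have h1 := hfM (Sum.inl j)
    rw [hv0]
    rcases hfj : f (Sum.inl j) with z | z
    · rw [hfj] at h1
      simp only [tmat] at h1
      by_cases hz : (z.1 : ℕ) = 0
      · rw [if_pos hz] at h1
        refine ⟨?_, cnt_pos h1⟩
        congr 1
        refine Prod.ext (Fin.ext ?_) rfl
        rw [hix 0 (Nat.zero_le _)]
        exact hz
      · rw [if_neg hz] at h1
        omega
    · rw [hfj] at h1
      simp only [tmat] at h1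
      omega
  have step : ∀ i < d, ∀ j, (∃ x, f x = Sum.inl (ix i, v i j) ∧ x ≠ Sum.inr (ix i, v i j)) →
      f (Sum.inr (ix i, v i j)) = Sum.inl (ix (i + 1), v (i + 1) j) ∧
      ∃ a : A, v i j = a • w i ∧ v (i + 1) j = a • w (i + 1) := by
    rintro i hi j ⟨x, hx, hxne⟩
    have h1 := hfM (Sum.inr (ix i, v i j))
    rw [hvs]
    rcases hfj : f (Sum.inr (ix i, v i j)) with z | z
    · rw [hfj] at h1
      have hzne : z ≠ (ix i, v i j) := by
        intro hz
        rw [hz, ← hx] at hfj
        exact hxne (hf.injective hfj).symm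
      simp only [tmat] at h1
      rw [if_neg hzne, zero_add, hix i hi.le] at h1
      by_cases hz : (z.1 : ℕ) = i + 1
      · rw [if_pos hz] at h1
        obtain ⟨a, ha1, ha2⟩ := cnt2_pos (Nat.pos_of_mul_pos_left h1 |> fun h => h)
        refine ⟨?_, a, ha1.symm, ha2.symm⟩
        congr 1
        refine Prod.ext (Fin.ext ?_) rfl
        rw [hix (i + 1) hi]
        exact hz
      · rw [if_neg hz] at h1
        omega
    · rw [hfj] at h1
      simp only [tmat] at h1
      rw [hix i hi.le, if_neg (by omega)] at h1
      omega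
  have inv : ∀ i ≤ d, Function.Injective (v i) ∧ (∀ j, v i j ∈ orbit A (w i)) ∧
      ∀ j, ∃ x, f x = Sum.inl (ix i, v i j) ∧ x ≠ Sum.inr (ix i, v i j) := by
    intro i
    induction i with
    | zero =>
      intro _
      refine ⟨?_, fun j => (base j).2, fun j => ⟨Sum.inl j, (base j).1, Sum.inl_ne_inr⟩⟩
      intro j j' hjj'
      have h1 := (base j).1
      rw [hjj', ← (base j').1] at h1
      exact Sum.inl_injective (hf.injective h1)
    | succ i ih =>
      intro hi
      obtain ⟨h1, h2, h3⟩ := ih (by omega)
      refine ⟨?_, ?_, ?_⟩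
      · intro j j' hjj'
        have h4 := (step i hi j (h3 j)).1
        rw [hjj', ← (step i hi j' (h3 j')).1] at h4
        have h5 := Sum.inr_injective (hf.injective h4)
        exact h1 (congrArg Prod.snd h5)
      · intro j
        obtain ⟨_, a, _, ha⟩ := step i hi j (h3 j)
        exact ⟨a, ha.symm⟩
      · intro j
        refine ⟨_, (step i hi j (h3 j)).1, ?_⟩
        intro h4
        have h5 := congrArg (fun y : Fin (d + 1) × W => (y.1 : ℕ)) (Sum.inr_injective h4)
        simp only at h5
        rw [hix i (by omega), hix (i + 1) hi] at h5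
        omega
  exact ⟨v, fun i hi => (inv i hi).1, fun i hi => (inv i hi).2.1,
    fun i hi j => (step i hi j ((inv i hi.le).2.2 j)).2⟩

end

end Pool.Agent.Helper999.HM
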