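import Pool.Agent.Helper999.HMBasic
import Pool.Agent.Helper999.HMLayer

set_option autoImplicit false

namespace Pool.Agent.Helper999.HM

open SimpleGraph MulAction
open scoped Pointwise

section
variable {A B V : Type*} [Group A] [Group B] [MulAction A V] [MulAction B V] [SMulCommClass A B V]

/-- the product of two commuting actions -/
@[reducible] def prodAction (A B V : Type*) [Group A] [Group B] [MulAction A V] [MulAction B V]
    [SMulCommClass A B V] : MulAction (A × B) V where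
  smul g v := g.1 • g.2 • v
  one_smul v := by
    change (1 : A) • (1 : B) • v = v
    rw [one_smul, one_smul]
  mul_smul g h v := by
    change (g.1 * h.1) • (g.2 * h.2) • v = g.1 • g.2 • h.1 • h.2 • v
    rw [mul_smul, mul_smul, smul_comm h.1 g.2]

theorem kminor_of_commuting [Finite A] [Finite V] {Y : SimpleGraph V}
    (hadjA : ∀ (g : A) (a b : V), Y.Adj a b → Y.Adj (g • a) (g • b))
    (hadjB : ∀ (g : B) (a b : V), Y.Adj a b → Y.Adj (g • a) (g • b)) (hconn : Y.Connected) {k : ℕ}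
    (hFA : ∃ u : V, ∀ a : A, a • u = u) (hFB : ∃ v : V, ∀ b : B, b • v = v)
    (hAB : ∀ v : V, (∀ a : A, a • v = v) → (∀ b : B, b • v = v) → False)
    (hA : ∀ v : V, (¬ ∀ a : A, a • v = v) → k ≤ (orbit A (orbit B v : Set V)).ncard)
    (hB : ∀ u : V, (¬ ∀ b : B, b • u = u) → k ≤ (orbit B u).ncard) : HasKMinor Y k := by
  classical
  have := Fintype.ofFinite A
  have := Fintype.ofFinite V
  let _ : MulAction (A × B) V := prodAction A B V
  have hsm : ∀ (g : A × B) (v : V), g • v = g.1 • g.2 • v := fun _ _ => rfl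
  obtain ⟨u₀, hu₀⟩ := hFA
  obtain ⟨v₀, hv₀⟩ := hFB
  obtain ⟨d, f, h0, hd, hfadj, hfT, -, hinj⟩ := exists_shortest (Γ := A × B) (Y := Y)
    (fun g a b h => hadjA _ _ _ (hadjB _ _ _ h)) hconn
    {v | ∀ b : B, b • v = v} {u | ∀ a : A, a • u = u} ⟨v₀, hv₀⟩ ⟨u₀, hu₀⟩
    (by
      intro g v hv b
      rw [hsm, hv g.2, ← smul_comm, hv b])
  simp only [Set.mem_ofPred_eq] at h0 hd hfT
  have hd0 : 0 < d := by
    rcases Nat.eq_zero_or_pos d with h | h
    · subst h; exact (hAB _ hd h0).elim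
    · exact h
  have hdB : ¬ ∀ b : B, b • f d = f d := fun h => hAB _ hd h
  obtain ⟨v, hvinj, hvorb, hvstep⟩ := layer (A := A) (W := Set V) (fun i => (orbit B (f i) : Set V))
    (d - 1) k (fun i hi => hA (f i) (hfT i (by omega)))
  obtain ⟨c⟩ : Nonempty (Fin k ↪ orbit B (f d)) := by
    have := hB _ hdB
    apply Function.Embedding.nonempty_of_card_le
    rw [Fintype.card_fin, ← Nat.card_eq_fintype_card, Nat.card_coe_set_eq]
    exact this
  -- membership in a layer
  have hmem : ∀ i < d, ∀ j, ∀ x ∈ v i j, ∃ (a : A) (b : B), x = a • b • f i ∧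
      v i j = a • (orbit B (f i) : Set V) := by
    intro i hi j x hx
    obtain ⟨a, ha⟩ := hvorb i (by omega) j
    have ha' : a • (orbit B (f i) : Set V) = v i j := ha
    rw [← ha'] at hx
    obtain ⟨y, ⟨b, rfl⟩, rfl⟩ := hx
    exact ⟨a, b, rfl, ha'.symm⟩
  have hlevel : ∀ i i', i ≤ d → i' ≤ d → ∀ (a a' : A) (b b' : B),
      a • b • f i = a' • b' • f i' → i = i' := by
    intro i i' hi hi' a a' b b' h
    refine hinj i i' hi hi' ((a', b')⁻¹ * (a, b)) ?_
    rw [mul_smul, inv_smul_eq_iff]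
    exact h
  refine hasKMinor_of_biclique (fun j => {x | ∃ i < d, x ∈ v i j}) (fun m => {(c m : V)})
    ?_ ?_ ?_ ?_ ?_ ?_
  · intro j
    obtain ⟨a₀, ha₀⟩ := hvorb 0 (Nat.zero_le _) j
    have ha₀' : a₀ • (orbit B (f 0) : Set V) = v 0 j := ha₀
    have hb : a₀ • f 0 ∈ {x | ∃ i < d, x ∈ v i j} := by
      refine ⟨0, hd0, ?_⟩
      rw [← ha₀']
      exact ⟨f 0, mem_orbit_self _, rfl⟩
    refine conn_of_base hb ?_
    rintro x ⟨i, hi, hx⟩
    induction i generalizing x with
    | zero =>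
      rw [← ha₀'] at hx
      obtain ⟨y, ⟨b, rfl⟩, rfl⟩ := hx
      simp only
      rw [h0 b]
    | succ i ih =>
      obtain ⟨a, ha1, ha2⟩ := hvstep i (by omega) j
      rw [ha2] at hx
      obtain ⟨y, ⟨b, rfl⟩, rfl⟩ := hx
      refine Relation.ReflTransGen.tail (ih (a • b • f i) (by omega) ?_) ⟨?_, i + 1, hi, ?_⟩
      · rw [ha1]
        exact ⟨b • f i, ⟨b, rfl⟩, rfl⟩
      · exact hadjA _ _ _ (hadjB _ _ _ (hfadj i (by omega)))
      · rw [ha2]
        exact ⟨b • f (i + 1), ⟨b, rfl⟩, rfl⟩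
  · intro m
    exact conn_singleton _ _
  · intro j j' hjj'
    rw [Set.disjoint_left]
    rintro x ⟨i, hi, hx⟩ ⟨i', hi', hx'⟩
    obtain ⟨a, b, hxa, hva⟩ := hmem i hi j x hx
    obtain ⟨a', b', hxa', hva'⟩ := hmem i' hi' j' x hx'
    have hii := hlevel i i' hi.le hi'.le a a' b b' (hxa.symm.trans hxa')
    subst hii
    apply hjj'
    apply hvinj i (by omega)
    have h1 : ∀ a : A, a • (orbit B (f i) : Set V) = orbit B (a • f i) := by
      intro a
      ext y
      constructor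
      · rintro ⟨z, ⟨b, rfl⟩, rfl⟩
        exact ⟨b, (smul_comm a b (f i)).symm⟩
      · rintro ⟨b, rfl⟩
        exact ⟨b • f i, ⟨b, rfl⟩, smul_comm a b (f i)⟩
    rw [hva, hva', h1, h1]
    rw [orbit_eq_iff]
    refine ⟨b⁻¹ * b', ?_⟩
    change (b⁻¹ * b') • a' • f i = a • f i
    rw [mul_smul, ← smul_comm a' b', ← hxa', hxa, smul_comm a b, inv_smul_smul]
  · intro m m' hmm'
    rw [Set.disjoint_singleton]
    intro h
    exact hmm' (c.injective (Subtype.ext h))
  · intro j m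
    rw [Set.disjoint_singleton_right]
    rintro ⟨i, hi, hx⟩
    obtain ⟨a, b, hxa, _⟩ := hmem i hi j _ hx
    obtain ⟨b', hb'⟩ := (c m).2
    have h1 : a • b • f i = (1 : A) • b' • f d := by
      rw [← hxa, one_smul]
      exact hb'.symm
    have := hlevel i d hi.le le_rfl a 1 b b' h1
    omega
  · intro j m
    obtain ⟨a, ha⟩ := hvorb (d - 1) le_rfl j
    have ha' : a • (orbit B (f (d - 1)) : Set V) = v (d - 1) j := ha
    obtain ⟨b, hb⟩ := (c m).2
    have hb' : b • f d = (c m : V) := hb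
    refine ⟨a • b • f (d - 1), ⟨d - 1, by omega, ?_⟩, _, rfl, ?_⟩
    · rw [← ha']
      exact ⟨b • f (d - 1), ⟨b, rfl⟩, rfl⟩
    · have h1 : (c m : V) = a • b • f d := by
        rw [smul_comm a b, hd a, hb']
      rw [h1]
      have h2 := hfadj (d - 1) (by omega)
      rw [Nat.sub_add_cancel hd0] at h2
      exact hadjA _ _ _ (hadjB _ _ _ h2)

end

end Pool.Agent.Helper999.HM
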