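import Pool.Agent.Helper999.HMBasic

set_option autoImplicit false

namespace Pool.Agent.Helper999.HM

open SimpleGraph MulAction

section
variable {V W : Type*} [AddCommGroup W] [MulAction (Multiplicative W) V]

/-- additive form of the action -/
def act (w : W) (v : V) : V := Multiplicative.ofAdd w • v

theorem act_add (w w' : W) (v : V) : act (w + w') v = act w (act w' v) := by
  unfold act
  rw [ofAdd_add, mul_smul]

theorem act_zero (v : V) : act (0 : W) v = v := by
  unfold act
  rw [ofAdd_zero, one_smul]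

theorem act_neg_act (w : W) (v : V) : act (-w) (act w v) = v := by
  rw [← act_add, neg_add_cancel, act_zero]

theorem act_act_neg (w : W) (v : V) : act w (act (-w) v) = v := by
  rw [← act_add, add_neg_cancel, act_zero]

variable {Y : SimpleGraph V}

/-- a connected transversal of a free action -/
structure Transv (W : Type*) [AddCommGroup W] {V : Type*} [MulAction (Multiplicative W) V]
    (Y : SimpleGraph V) (Q : Set V) : Prop where
  conn : (Y.induce Q).Connected
  inj : ∀ a ∈ Q, ∀ b ∈ Q, ∀ w : W, act w a = b → a = b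
  surj : ∀ v : V, ∃ w : W, ∃ q ∈ Q, v = act w q

theorem exists_transv [Finite V] (hadj : ∀ (w : W) (a b : V), Y.Adj a b → Y.Adj (act w a) (act w b))
    (hconn : Y.Connected) : ∃ Q : Set V, Transv W Y Q := by
  classical
  obtain ⟨x₀⟩ := hconn.nonempty
  let good : Set (Set V) := {Q | (Y.induce Q).Connected ∧ ∀ a ∈ Q, ∀ b ∈ Q, ∀ w : W, act w a = b → a = b}
  have hne : good.Nonempty := ⟨{x₀}, conn_singleton _ _, by
    rintro a rfl b rfl w _; rfl⟩
  obtain ⟨Q, hQ, hmax⟩ := Set.exists_max_image good (fun Q => Q.ncard) (Set.toFinite _) hne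
  refine ⟨Q, hQ.1, hQ.2, ?_⟩
  obtain ⟨⟨q₀, hq₀⟩⟩ := hQ.1.nonempty
  have hclosed : ∀ v v' : V, Y.Adj v v' → (∃ w : W, ∃ q ∈ Q, v = act w q) →
      ∃ w : W, ∃ q ∈ Q, v' = act w q := by
    rintro v v' hvv' ⟨w, q, hq, rfl⟩
    by_contra hcon
    push Not at hcon
    set z := act (-w) v' with hz
    have hzadj : Y.Adj q z := by
      have := hadj (-w) _ _ hvv'
      rwa [act_neg_act] at this
    have hznot : ∀ (w' : W), ∀ q' ∈ Q, z ≠ act w' q' := by
      intro w' q' hq' h
      apply hcon (w + w') q' hq'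
      rw [act_add, ← h, hz, act_act_neg]
    have hzQ : z ∉ Q := fun h => hznot 0 z h (act_zero z).symm
    have h1 : insert z Q ∈ good := by
      constructor
      · have := conn_union hQ.1 (conn_singleton Y z) hq rfl hzadj
        rwa [Set.union_singleton] at this
      · rintro a (rfl | ha) b (rfl | hb) w' h
        · rfl
        · exfalso
          apply hznot (-w') b hb
          rw [← h, act_neg_act]
        · exfalso
          exact hznot w' a ha h.symm
        · exact hQ.2 a ha b hb w' h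
    have h2 := hmax _ h1
    have h3 := Set.ncard_insert_of_notMem hzQ (Set.toFinite _)
    omega
  intro v
  obtain ⟨p⟩ := hconn.preconnected q₀ v
  have key : ∀ (a b : V) (p : Y.Walk a b), (∃ w : W, ∃ q ∈ Q, a = act w q) →
      ∃ w : W, ∃ q ∈ Q, b = act w q := by
    intro a b p
    induction p with
    | nil => exact id
    | cons h _ ih => exact fun ha => ih (hclosed _ _ h ha)
  exact key _ _ p ⟨0, q₀, hq₀, (act_zero _).symm⟩

variable {p : ℕ} [Fact p.Prime] [Module (ZMod p) W]

theorem line_conn (hadj : ∀ (w : W) (a b : V), Y.Adj a b → Y.Adj (act w a) (act w b))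
    {Q : Set V} (hQ : (Y.induce Q).Connected) (w₀ x : W)
    (hx : ∃ q ∈ Q, ∃ q' ∈ Q, Y.Adj q (act x q')) :
    (Y.induce {v | ∃ u : ZMod p, ∃ q ∈ Q, v = act (w₀ + u • x) q}).Connected := by
  obtain ⟨q₁, hq₁, q₂, hq₂, hadj12⟩ := hx
  set D : Set V := {v | ∃ u : ZMod p, ∃ q ∈ Q, v = act (w₀ + u • x) q} with hD
  have hb : act w₀ q₁ ∈ D := ⟨0, q₁, hq₁, by rw [zero_smul, add_zero]⟩
  refine conn_of_base hb ?_
  have hin : ∀ (u : ZMod p) (q q' : V), q ∈ Q → q' ∈ Q →
      Relation.ReflTransGen (StepIn Y D) (act (w₀ + u • x) q) (act (w₀ + u • x) q') := by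
    intro u q q' hq hq'
    have h := step_of_conn hQ hq hq'
    clear hq'
    induction h with
    | refl => exact Relation.ReflTransGen.refl
    | tail _ hs ih => exact Relation.ReflTransGen.tail ih ⟨hadj _ _ _ hs.1, u, _, hs.2, rfl⟩
  have hnat : ∀ (n : ℕ) (q : V), q ∈ Q →
      Relation.ReflTransGen (StepIn Y D) (act w₀ q₁) (act (w₀ + (n : ZMod p) • x) q) := by
    intro n
    induction n with
    | zero =>
      intro q hq
      have := hin 0 q₁ q hq₁ hq
      rw [zero_smul, add_zero] at this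
      rw [Nat.cast_zero, zero_smul, add_zero]
      exact this
    | succ n ih =>
      intro q hq
      refine Relation.ReflTransGen.trans (ih q₁ hq₁) (Relation.ReflTransGen.head ?_
        (hin ((n + 1 : ℕ) : ZMod p) q₂ q hq₂ hq))
      refine ⟨?_, _, q₂, hq₂, rfl⟩
      have := hadj (w₀ + (n : ZMod p) • x) _ _ hadj12
      rw [← act_add] at this
      have h2 : w₀ + (n : ZMod p) • x + x = w₀ + ((n + 1 : ℕ) : ZMod p) • x := by
        rw [Nat.cast_add, Nat.cast_one, add_smul, one_smul, add_assoc]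
      rwa [h2] at this
  rintro _ ⟨u, q, hq, rfl⟩
  have := hnat u.val q hq
  rwa [ZMod.natCast_zmod_val] at this

theorem kminor_of_free [Finite V] [Finite W] (hdim : 3 ≤ Module.finrank (ZMod p) W)
    (hadj : ∀ (w : W) (a b : V), Y.Adj a b → Y.Adj (act w a) (act w b))
    (hconn : Y.Connected) (hfree : ∀ (w : W) (v : V), act w v = v → w = 0) : HasKMinor Y p := by
  classical
  obtain ⟨Q, hQ⟩ := exists_transv (W := W) hadj hconn
  have huniq : ∀ (w w' : W) (q q' : V), q ∈ Q → q' ∈ Q → act w q = act w' q' → w = w' ∧ q = q' := by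
    intro w w' q q' hq hq' h
    have h1 : act (-w' + w) q = q' := by rw [act_add, h, act_neg_act]
    have h2 := hQ.inj q hq q' hq' _ h1
    subst h2
    have h3 := hfree _ _ h1
    refine ⟨?_, rfl⟩
    rw [neg_add_eq_zero] at h3
    exact h3.symm
  obtain ⟨⟨q₀, hq₀⟩⟩ := hQ.conn.nonempty
  let X : Set W := {x | ∃ q ∈ Q, ∃ q' ∈ Q, Y.Adj q (act x q')}
  have hspan : Submodule.span (ZMod p) X = ⊤ := by
    rw [eq_top_iff]
    rintro w -
    have hclosed : ∀ v v' : V, Y.Adj v v' →
        (∃ w ∈ Submodule.span (ZMod p) X, ∃ q ∈ Q, v = act w q) →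
        ∃ w ∈ Submodule.span (ZMod p) X, ∃ q ∈ Q, v' = act w q := by
      rintro v v' hvv' ⟨w, hw, q, hq, rfl⟩
      obtain ⟨w', q', hq', rfl⟩ := hQ.surj v'
      refine ⟨w', ?_, q', hq', rfl⟩
      have h1 : -w + w' ∈ X := by
        refine ⟨q, hq, q', hq', ?_⟩
        have := hadj (-w) _ _ hvv'
        rwa [act_neg_act, ← act_add] at this
      have h2 : w' = w + (-w + w') := by abel
      rw [h2]
      exact Submodule.add_mem _ hw (Submodule.subset_span h1)
    have key : ∀ (a b : V) (p' : Y.Walk a b),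
        (∃ w ∈ Submodule.span (ZMod p) X, ∃ q ∈ Q, a = act w q) →
        ∃ w ∈ Submodule.span (ZMod p) X, ∃ q ∈ Q, b = act w q := by
      intro a b p'
      induction p' with
      | nil => exact id
      | cons h _ ih => exact fun ha => ih (hclosed _ _ h ha)
    obtain ⟨p'⟩ := hconn.preconnected q₀ (act w q₀)
    obtain ⟨w', hw', q', hq', h⟩ := key _ _ p' ⟨0, Submodule.zero_mem _, q₀, hq₀, (act_zero _).symm⟩
    rw [(huniq w w' q₀ q' hq₀ hq' h).1]
    exact hw'
  obtain ⟨b, hbX, hbspan, hbli⟩ := exists_linearIndependent (ZMod p) X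
  rw [hspan] at hbspan
  have hbfin : b.Finite := Set.toFinite _
  have := hbfin.fintype
  have hcard : Fintype.card b = Module.finrank (ZMod p) W := by
    have h1 := finrank_span_eq_card hbli
    rw [← h1, Subtype.range_coe, hbspan, finrank_top]
  obtain ⟨e⟩ : Nonempty (Fin 3 ↪ b) := by
    apply Function.Embedding.nonempty_of_card_le
    rw [Fintype.card_fin, hcard]
    exact hdim
  have hli : LinearIndependent (ZMod p) (fun i => (e i : W)) := hbli.comp e e.injective
  set x : Fin 3 → W := fun i => (e i : W) with hx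
  have hxX : ∀ i, x i ∈ X := fun i => hbX (e i).2
  have hcoef : ∀ a b : Fin 3 → ZMod p,
      a 0 • x 0 + a 1 • x 1 + a 2 • x 2 = b 0 • x 0 + b 1 • x 1 + b 2 • x 2 → a = b := by
    intro a b hab
    rw [Fintype.linearIndependent_iff] at hli
    have h1 := hli (a - b) (by
      rw [Fin.sum_univ_three]
      simp only [Pi.sub_apply, sub_smul]
      rw [← sub_eq_zero] at hab
      rw [← hab]
      abel)
    funext i
    exact sub_eq_zero.1 (h1 i)
  have hcast : ∀ i j : Fin p, ((i : ℕ) : ZMod p) = ((j : ℕ) : ZMod p) → i = j := by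
    intro i j hij
    rw [ZMod.natCast_eq_natCast_iff'] at hij
    rw [Nat.mod_eq_of_lt i.2, Nat.mod_eq_of_lt j.2] at hij
    exact Fin.ext hij
  refine hasKMinor_of_biclique
    (fun i : Fin p => {v | ∃ u : ZMod p, ∃ q ∈ Q, v = act (((i : ℕ) : ZMod p) • x 1 + u • x 0) q})
    (fun i : Fin p => {v | ∃ u : ZMod p, ∃ q ∈ Q,
      v = act (((i : ℕ) : ZMod p) • x 0 + x 2 + u • x 1) q}) ?_ ?_ ?_ ?_ ?_ ?_
  · intro i
    exact line_conn hadj hQ.conn _ _ (hxX 0)
  · intro i
    exact line_conn hadj hQ.conn _ _ (hxX 1)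
  · intro i j hij
    rw [Set.disjoint_left]
    rintro _ ⟨u, q, hq, rfl⟩ ⟨u', q', hq', h⟩
    have h1 := (huniq _ _ _ _ hq hq' h).1
    have h2 := hcoef ![u, ((i : ℕ) : ZMod p), 0] ![u', ((j : ℕ) : ZMod p), 0] (by
      simp only [Matrix.cons_val_zero, Matrix.cons_val_one, Matrix.cons_val, zero_smul, add_zero]
      rw [add_comm, h1, add_comm])
    exact hij (hcast i j (congrFun h2 1))
  · intro i j hij
    rw [Set.disjoint_left]
    rintro _ ⟨u, q, hq, rfl⟩ ⟨u', q', hq', h⟩
    have h1 := (huniq _ _ _ _ hq hq' h).1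
    have h2 := hcoef ![((i : ℕ) : ZMod p), u, 1] ![((j : ℕ) : ZMod p), u', 1] (by
      simp only [Matrix.cons_val_zero, Matrix.cons_val_one, Matrix.cons_val, one_smul]
      rw [add_right_comm, h1, add_right_comm])
    exact hij (hcast i j (congrFun h2 0))
  · intro i j
    rw [Set.disjoint_left]
    rintro _ ⟨u, q, hq, rfl⟩ ⟨u', q', hq', h⟩
    have h1 := (huniq _ _ _ _ hq hq' h).1
    have h2 := hcoef ![u, ((i : ℕ) : ZMod p), 0] ![((j : ℕ) : ZMod p), u', 1] (by
      simp only [Matrix.cons_val_zero, Matrix.cons_val_one, Matrix.cons_val, one_smul, zero_smul,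
        add_zero]
      rw [add_comm, h1, add_right_comm])
    exact zero_ne_one (congrFun h2 2)
  · intro i j
    obtain ⟨q, hq, q', hq', hqq'⟩ := hxX 2
    refine ⟨_, ⟨((j : ℕ) : ZMod p), q, hq, rfl⟩, _, ⟨((i : ℕ) : ZMod p), q', hq', rfl⟩, ?_⟩
    have h1 : ((j : ℕ) : ZMod p) • x 0 + x 2 + ((i : ℕ) : ZMod p) • x 1 =
        ((i : ℕ) : ZMod p) • x 1 + ((j : ℕ) : ZMod p) • x 0 + x 2 := by abel
    rw [h1, act_add _ (x 2)]
    exact hadj _ _ _ hqq'

end

end Pool.Agent.Helper999.HM
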