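import Pool.Agent.Helper999.HMAbel
import Pool.Agent.Helper999.HMFree

set_option autoImplicit false

namespace Pool.Agent.Helper999.HM

open SimpleGraph MulAction Equiv

section
variable {m p : ℕ} {α : Type*} [Fintype α] [DecidableEq α]

/-- coordinatewise cyclic shifts of `Fin m × ZMod p` -/
def shiftHom (m p : ℕ) : Multiplicative (Fin m → ZMod p) →* Perm (Fin m × ZMod p) where
  toFun w :=
    { toFun := fun x => (x.1, x.2 + w.toAdd x.1)
      invFun := fun x => (x.1, x.2 - w.toAdd x.1)
      left_inv := fun x => by simp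
      right_inv := fun x => by simp }
  map_one' := by ext x <;> simp
  map_mul' a b := by
    ext x
    · simp
    · simp only [Perm.coe_mul, Equiv.coe_fn_mk, Function.comp_apply, toAdd_mul, Pi.add_apply]
      ring

theorem shiftHom_apply (w : Multiplicative (Fin m → ZMod p)) (x : Fin m × ZMod p) :
    shiftHom m p w x = (x.1, x.2 + w.toAdd x.1) := rfl

/-- permuting the `m` cycles -/
def idxHom (m p : ℕ) : Perm (Fin m) →* Perm (Fin m × ZMod p) where
  toFun π :=
    { toFun := fun x => (π x.1, x.2)
      invFun := fun x => (π⁻¹ x.1, x.2)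
      left_inv := fun x => by simp
      right_inv := fun x => by simp }
  map_one' := by ext x <;> simp
  map_mul' a b := by ext x <;> simp

theorem idx_shift (π : Perm (Fin m)) (w : Multiplicative (Fin m → ZMod p)) :
    idxHom m p π * shiftHom m p w * (idxHom m p π)⁻¹ =
      shiftHom m p (Multiplicative.ofAdd (fun i => w.toAdd (π⁻¹ i))) := by
  rw [mul_inv_eq_iff_eq_mul]
  ext x
  · simp [idxHom, shiftHom]
  · simp [idxHom, shiftHom]

/-- doubling one of the coordinates -/
def dbl [Fact p.Prime] (h2 : (2 : ZMod p) ≠ 0) (i₀ : Fin m) : Perm (Fin m × ZMod p) where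
  toFun x := (x.1, if x.1 = i₀ then 2 * x.2 else x.2)
  invFun x := (x.1, if x.1 = i₀ then 2⁻¹ * x.2 else x.2)
  left_inv x := by
    rcases x with ⟨i, u⟩
    by_cases h : i = i₀
    · simp only [h, if_true]
      rw [← mul_assoc, inv_mul_cancel₀ h2, one_mul]
    · simp [h]
  right_inv x := by
    rcases x with ⟨i, u⟩
    by_cases h : i = i₀
    · simp only [h, if_true]
      rw [← mul_assoc, mul_inv_cancel₀ h2, one_mul]
    · simp [h]

theorem dbl_shift [Fact p.Prime] (h2 : (2 : ZMod p) ≠ 0) (i₀ : Fin m)
    (w : Multiplicative (Fin m → ZMod p)) :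
    dbl h2 i₀ * shiftHom m p w * (dbl h2 i₀)⁻¹ =
      shiftHom m p (Multiplicative.ofAdd (fun i => if i = i₀ then 2 * w.toAdd i else w.toAdd i)) := by
  rw [mul_inv_eq_iff_eq_mul]
  ext x
  · simp [dbl, shiftHom]
  · rcases x with ⟨i, u⟩
    by_cases h : i = i₀
    · simp only [Perm.coe_mul, Function.comp_apply, shiftHom_apply, dbl, Equiv.coe_fn_mk, h,
        if_true, toAdd_ofAdd]
      ring
    · simp only [Perm.coe_mul, Function.comp_apply, shiftHom_apply, dbl, Equiv.coe_fn_mk, h,
        if_false, toAdd_ofAdd]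

theorem int_unit_of_odd_pow {u : ℤˣ} {q : ℕ} (hq : Odd q) (h : u ^ q = 1) : u = 1 := by
  rcases Int.units_eq_one_or u with h1 | h1
  · exact h1
  · rw [h1, hq.neg_one_pow] at h
    exact absurd h (by decide)

variable (e : Fin m × ZMod p ↪ α)

theorem shift_even (hp : Odd p) (w : Multiplicative (Fin m → ZMod p)) :
    Perm.viaEmbeddingHom e (shiftHom m p w) ∈ alternatingGroup α := by
  classical
  rw [Perm.mem_alternatingGroup]
  apply int_unit_of_odd_pow hp
  rw [← map_pow, ← map_pow, ← map_pow]
  have : w ^ p = 1 := by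
    have h : p • w.toAdd = 0 := by
      funext i
      simp
    have h2 : w ^ p = Multiplicative.ofAdd (p • w.toAdd) := rfl
    rw [h2, h]
    rfl
  rw [this, map_one, map_one, map_one]

/-- the elementary abelian group generated by `m` disjoint `p`-cycles -/
noncomputable def tau (hp : Odd p) : Multiplicative (Fin m → ZMod p) →* alternatingGroup α :=
  ((Perm.viaEmbeddingHom e).comp (shiftHom m p)).codRestrict (alternatingGroup α)
    (fun w => shift_even e hp w)

theorem coe_tau (hp : Odd p) (w : Multiplicative (Fin m → ZMod p)) :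
    ((tau e hp w : alternatingGroup α) : Perm α) = Perm.viaEmbeddingHom e (shiftHom m p w) := rfl

theorem conj_idx (hp : Odd p) (π : Perm (Fin m)) (hπ : π ^ 3 = 1) : ∃ c : alternatingGroup α,
    ∀ w, c * tau e hp w * c⁻¹ = tau e hp (Multiplicative.ofAdd (fun i => w.toAdd (π⁻¹ i))) := by
  have hc : Perm.viaEmbeddingHom e (idxHom m p π) ∈ alternatingGroup α := by
    rw [Perm.mem_alternatingGroup]
    apply int_unit_of_odd_pow (q := 3) (by decide)
    rw [← map_pow, ← map_pow, ← map_pow, hπ, map_one, map_one, map_one]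
  refine ⟨⟨_, hc⟩, fun w => ?_⟩
  apply Subtype.ext
  change Perm.viaEmbeddingHom e (idxHom m p π) * Perm.viaEmbeddingHom e (shiftHom m p w) *
    (Perm.viaEmbeddingHom e (idxHom m p π))⁻¹ = Perm.viaEmbeddingHom e (shiftHom m p _)
  rw [← map_mul, ← map_inv, ← map_mul, idx_shift]

theorem conj_dbl [Fact p.Prime] (h2 : (2 : ZMod p) ≠ 0) (hp : Odd p) (i₀ : Fin m) :
    ∃ c : alternatingGroup α, ∀ w, c * tau e hp w * c⁻¹ =
      tau e hp (Multiplicative.ofAdd (fun i => if i = i₀ then 4 * w.toAdd i else w.toAdd i)) := by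
  set c := Perm.viaEmbeddingHom e (dbl h2 i₀) with hc'
  have hc : c * c ∈ alternatingGroup α := by
    rw [Perm.mem_alternatingGroup, map_mul]
    rcases Int.units_eq_one_or (Perm.sign c) with h1 | h1 <;> rw [h1] <;> decide
  refine ⟨⟨_, hc⟩, fun w => ?_⟩
  apply Subtype.ext
  change (c * c) * Perm.viaEmbeddingHom e (shiftHom m p w) * (c * c)⁻¹ =
    Perm.viaEmbeddingHom e (shiftHom m p _)
  have h1 : (c * c) * Perm.viaEmbeddingHom e (shiftHom m p w) * (c * c)⁻¹ =
      Perm.viaEmbeddingHom e (dbl h2 i₀ * (dbl h2 i₀ * shiftHom m p w * (dbl h2 i₀)⁻¹) *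
        (dbl h2 i₀)⁻¹) := by
    simp only [map_mul, map_inv]
    rw [← hc']
    group
  rw [h1, dbl_shift, dbl_shift]
  congr 3
  funext i
  by_cases h : i = i₀
  · simp only [h, if_true, toAdd_ofAdd]
    ring
  · simp only [h, if_false, toAdd_ofAdd]

theorem fix_or_minor {V : Type*} [Finite V] [MulAction (alternatingGroup α) V] {Y : SimpleGraph V}
    (hadj : ∀ (g : alternatingGroup α) (a b : V), Y.Adj a b → Y.Adj (g • a) (g • b))
    (hconn : Y.Connected) (hpp : p.Prime) (hp5 : 5 ≤ p) (hm : 3 ≤ m) (hp : Odd p) :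
    HasKMinor Y p ∨ ∃ v : V, ∀ w, tau e hp w • v = v := by
  classical
  have := Fact.mk hpp
  have h2 : (2 : ZMod p) ≠ 0 := by
    intro h
    have : ((2 : ℕ) : ZMod p) = 0 := by exact_mod_cast h
    rw [ZMod.natCast_eq_zero_iff] at this
    have := Nat.le_of_dvd (by norm_num) this
    omega
  have h3 : (3 : ZMod p) ≠ 0 := by
    intro h
    have : ((3 : ℕ) : ZMod p) = 0 := by exact_mod_cast h
    rw [ZMod.natCast_eq_zero_iff] at this
    have := Nat.le_of_dvd (by norm_num) this
    omega
  let _ : MulAction (Multiplicative (Fin m → ZMod p)) V := MulAction.compHom V (tau e hp)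
  have hsm : ∀ (w : Multiplicative (Fin m → ZMod p)) (v : V), w • v = tau e hp w • v := fun _ _ => rfl
  have hadjP : ∀ (w : Multiplicative (Fin m → ZMod p)) (a b : V), Y.Adj a b →
      Y.Adj (w • a) (w • b) := fun w a b h => hadj _ _ _ h
  by_cases hno : ∀ x : V, ∃ y : V, ¬ stabilizer (Multiplicative (Fin m → ZMod p)) y ≤
      stabilizer (Multiplicative (Fin m → ZMod p)) x
  · left
    refine kminor_of_no_largest (P := Multiplicative (Fin m → ZMod p)) hpp ?_ hadjP hconn hno
    intro w
    have h : p • w.toAdd = 0 := by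
      funext i
      simp
    have h2 : w ^ p = Multiplicative.ofAdd (p • w.toAdd) := rfl
    rw [h2, h]
    rfl
  push Not at hno
  obtain ⟨x, hx⟩ := hno
  set M := stabilizer (Multiplicative (Fin m → ZMod p)) x with hM
  have hconj : ∀ (c : alternatingGroup α) (φ : Multiplicative (Fin m → ZMod p) →
      Multiplicative (Fin m → ZMod p)), (∀ w, c * tau e hp w * c⁻¹ = tau e hp (φ w)) →
      ∀ w ∈ M, φ w ∈ M := by
    intro c φ hφ w hw
    apply hx (c • x)
    rw [mem_stabilizer_iff, hsm, ← hφ, mul_smul, mul_smul, inv_smul_smul]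
    congr 1
  by_cases hbot : M = ⊥
  · left
    have hfr : 3 ≤ Module.finrank (ZMod p) (Fin m → ZMod p) := by
      rw [Module.finrank_fin_fun]; exact hm
    refine kminor_of_free (W := Fin m → ZMod p) hfr (fun w a b h => hadjP _ _ _ h) hconn ?_
    intro w v hwv
    have h1 : Multiplicative.ofAdd w ∈ stabilizer (Multiplicative (Fin m → ZMod p)) v := hwv
    have h2 := hx v h1
    rw [hbot, Subgroup.mem_bot] at h2
    exact h2
  · right
    refine ⟨x, ?_⟩
    obtain ⟨⟨w, hw⟩, hne⟩ := Subgroup.ne_bot_iff_exists_ne_one.1 hbot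
    have hw0 : w.toAdd ≠ 0 := by
      intro h
      apply hne
      apply Subtype.ext
      exact h
    obtain ⟨i₀, hi₀⟩ := Function.ne_iff.1 hw0
    rw [Pi.zero_apply] at hi₀
    set s : Fin m → ZMod p → Multiplicative (Fin m → ZMod p) :=
      fun i u => Multiplicative.ofAdd (Pi.single i u) with hs
    have hs1 : s i₀ (3 * w.toAdd i₀) ∈ M := by
      obtain ⟨c, hc⟩ := conj_dbl e h2 hp i₀
      have h4 := M.mul_mem (hconj c _ hc w hw) (M.inv_mem hw)
      have h5 : Multiplicative.ofAdd (fun i => if i = i₀ then 4 * w.toAdd i else w.toAdd i) * w⁻¹ =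
          s i₀ (3 * w.toAdd i₀) := by
        apply Multiplicative.toAdd.injective
        funext i
        simp only [hs, toAdd_mul, toAdd_inv, toAdd_ofAdd, Pi.add_apply, Pi.neg_apply]
        by_cases h : i = i₀
        · subst h
          simp only [if_true, Pi.single_eq_same]
          ring
        · simp [h]
      rwa [h5] at h4
    have hs2 : ∀ u, s i₀ u ∈ M := by
      intro u
      have h4 : (3 * w.toAdd i₀) ≠ 0 := mul_ne_zero h3 hi₀
      have h5 := M.pow_mem hs1 (u / (3 * w.toAdd i₀)).val
      have h6 : s i₀ (3 * w.toAdd i₀) ^ (u / (3 * w.toAdd i₀)).val = s i₀ u := by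
        apply Multiplicative.toAdd.injective
        funext i
        rw [toAdd_pow]
        simp only [hs, toAdd_ofAdd, Pi.smul_apply]
        by_cases h : i = i₀
        · subst h
          rw [Pi.single_eq_same, Pi.single_eq_same, nsmul_eq_mul, ZMod.natCast_zmod_val,
            div_mul_cancel₀ _ h4]
        · simp [h]
      rwa [h6] at h5
    have hs3 : ∀ j u, s j u ∈ M := by
      intro j u
      by_cases hj : j = i₀
      · rw [hj]; exact hs2 u
      obtain ⟨k, hk⟩ : ∃ k : Fin m, k ∉ ({i₀, j} : Finset (Fin m)) := by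
        by_contra hcon
        push Not at hcon
        have h4 : (Finset.univ : Finset (Fin m)) ⊆ {i₀, j} := fun k _ => hcon k
        have h5 := Finset.card_le_card h4
        rw [Finset.card_univ, Fintype.card_fin] at h5
        have h6 := Finset.card_le_two (a := i₀) (b := j)
        omega
      rw [Finset.mem_insert, Finset.mem_singleton, not_or] at hk
      set π : Perm (Fin m) := swap i₀ k * swap i₀ j with hπ
      have hπ3 : π ^ 3 = 1 := by
        have h4 : π.IsThreeCycle :=
          Perm.isThreeCycle_swap_mul_swap_same (Ne.symm hk.1) (Ne.symm hj) hk.2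
        rw [← h4.orderOf]
        exact pow_orderOf_eq_one π
      obtain ⟨c, hc⟩ := conj_idx e hp π hπ3
      have h4 := hconj c _ hc (s i₀ u) (hs2 u)
      have h5 : π i₀ = j := by
        rw [hπ, Perm.mul_apply, swap_apply_left, swap_apply_of_ne_of_ne hj (Ne.symm hk.2)]
      have h6 : Multiplicative.ofAdd (fun i => (s i₀ u).toAdd (π⁻¹ i)) = s j u := by
        apply Multiplicative.toAdd.injective
        funext i
        simp only [hs, toAdd_ofAdd]
        by_cases h : i = j
        · subst h
          have : π⁻¹ i = i₀ := by rw [Perm.inv_eq_iff_eq, h5]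
          rw [this, Pi.single_eq_same, Pi.single_eq_same]
        · have : π⁻¹ i ≠ i₀ := by
            intro h7
            apply h
            rw [Perm.inv_eq_iff_eq, h5] at h7
            exact h7
          rw [Pi.single_eq_of_ne this, Pi.single_eq_of_ne h]
      rwa [h6] at h4
    intro w'
    have h7 : w' ∈ M := by
      have h8 : w' = ∏ i, s i (w'.toAdd i) := by
        apply Multiplicative.toAdd.injective
        rw [toAdd_prod]
        simp only [hs, toAdd_ofAdd]
        exact (Finset.univ_sum_single w'.toAdd).symm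
      rw [h8]
      exact M.prod_mem (fun i _ => hs3 i _)
    exact h7

end

end Pool.Agent.Helper999.HM
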