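import Pool.Agent.Helper999.HMBlocks
import Pool.Agent.Helper999.HMAlt

set_option autoImplicit false

namespace Pool.Agent.Helper999.HM

open SimpleGraph MulAction Equiv
open scoped Pointwise

section
variable {α : Type*} [Fintype α] [DecidableEq α] {V : Type*} [MulAction (alternatingGroup α) V]

/-- the stabilizer of `v` as a group of permutations -/
def HH (v : V) : Subgroup (Perm α) := (stabilizer (alternatingGroup α) v).map (alternatingGroup α).subtype

theorem mem_HH {v : V} {g : Perm α} : g ∈ HH (α := α) v ↔ ∃ h : g ∈ alternatingGroup α,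
    (⟨g, h⟩ : alternatingGroup α) • v = v := by
  constructor
  · rintro ⟨g, hg, rfl⟩
    exact ⟨g.2, hg⟩
  · rintro ⟨h, hg⟩
    exact ⟨⟨g, h⟩, hg, rfl⟩

theorem fixT_iff {v : V} {T : Finset α} : FixT v T ↔ AltIn (HH (α := α) v) (T : Set α) := by
  constructor
  · intro h g hg hfix
    rw [mem_HH]
    exact ⟨hg, h ⟨g, hg⟩ hfix⟩
  · intro h g hg
    obtain ⟨_, h2⟩ := mem_HH.1 (h g.1 g.2 hg)
    exact h2

theorem FixT.union {v : V} {S T : Finset α} (hS : FixT v S) (hT : FixT v T) (hS3 : 3 ≤ S.card)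
    (hT3 : 3 ≤ T.card) (hne : (S ∩ T).Nonempty) : FixT v (S ∪ T) := by
  rw [fixT_iff] at *
  rw [Finset.coe_union]
  refine AltIn.union hS hT ?_ ?_ ?_
  · rw [Set.ncard_coe_finset]; exact hS3
  · rw [Set.ncard_coe_finset]; exact hT3
  · obtain ⟨x, hx⟩ := hne
    rw [Finset.mem_inter] at hx
    exact ⟨x, hx.1, hx.2⟩

theorem FixT.mono {v : V} {S T : Finset α} (hT : FixT v T) (h : S ⊆ T) : FixT v S :=
  fun g hg => hT g (fun x hx => hg x (fun h' => hx (h h')))

theorem FixT.smul {v : V} {T : Finset α} {g : alternatingGroup α} (h : FixT (g • v) T) :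
    FixT v (T.image (g⁻¹ : Perm α)) := by
  intro k hk
  have h1 := h (g * k * g⁻¹) (fun x hx => by
    rw [Subgroup.coe_mul, Subgroup.coe_mul, Subgroup.coe_inv, Perm.mul_apply, Perm.mul_apply, hk]
    · exact (g : Perm α).apply_symm_apply x
    · intro hmem
      obtain ⟨y, hy, hyx⟩ := Finset.mem_image.1 hmem
      have := (g⁻¹ : Perm α).injective hyx
      exact hx (this ▸ hy))
  rw [mul_smul, inv_smul_smul, mul_smul, smul_left_cancel_iff] at h1
  exact h1

/-- every small set is fixed pointwise by some vertex, by transitivity -/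
theorem exists_fixT {v₀ : V} {T₀ : Finset α} (h₀ : FixT v₀ T₀) (h2 : 2 ≤ T₀.card) {T : Finset α}
    (hT : T.card ≤ T₀.card) : ∃ v : V, FixT v T := by
  classical
  -- a permutation mapping `T` into `T₀`
  obtain ⟨T', hT', hcard⟩ := Finset.exists_subset_card_eq hT
  have hσ : ∃ σ : Perm α, ∀ x ∈ T, σ x ∈ T₀ := by
    obtain ⟨e⟩ : Nonempty (T ≃ T') := by
      apply Fintype.card_eq.1
      rw [Fintype.card_coe, Fintype.card_coe, hcard]
    refine ⟨Equiv.extendSubtype e, fun x hx => hT' ?_⟩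
    rw [Equiv.extendSubtype_apply_of_mem e x hx]
    exact (e ⟨x, hx⟩).2
  obtain ⟨σ, hσ⟩ := hσ
  have hg : ∃ g : alternatingGroup α, ∀ x ∈ T, (g : Perm α) x ∈ T₀ := by
    rcases Int.units_eq_one_or (Perm.sign σ) with h | h
    · exact ⟨⟨σ, h⟩, hσ⟩
    · obtain ⟨a, ha, b, hb, hab⟩ := Finset.one_lt_card.1 (show 1 < T₀.card by omega)
      refine ⟨⟨swap a b * σ, ?_⟩, fun x hx => ?_⟩
      · rw [Perm.mem_alternatingGroup, map_mul, h, Perm.sign_swap hab]
        decide
      · change swap a b (σ x) ∈ T₀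
        by_cases h1 : σ x = a
        · rw [h1, swap_apply_left]; exact hb
        by_cases h2 : σ x = b
        · rw [h2, swap_apply_right]; exact ha
        rw [swap_apply_of_ne_of_ne h1 h2]
        exact hσ x hx
  obtain ⟨g, hg⟩ := hg
  refine ⟨g⁻¹ • v₀, ?_⟩
  have h1 : FixT (g • (g⁻¹ • v₀)) T₀ := by rw [smul_inv_smul]; exact h₀
  refine h1.smul.mono ?_
  intro x hx
  rw [Finset.mem_image]
  exact ⟨(g : Perm α) x, hg x hx, (g : Perm α).symm_apply_apply x⟩

theorem cover_sub {ι κ : Type*} {v : V} {b : ℕ} (hmax : ∀ T : Finset α, FixT v T → T.card ≤ b)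
    {S : ι → Finset α} {T : κ → Finset α} (hS : ∀ i, FixT v (S i)) (hT : ∀ i, FixT v (T i))
    (hS3 : ∀ i, 3 ≤ (S i).card) (hT3 : ∀ i, 3 ≤ (T i).card) (hcov : ∀ x, ∃ j, x ∈ T j)
    (hdisj : ∀ i j, i ≠ j → Disjoint (T i) (T j))
    (hsum : ∀ i j, i ≠ j → b < (T i).card + (T j).card) (i : ι) : ∃ j, S i ⊆ T j := by
  classical
  obtain ⟨x, hx⟩ := Finset.card_pos.1 (show 0 < (S i).card by have := hS3 i; omega)
  obtain ⟨j, hj⟩ := hcov x
  refine ⟨j, fun y hy => ?_⟩
  by_contra hyj
  obtain ⟨l, hl⟩ := hcov y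
  have hlj : j ≠ l := fun h => hyj (h ▸ hl)
  have h1 := (hS i).union (hT j) (hS3 i) (hT3 j) ⟨x, Finset.mem_inter.2 ⟨hx, hj⟩⟩
  have h2 := h1.union (hT l) ((hS3 i).trans (Finset.card_le_card Finset.subset_union_left)) (hT3 l)
    ⟨y, Finset.mem_inter.2 ⟨Finset.mem_union_left _ hy, hl⟩⟩
  have h3 := hmax _ h2
  have h4 : (T j ∪ T l).card ≤ (S i ∪ T j ∪ T l).card := by
    apply Finset.card_le_card
    intro z hz
    rcases Finset.mem_union.1 hz with hz | hz
    · exact Finset.mem_union_left _ (Finset.mem_union_right _ hz)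
    · exact Finset.mem_union_right _ hz
  rw [Finset.card_union_of_disjoint (hdisj j l hlj)] at h4
  have h5 := hsum j l hlj
  omega

/-- an adequate partition of the points -/
structure Fam (α : Type*) [Fintype α] [DecidableEq α] (b k M : ℕ) (r : ℕ) (T : Fin r → Finset α) :
    Prop where
  cov : ∀ x, ∃ j, x ∈ T j
  disj : ∀ i j, i ≠ j → Disjoint (T i) (T j)
  sum : ∀ i j, i ≠ j → b < (T i).card + (T j).card
  le : ∀ i, (T i).card ≤ b
  five : ∀ i, 5 ≤ (T i).card
  k_le : ∀ i, k ≤ (T i).card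
  inj : ∀ i j, (T i).card = (T j).card → i = j
  max : ∃ i, (T i).card = M
  le_max : ∀ i, (T i).card ≤ M

theorem kminor_of_fam [Finite V] {Y : SimpleGraph V}
    (hadj : ∀ (g : alternatingGroup α) (a b : V), Y.Adj a b → Y.Adj (g • a) (g • b))
    (hconn : Y.Connected) {b k M r : ℕ} {T : Fin r → Finset α} (hT : Fam α b k M r T)
    {v₀ : V} {T₀ : Finset α} (h₀ : FixT v₀ T₀) (hb : T₀.card = b)
    (hno : ∀ v : V, ¬ ∀ i, FixT v (T i)) : HasKMinor Y k := by
  classical
  -- a minimal index set without common fixed vertex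
  have hex : ∃ m : ℕ, ∃ J : Finset (Fin r), J.card = m ∧ ∀ v : V, ¬ ∀ i ∈ J, FixT v (T i) :=
    ⟨_, Finset.univ, rfl, fun v h => hno v (fun i => h i (Finset.mem_univ i))⟩
  obtain ⟨J, hJcard, hJ⟩ := Nat.find_spec hex
  have hmin : ∀ J' : Finset (Fin r), J'.card < J.card → ∃ v : V, ∀ i ∈ J', FixT v (T i) := by
    intro J' hlt
    by_contra hcon
    push Not at hcon
    rw [hJcard] at hlt
    refine Nat.find_min hex hlt ⟨J', rfl, fun v h => ?_⟩
    obtain ⟨i, hi, hi'⟩ := hcon v
    exact hi' (h i hi)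
  have hne : J.Nonempty := by
    rw [Finset.nonempty_iff_ne_empty]
    rintro rfl
    exact hJ v₀ (by simp)
  obtain ⟨i₀, hi₀, hmaxi⟩ := Finset.exists_max_image J (fun i => (T i).card) hne
  have hins : insert i₀ (J.erase i₀) = J := Finset.insert_erase hi₀
  refine kminor_of_blocks hadj hconn T (J.erase i₀) i₀ (Finset.notMem_erase _ _)
    (fun i _ => hT.k_le i) (fun i _ => hT.five i) ?_ (fun i _ j _ hij => hT.disj i j hij) ?_ ?_ ?_
  · intro i hi
    rw [Finset.mem_erase] at hi
    exact lt_of_le_of_ne (hmaxi i hi.2) (fun h => hi.1 (hT.inj i i₀ h))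
  · refine exists_fixT h₀ ?_ ?_
    · have h1 := hT.five i₀
      have h2 := hT.le i₀
      omega
    · rw [hb]; exact hT.le i₀
  · apply hmin
    rw [Finset.card_erase_of_mem hi₀]
    have := Finset.card_pos.2 hne
    omega
  · intro v
    rw [hins]
    exact hJ v

theorem kminor_of_three [Finite V] {Y : SimpleGraph V}
    (hadj : ∀ (g : alternatingGroup α) (a b : V), Y.Adj a b → Y.Adj (g • a) (g • b))
    (hconn : Y.Connected) {x y : V}
    (hxy : ∀ v : V, v ∈ orbit (alternatingGroup α) x ∨ v ∈ orbit (alternatingGroup α) y)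
    {b k M r : ℕ} {T : Fin 3 → Fin r → Finset α} (hT : ∀ m : Fin 3, Fam α b k (M + m) r (T m))
    {v₀ : V} {T₀ : Finset α} (h₀ : FixT v₀ T₀) (hb : T₀.card = b)
    (hmax : ∀ (v : V) (T : Finset α), FixT v T → T.card ≤ b) : HasKMinor Y k := by
  classical
  by_contra hcon
  have h1 : ∀ m : Fin 3, ∃ v : V, ∀ i, FixT v (T m i) := by
    intro m
    by_contra h
    push Not at h
    apply hcon
    refine kminor_of_fam hadj hconn (hT m) h₀ hb (fun v hv => ?_)
    obtain ⟨i, hi⟩ := h v
    exact hi (hv i)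
  choose v hv using h1
  -- two of the three vertices lie in the same orbit
  obtain ⟨m, m', hmm', g, hg⟩ : ∃ m m' : Fin 3, m ≠ m' ∧ ∃ g : alternatingGroup α, g • v m = v m' := by
    obtain ⟨m, m', hne, h⟩ := Fintype.exists_ne_map_eq_of_card_lt
      (fun m : Fin 3 => decide (v m ∈ orbit (alternatingGroup α) x)) (by simp)
    refine ⟨m, m', hne, ?_⟩
    simp only [decide_eq_decide] at h
    have key : ∀ z : V, v m ∈ orbit (alternatingGroup α) z → v m' ∈ orbit (alternatingGroup α) z →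
        ∃ g : alternatingGroup α, g • v m = v m' := by
      rintro z ⟨g, hg⟩ ⟨g', hg'⟩
      have hg1 : g • z = v m := hg
      have hg2 : g' • z = v m' := hg'
      refine ⟨g' * g⁻¹, ?_⟩
      rw [← hg1, mul_smul, inv_smul_smul, hg2]
    by_cases hm : v m ∈ orbit (alternatingGroup α) x
    · exact key x hm (h.1 hm)
    · exact key y ((hxy _).resolve_left hm) ((hxy _).resolve_left (fun h' => hm (h.2 h')))
  have h2 : ∀ i, FixT (v m) ((T m' i).image (g⁻¹ : Perm α)) := by
    intro i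
    have := hv m' i
    rw [← hg] at this
    exact this.smul
  have hcard : ∀ i, ((T m' i).image (g⁻¹ : Perm α)).card = (T m' i).card := fun i =>
    Finset.card_image_of_injective _ (g⁻¹ : Perm α).injective
  have hA := cover_sub (hmax (v m)) (hv m) h2 (fun i => by have := (hT m).five i; omega)
    (fun i => by rw [hcard]; have := (hT m').five i; omega)
    (fun z => by
      obtain ⟨j, hj⟩ := (hT m').cov ((g : Perm α) z)
      refine ⟨j, ?_⟩
      rw [Finset.mem_image]
      exact ⟨_, hj, (g : Perm α).symm_apply_apply z⟩)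
    (fun i j hij => by
      rw [Finset.disjoint_image (g⁻¹ : Perm α).injective]
      exact (hT m').disj i j hij)
    (fun i j hij => by rw [hcard, hcard]; exact (hT m').sum i j hij)
  have hB := cover_sub (hmax (v m)) h2 (hv m) (fun i => by rw [hcard]; have := (hT m').five i; omega)
    (fun i => by have := (hT m).five i; omega) (hT m).cov (hT m).disj (hT m).sum
  obtain ⟨i, hi⟩ := (hT m).max
  obtain ⟨j, hj⟩ := hA i
  have h3 := Finset.card_le_card hj
  rw [hcard, hi] at h3
  have h4 := (hT m').le_max j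
  obtain ⟨i', hi'⟩ := (hT m').max
  obtain ⟨j', hj'⟩ := hB i'
  have h5 := Finset.card_le_card hj'
  rw [hcard, hi'] at h5
  have h6 := (hT m).le_max j'
  apply hmm'
  apply Fin.ext
  omega

end

end Pool.Agent.Helper999.HM
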