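import Pool.Agent.Helper999.HMContract

set_option autoImplicit false

namespace Pool.Agent.Helper999.HM

open SimpleGraph MulAction Equiv

section
variable {V : Type} {X : SimpleGraph V}

/-- vertices fixed by all automorphisms -/
def fixedVerts (X : SimpleGraph V) : Set V := {v | ∀ φ : X ≃g X, φ v = v}

/-- connectivity outside the fixed vertices -/
def rr (X : SimpleGraph V) (v w : V) : Prop :=
  Relation.ReflTransGen (fun a b => X.Adj a b ∧ a ∉ fixedVerts X ∧ b ∉ fixedVerts X) v w

theorem rr_symm {v w : V} (h : rr X v w) : rr X w v := by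
  unfold rr at *
  induction h with
  | refl => exact Relation.ReflTransGen.refl
  | tail _ hs ih => exact Relation.ReflTransGen.head ⟨hs.1.symm, hs.2.2, hs.2.1⟩ ih

theorem rr_trans {u v w : V} (h : rr X u v) (h' : rr X v w) : rr X u w :=
  Relation.ReflTransGen.trans h h'

theorem map_fixed (φ : X ≃g X) {v : V} (hv : v ∉ fixedVerts X) : φ v ∉ fixedVerts X := by
  intro h
  apply hv
  intro ψ
  have h1 : (φ⁻¹ * ψ * φ) v = v := by
    change φ.symm (ψ (φ v)) = v
    rw [h ψ]
    exact φ.symm_apply_apply v
  have h2 : φ v = v := by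
    have := h φ
    exact φ.injective this
  have := h ψ
  rw [h2] at this
  exact this

theorem rr_map (φ : X ≃g X) {v w : V} (h : rr X v w) : rr X (φ v) (φ w) := by
  unfold rr at *
  induction h with
  | refl => exact Relation.ReflTransGen.refl
  | tail _ hs ih =>
    exact Relation.ReflTransGen.tail ih ⟨φ.map_rel_iff.2 hs.1, map_fixed φ hs.2.1, map_fixed φ hs.2.2⟩

theorem rr_notfixed {v w : V} (hv : v ∉ fixedVerts X) (h : rr X v w) : w ∉ fixedVerts X := by
  unfold rr at h
  induction h with
  | refl => exact hv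
  | tail _ hs _ => exact hs.2.2

/-- swap a component with its image -/
theorem exists_swap {φ : X ≃g X} {v : V} (hv : v ∉ fixedVerts X) (hφ : ¬ rr X v (φ v)) :
    ∃ ψ : X ≃g X, (∀ w, rr X v w → ψ w = φ w) ∧ (∀ w, rr X (φ v) w → ψ w = φ.symm w) ∧
      ∀ w, ¬ rr X v w → ¬ rr X (φ v) w → ψ w = w := by
  classical
  let f : V → V := fun w => if rr X v w then φ w else if rr X (φ v) w then φ.symm w else w
  have h1 : ∀ w, rr X v w → f w = φ w := fun w hw => if_pos hw
  have hdisj : ∀ w, rr X v w → ¬ rr X (φ v) w := fun w hw hw' => hφ (rr_trans hw (rr_symm hw'))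
  have h2 : ∀ w, rr X (φ v) w → f w = φ.symm w := by
    intro w hw
    have : ¬ rr X v w := fun h => hdisj w h hw
    simp only [f]
    rw [if_neg this, if_pos hw]
  have h3 : ∀ w, ¬ rr X v w → ¬ rr X (φ v) w → f w = w := by
    intro w hw hw'
    simp only [f]
    rw [if_neg hw, if_neg hw']
  have hback : ∀ w, rr X (φ v) w → rr X v (φ.symm w) := by
    intro w hw
    have := rr_map φ.symm hw
    rwa [φ.symm_apply_apply] at this
  have hinv : Function.Involutive f := by
    intro w
    by_cases hw : rr X v w
    · rw [h1 w hw, h2 _ (rr_map φ hw), φ.symm_apply_apply]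
    · by_cases hw' : rr X (φ v) w
      · rw [h2 w hw', h1 _ (hback w hw'), φ.apply_symm_apply]
      · rw [h3 w hw hw', h3 w hw hw']
  have hφv : φ v ∉ fixedVerts X := map_fixed φ hv
  have hfixsymm : ∀ b, b ∈ fixedVerts X → φ.symm b = b := by
    intro b hb
    have := hb φ.symm
    exact this
  have hadj1 : ∀ a b, rr X v a → X.Adj a b → X.Adj (f a) (f b) := by
    intro a b ha hab
    by_cases hb : b ∈ fixedVerts X
    · have hb1 : ¬ rr X v b := fun h => rr_notfixed hv h hb
      have hb2 : ¬ rr X (φ v) b := fun h => rr_notfixed hφv h hb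
      rw [h1 a ha, h3 b hb1 hb2]
      have := φ.map_rel_iff.2 hab
      rwa [hb φ] at this
    · have hb1 : rr X v b := Relation.ReflTransGen.tail ha ⟨hab, rr_notfixed hv ha, hb⟩
      rw [h1 a ha, h1 b hb1, φ.map_rel_iff]
      exact hab
  have hadj2 : ∀ a b, rr X (φ v) a → X.Adj a b → X.Adj (f a) (f b) := by
    intro a b ha hab
    by_cases hb : b ∈ fixedVerts X
    · have hb1 : ¬ rr X v b := fun h => rr_notfixed hv h hb
      have hb2 : ¬ rr X (φ v) b := fun h => rr_notfixed hφv h hb
      rw [h2 a ha, h3 b hb1 hb2]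
      have := φ.symm.map_rel_iff.2 hab
      rwa [hfixsymm b hb] at this
    · have hb1 : rr X (φ v) b := Relation.ReflTransGen.tail ha ⟨hab, rr_notfixed hφv ha, hb⟩
      rw [h2 a ha, h2 b hb1]
      exact φ.symm.map_rel_iff.2 hab
  have hadj : ∀ a b, X.Adj a b → X.Adj (f a) (f b) := by
    intro a b hab
    by_cases ha1 : rr X v a
    · exact hadj1 a b ha1 hab
    by_cases ha2 : rr X (φ v) a
    · exact hadj2 a b ha2 hab
    by_cases hb1 : rr X v b
    · exact (hadj1 b a hb1 hab.symm).symm
    by_cases hb2 : rr X (φ v) b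
    · exact (hadj2 b a hb2 hab.symm).symm
    rw [h3 a ha1 ha2, h3 b hb1 hb2]
    exact hab
  let ψ : X ≃g X := ⟨hinv.toPerm f, by
    intro a b
    constructor
    · intro h
      have := hadj _ _ h
      simp only [Function.Involutive.coe_toPerm] at this
      rw [hinv a, hinv b] at this
      exact this
    · intro h
      exact hadj a b h⟩
  exact ⟨ψ, h1, h2, h3⟩

theorem exists_good {n : ℕ} (hn : 5 ≤ n) [Finite V] (e : (X ≃g X) ≃* alternatingGroup (Fin n)) {k : ℕ}
    (hk : ¬ HasKMinor X k) : ∃ (V' : Type) (_ : Finite V')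
      (_ : MulAction (alternatingGroup (Fin n)) V') (Y : SimpleGraph V'),
      Good (alternatingGroup (Fin n)) k V' Y := by
  classical
  have hsimple : IsSimpleGroup (alternatingGroup (Fin n)) := by
    apply alternatingGroup.isSimpleGroup
    rw [Nat.card_eq_fintype_card, Fintype.card_fin]
    exact hn
  have hcardA : 2 < Nat.card (alternatingGroup (Fin n)) := by
    have : Nontrivial (Fin n) := Fin.nontrivial_iff_two_le.2 (by omega)
    have h1 := two_mul_nat_card_alternatingGroup (α := Fin n)
    rw [Nat.card_perm, Nat.card_eq_fintype_card (α := Fin n), Fintype.card_fin] at h1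
    have h2 : Nat.factorial 5 ≤ Nat.factorial n := Nat.factorial_le hn
    have h3 : Nat.factorial 5 = 120 := rfl
    omega
  -- every component outside the fixed vertices is invariant
  have hclaim : ∀ (φ : X ≃g X) (v : V), v ∉ fixedVerts X → rr X v (φ v) := by
    intro φ v hv
    by_contra hcon
    obtain ⟨ψ, hψ1, hψ2, hψ3⟩ := exists_swap hv hcon
    let s : Setoid V := ⟨fun a b => rr X a b, ⟨fun a => Relation.ReflTransGen.refl,
      fun h => rr_symm h, fun h h' => rr_trans h h'⟩⟩
    let act : MulAction (X ≃g X) (Quotient s) :=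
      { smul := fun g => Quotient.map (fun v => g v) (fun a b h => rr_map g h)
        one_smul := by
          intro c
          obtain ⟨a, rfl⟩ := Quotient.exists_rep c
          rfl
        mul_smul := by
          intro g h c
          obtain ⟨a, rfl⟩ := Quotient.exists_rep c
          rfl }
    have hsm : ∀ (g : X ≃g X) (v : V), g • (Quotient.mk s v) = Quotient.mk s (g v) := fun _ _ => rfl
    have := Fintype.ofFinite (Quotient s)
    let Φ : (X ≃g X) →* ℤˣ := Perm.sign.comp (toPermHom (X ≃g X) (Quotient s))
    have hne : Quotient.mk s v ≠ Quotient.mk s (φ v) := fun h => hcon (Quotient.exact h)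
    have hswap : toPermHom (X ≃g X) (Quotient s) ψ = swap (Quotient.mk s v) (Quotient.mk s (φ v)) := by
      ext c
      obtain ⟨w, rfl⟩ := Quotient.exists_rep c
      change Quotient.mk s (ψ w) = _
      by_cases h1 : rr X v w
      · have h2 : Quotient.mk s w = Quotient.mk s v := (Quotient.sound (s := s) h1).symm
        rw [h2, swap_apply_left, hψ1 w h1]
        exact Quotient.sound (s := s) (rr_symm (rr_map φ h1))
      · by_cases h3 : rr X (φ v) w
        · have h2 : Quotient.mk s w = Quotient.mk s (φ v) := (Quotient.sound (s := s) h3).symm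
          rw [h2, swap_apply_right, hψ2 w h3]
          apply Quotient.sound (s := s)
          have := rr_map φ.symm h3
          rw [φ.symm_apply_apply] at this
          exact rr_symm this
        · rw [hψ3 w h1 h3, swap_apply_of_ne_of_ne]
          · intro h; exact h1 (rr_symm (Quotient.exact h))
          · intro h; exact h3 (rr_symm (Quotient.exact h))
    have hΦ : Φ ψ = -1 := by
      change Perm.sign (toPermHom (X ≃g X) (Quotient s) ψ) = -1
      rw [hswap, Perm.sign_swap hne]
    let Ψ : alternatingGroup (Fin n) →* ℤˣ := Φ.comp e.symm.toMonoidHom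
    rcases IsSimpleGroup.eq_bot_or_eq_top_of_normal Ψ.ker inferInstance with h | h
    · have hinj : Function.Injective Ψ := (MonoidHom.ker_eq_bot_iff Ψ).1 h
      have h1 := Nat.card_le_card_of_injective Ψ hinj
      have h2 : Nat.card ℤˣ = 2 := by
        rw [Nat.card_eq_fintype_card]; rfl
      omega
    · have h1 : e ψ ∈ Ψ.ker := by rw [h]; trivial
      rw [MonoidHom.mem_ker] at h1
      have h2 : Ψ (e ψ) = Φ ψ := by
        change Φ (e.symm (e ψ)) = Φ ψ
        rw [e.symm_apply_apply]
      rw [h2, hΦ] at h1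
      exact absurd h1 (by decide)
  obtain ⟨v, hv⟩ : ∃ v : V, v ∉ fixedVerts X := by
    by_contra hcon
    push Not at hcon
    have h1 : ∀ φ : X ≃g X, φ = 1 := by
      intro φ
      ext v
      exact hcon v φ
    have h2 : Nat.card (X ≃g X) = 1 := by
      rw [Nat.card_eq_one_iff_unique]
      exact ⟨⟨fun a b => (h1 a).trans (h1 b).symm⟩, ⟨1⟩⟩
    rw [Nat.card_congr e.toEquiv] at h2
    omega
  let C : Set V := {w | rr X v w}
  have hCnf : ∀ w ∈ C, w ∉ fixedVerts X := fun w hw => rr_notfixed hv hw
  have hCinv : ∀ (φ : X ≃g X) (w : V), w ∈ C → φ w ∈ C := fun φ w hw =>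
    rr_trans hw (hclaim φ w (hCnf w hw))
  let act : MulAction (alternatingGroup (Fin n)) C :=
    { smul := fun g w => ⟨(e.symm g) w.1, hCinv _ w.1 w.2⟩
      one_smul := fun w => Subtype.ext (by
        change (e.symm 1) w.1 = w.1
        rw [map_one]; rfl)
      mul_smul := fun g h w => Subtype.ext (by
        change (e.symm (g * h)) w.1 = (e.symm g) ((e.symm h) w.1)
        rw [map_mul]; rfl) }
  have hvC : v ∈ C := Relation.ReflTransGen.refl
  refine ⟨C, inferInstance, act, X.induce C, ⟨?_, ?_, ?_, ?_⟩⟩
  · intro g a b hab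
    exact (e.symm g).map_rel_iff.2 hab
  · refine conn_of_base hvC ?_
    intro a ha
    have key : ∀ a, rr X v a → Relation.ReflTransGen (StepIn X C) v a := by
      intro a ha
      unfold rr at ha
      induction ha with
      | refl => exact Relation.ReflTransGen.refl
      | tail h hs ih =>
        exact Relation.ReflTransGen.tail ih ⟨hs.1, Relation.ReflTransGen.tail h hs⟩
    exact key a ha
  · rintro ⟨w, hw⟩
    have h1 := hCnf w hw
    have h2 : ∃ φ : X ≃g X, φ w ≠ w := by
      by_contra hcon
      push Not at hcon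
      exact h1 hcon
    obtain ⟨φ, hφ⟩ := h2
    refine ⟨e φ, fun h => hφ ?_⟩
    have h3 := congrArg Subtype.val h
    change (e.symm (e φ)) w = w at h3
    rwa [e.symm_apply_apply] at h3
  · exact fun h => hk h.of_induce

end

end Pool.Agent.Helper999.HM
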