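import Mathlib

set_option autoImplicit false

namespace Pool.Agent.Helper999.HM

open MulAction Equiv
open scoped Pointwise

section
variable {β : Type*} [Fintype β] [DecidableEq β]

/-- `w` is a cycle of length `q` -/
def QCyc (q : ℕ) (w : Perm β) : Prop := w.cycleType = {q}

theorem QCyc.isCycle {q : ℕ} {w : Perm β} (h : QCyc q w) : w.IsCycle := by
  rw [← Perm.card_cycleType_eq_one]
  unfold QCyc at h
  rw [h]
  rfl

theorem QCyc.card_support {q : ℕ} {w : Perm β} (h : QCyc q w) : w.support.card = q := by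
  unfold QCyc at h
  rw [← Perm.sum_cycleType, h, Multiset.sum_singleton]

theorem QCyc.conj {q : ℕ} {w : Perm β} (h : QCyc q w) (g : Perm β) : QCyc q (g * w * g⁻¹) := by
  unfold QCyc at *
  rw [Perm.cycleType_conj, h]

theorem qCyc_iff {q : ℕ} {w : Perm β} : QCyc q w ↔ w.IsCycle ∧ w.support.card = q := by
  constructor
  · exact fun h => ⟨h.isCycle, h.card_support⟩
  · rintro ⟨h1, h2⟩
    unfold QCyc
    rw [h1.cycleType, h2]

/-- two points are related if they lie on a common `q`-cycle of `L` -/
def CycRel (L : Subgroup (Perm β)) (q : ℕ) (a b : β) : Prop :=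
  ∃ w ∈ L, QCyc q w ∧ a ∈ w.support ∧ b ∈ w.support

theorem CycRel.symm {L : Subgroup (Perm β)} {q : ℕ} {a b : β} (h : CycRel L q a b) :
    CycRel L q b a := by
  obtain ⟨w, h1, h2, h3, h4⟩ := h
  exact ⟨w, h1, h2, h4, h3⟩

theorem cycle_pow {w : Perm β} (hw : w.IsCycle) {a b : β} (ha : a ∈ w.support)
    (hb : b ∈ w.support) : ∃ i : ℤ, (w ^ i) a = b := by
  rw [Perm.mem_support] at ha hb
  exact hw.exists_zpow_eq ha hb

theorem qCyc_pow {q : ℕ} {w : Perm β} (hw : QCyc q w) : w ^ q = 1 := by
  rw [← hw.card_support, ← hw.isCycle.orderOf, pow_orderOf_eq_one]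

/-- for a prime cycle, a nontrivial power generates -/
theorem exists_zpow_pow {q : ℕ} (hq : q.Prime) {G : Type*} [Group G] {w : G} (hw : w ^ q = 1) {k : ℤ}
    (hk : w ^ k ≠ 1) : ∃ j : ℤ, (w ^ k) ^ j = w := by
  have hnd : ¬ (q : ℤ) ∣ k := by
    rintro ⟨c, rfl⟩
    apply hk
    rw [zpow_mul, zpow_natCast, hw, one_zpow]
  have hcop : IsCoprime k (q : ℤ) := by
    have := (Int.prime_iff_natAbs_prime.2 (by simpa using hq) : Prime (q : ℤ))
    exact ((Prime.coprime_iff_not_dvd this).2 hnd).symm
  obtain ⟨a, b, hab⟩ := hcop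
  refine ⟨a, ?_⟩
  rw [← zpow_mul]
  have : k * a = 1 - b * q := by linarith
  rw [this, zpow_sub, zpow_one, mul_comm b, zpow_mul, zpow_natCast, hw, one_zpow, inv_one, mul_one]

theorem preprim {L : Subgroup (Perm β)} {q : ℕ} (hq : q.Prime)
    (hconn : ∀ x y : β, Relation.ReflTransGen (CycRel L q) x y) : IsPreprimitive L β := by
  have htrans : IsPretransitive L β := by
    constructor
    intro x y
    have h := hconn x y
    induction h with
    | refl => exact ⟨1, one_smul _ _⟩
    | tail _ hstep ih =>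
      obtain ⟨g, hg⟩ := ih
      obtain ⟨w, hwL, hw, ha, hb⟩ := hstep
      obtain ⟨i, hi⟩ := cycle_pow hw.isCycle ha hb
      refine ⟨⟨w ^ i, L.zpow_mem hwL i⟩ * g, ?_⟩
      rw [mul_smul, hg]
      exact hi
  refine ⟨?_⟩
  intro B hB
  rcases B.subsingleton_or_nontrivial with hs | hn
  · exact Or.inl hs
  right
  have hinv : ∀ w : L, QCyc q (w : Perm β) → w • B = B := by
    intro w hw
    by_contra hcon
    have hdisj : ∀ g : L, g • B ≠ B → Disjoint (g • B) B := by
      intro g hg
      rcases (isBlock_iff_smul_eq_or_disjoint.1 hB) g with h | h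
      · exact absurd h hg
      · exact h
    have hd := hdisj w hcon
    have hsupp : ∀ a ∈ B, a ∈ (w : Perm β).support := by
      intro a ha
      rw [Perm.mem_support]
      intro h
      have h1 : a ∈ w • B := ⟨a, ha, h⟩
      exact Set.disjoint_left.1 hd h1 ha
    obtain ⟨a, ha, b, hb, hab⟩ := hn
    obtain ⟨i, hi⟩ := cycle_pow hw.isCycle (hsupp a ha) (hsupp b hb)
    have h1 : (w ^ i) • B = B := by
      by_contra h2
      have h3 := hdisj (w ^ i) h2
      refine Set.disjoint_left.1 h3 ⟨a, ha, ?_⟩ hb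
      exact hi
    have hwi : w ^ i ≠ 1 := by
      intro h
      apply hab
      rw [← hi]
      have : ((w ^ i : L) : Perm β) = 1 := by rw [h]; rfl
      rw [Subgroup.coe_zpow] at this
      rw [this]
      rfl
    have hwq : w ^ q = 1 := by
      apply Subtype.ext
      rw [Subgroup.coe_pow, qCyc_pow hw]
      rfl
    obtain ⟨j, hj⟩ := exists_zpow_pow hq hwq hwi
    apply hcon
    have h4 : w ^ i ∈ stabilizer L B := h1
    have h5 := (stabilizer L B).zpow_mem h4 j
    rw [hj] at h5
    exact h5
  obtain ⟨a, ha⟩ := hn.nonempty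
  rw [Set.eq_univ_iff_forall]
  intro b
  have h := hconn a b
  induction h with
  | refl => exact ha
  | tail _ hstep ih =>
    obtain ⟨w, hwL, hw, hb, hc⟩ := hstep
    obtain ⟨i, hi⟩ := cycle_pow hw.isCycle hb hc
    have h1 : (⟨w, hwL⟩ : L) ∈ stabilizer L B := hinv ⟨w, hwL⟩ hw
    have h2 := (stabilizer L B).zpow_mem h1 i
    have h3 : ((⟨w, hwL⟩ : L) ^ i) • B = B := h2
    rw [← h3, ← hi]
    exact ⟨_, ih, rfl⟩

omit [Fintype β] [DecidableEq β] in
theorem app_inv (u : Perm β) (y : β) : u (u⁻¹ y) = y := u.apply_symm_apply y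

omit [Fintype β] [DecidableEq β] in
theorem inv_app (u : Perm β) (y : β) : u⁻¹ (u y) = y := u.symm_apply_apply y

/-- the commutator of two permutations whose supports meet in one point is a three-cycle -/
theorem commutator_threeCycle {w w' : Perm β} {x : β} (hx : x ∈ w.support) (hx' : x ∈ w'.support)
    (h : ∀ y, y ∈ w.support → y ∈ w'.support → y = x) : (w * w' * w⁻¹ * w'⁻¹).IsThreeCycle := by
  have hwx : w x ∈ w.support := Perm.apply_mem_support.2 hx
  have hwx' : w' x ∈ w'.support := Perm.apply_mem_support.2 hx'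
  have hb : w x ≠ x := Perm.mem_support.1 hx
  have hc : w' x ≠ x := Perm.mem_support.1 hx'
  have hb' : w x ∉ w'.support := fun h1 => hb (h _ hwx h1)
  have hc' : w' x ∉ w.support := fun h1 => hc (h _ h1 hwx')
  have hbc : w x ≠ w' x := fun h1 => hb' (h1 ▸ hwx')
  have inv_fix : ∀ (u : Perm β) (y : β), y ∉ u.support → u⁻¹ y = y := by
    intro u y hy
    rw [Perm.inv_eq_iff_eq]
    exact (Perm.notMem_support.1 hy).symm
  have inv_mem : ∀ (u : Perm β) (y : β), y ∈ u.support → u⁻¹ y ∈ u.support := by
    intro u y hy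
    rw [← Perm.apply_mem_support]
    simpa using hy
  have key : w * w' * w⁻¹ * w'⁻¹ = swap (w x) x * swap (w x) (w' x) := by
    ext z
    simp only [Perm.coe_mul, Function.comp_apply]
    by_cases hz1 : z = x
    · subst hz1
      have h1 : w'⁻¹ z ∉ w.support := by
        intro h1
        have := h _ h1 (inv_mem w' z hx')
        rw [Perm.inv_eq_iff_eq] at this
        exact hc this.symm
      rw [inv_fix w _ h1, app_inv, swap_apply_of_ne_of_ne (Ne.symm hb) (Ne.symm hc),
        swap_apply_right]
    by_cases hz2 : z = w x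
    · subst hz2
      rw [inv_fix w' _ hb', inv_app, swap_apply_left,
        swap_apply_of_ne_of_ne (Ne.symm hbc) hc]
      exact Perm.notMem_support.1 hc'
    by_cases hz3 : z = w' x
    · subst hz3
      rw [inv_app, swap_apply_right, swap_apply_left]
      have h1 : w⁻¹ x ∉ w'.support := by
        intro h1
        have := h _ (inv_mem w x hx) h1
        rw [Perm.inv_eq_iff_eq] at this
        exact hb this.symm
      rw [Perm.notMem_support.1 h1, app_inv]
    rw [swap_apply_of_ne_of_ne hz2 hz3, swap_apply_of_ne_of_ne hz2 hz1]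
    by_cases hz : z ∈ w.support
    · have hz' : z ∉ w'.support := fun h1 => hz1 (h _ hz h1)
      rw [inv_fix w' _ hz']
      have h1 : w⁻¹ z ∉ w'.support := by
        intro h1
        have := h _ (inv_mem w z hz) h1
        rw [Perm.inv_eq_iff_eq] at this
        exact hz2 this
      rw [Perm.notMem_support.1 h1, app_inv]
    · by_cases hz' : z ∈ w'.support
      · have h1 : w'⁻¹ z ∉ w.support := by
          intro h1
          have := h _ h1 (inv_mem w' z hz')
          rw [Perm.inv_eq_iff_eq] at this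
          exact hz3 this
        rw [inv_fix w _ h1, app_inv]
        exact Perm.notMem_support.1 hz
      · rw [inv_fix w' _ hz', inv_fix w _ hz, Perm.notMem_support.1 hz', Perm.notMem_support.1 hz]
  rw [key]
  exact Perm.isThreeCycle_swap_mul_swap_same hb hbc (Ne.symm hc)

/-- Jordan-type theorem: a primitive group containing a short prime cycle contains the
alternating group. -/
theorem alt_le_of_qCyc {L : Subgroup (Perm β)} (hG : IsPreprimitive L β) {q : ℕ} (hq : q.Prime)
    {w : Perm β} (hwL : w ∈ L) (hw : QCyc q w) (hcard : 2 * q ≤ Nat.card β) :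
    alternatingGroup β ≤ L := by
  classical
  have hq2 := hq.two_le
  have hmp : IsMultiplyPreprimitive L β ((Nat.card β - q - 1) + 2) := by
    apply hG.isMultiplyPreprimitive (s := (w.supportᶜ : Set β))
    · apply Nat.add_left_cancel (n := w.support.card)
      have h1 := Set.ncard_add_ncard_compl (w.support : Set β)
      rw [Set.ncard_coe_finset, hw.card_support] at h1
      rw [hw.card_support]
      omega
    · omega
    have := Perm.isPretransitive_of_isCycle_mem hw.isCycle hwL
    apply IsPreprimitive.of_prime_card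
    convert! hq
    rw [Nat.card_eq_fintype_card, Fintype.card_subtype, ← hw.card_support]
    apply congr_arg
    ext x
    simp [SubMulAction.mem_ofFixingSubgroup_iff]
  have hmt : IsMultiplyPretransitive L β ((Nat.card β - q - 1) + 2) :=
    IsMultiplyPreprimitive.isMultiplyPretransitive ..
  have hmt' : IsMultiplyPretransitive L β q :=
    isMultiplyPretransitive_of_le (n := (Nat.card β - q - 1) + 2) (by omega) (by omega)
  have hq0 : 0 < q := by omega
  obtain ⟨e⟩ : Nonempty (Fin q ≃ w.support) := by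
    apply Fintype.card_eq.1
    rw [Fintype.card_fin, Fintype.card_coe, hw.card_support]
  have hcompl : q ≤ (w.supportᶜ).card := by
    rw [Finset.card_compl, hw.card_support, ← Nat.card_eq_fintype_card]
    omega
  obtain ⟨c⟩ : Nonempty (Fin q ↪ (w.supportᶜ : Finset β)) := by
    apply Function.Embedding.nonempty_of_card_le
    rw [Fintype.card_fin, Fintype.card_coe]
    exact hcompl
  let i₀ : Fin q := ⟨0, hq0⟩
  have hc : ∀ i, (c i : β) ∉ w.support := fun i => Finset.mem_compl.1 (c i).2
  let x : Fin q ↪ β := ⟨fun i => (e i : β), fun i j h => e.injective (Subtype.ext h)⟩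
  let y : Fin q ↪ β := ⟨fun i => if i = i₀ then (e i : β) else (c i : β), by
    intro i j h
    simp only at h
    split_ifs at h with h1 h2 h2
    · rw [h1, h2]
    · exact absurd (h ▸ (e i).2) (hc j)
    · exact absurd (h ▸ (e j).2) (hc i)
    · exact c.injective (Subtype.ext h)⟩
  obtain ⟨g, hg⟩ := hmt'.exists_smul_eq x y
  have hgx : ∀ i, (g : Perm β) (e i : β) = if i = i₀ then (e i : β) else (c i : β) := by
    intro i
    exact congrFun (congrArg DFunLike.coe hg) i
  have hw'L : (g : Perm β) * w * (g : Perm β)⁻¹ ∈ L := L.mul_mem (L.mul_mem g.2 hwL) (L.inv_mem g.2)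
  have hmem : ∀ z, z ∈ ((g : Perm β) * w * (g : Perm β)⁻¹).support ↔ (g : Perm β)⁻¹ z ∈ w.support := by
    intro z
    rw [Perm.mem_support, Perm.mem_support, Perm.mul_apply, Perm.mul_apply, Ne, Ne,
      ← Perm.eq_inv_iff_eq]
  have h3 := commutator_threeCycle (w := w) (w' := (g : Perm β) * w * (g : Perm β)⁻¹)
    (x := (e i₀ : β)) (e i₀).2 (by
      rw [hmem]
      have h1 : (g : Perm β)⁻¹ (e i₀ : β) = (e i₀ : β) := by
        rw [Perm.inv_eq_iff_eq, hgx i₀, if_pos rfl]
      rw [h1]
      exact (e i₀).2) (by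
      intro z hz hz'
      rw [hmem] at hz'
      obtain ⟨i, hi⟩ := e.surjective ⟨_, hz'⟩
      have h1 : (e i : β) = (g : Perm β)⁻¹ z := by rw [hi]
      have h2 := hgx i
      rw [h1, app_inv] at h2
      by_cases h4 : i = i₀
      · rw [h2, if_pos h4, ← h1, h4]
      · rw [if_neg h4] at h2
        exact absurd (h2 ▸ hz) (hc i))
  exact Perm.alternatingGroup_le_of_isPreprimitive_of_isThreeCycle_mem hG h3
    (L.mul_mem (L.mul_mem (L.mul_mem hwL hw'L) (L.inv_mem hwL)) (L.inv_mem hw'L))

end

end Pool.Agent.Helper999.HM
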