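import Pool.Agent.Helper999.HMSizes
import Pool.Agent.Helper999.HMCyc
import Pool.Agent.Helper999.HMFull

set_option autoImplicit false

namespace Pool.Agent.Helper999.HM

open SimpleGraph MulAction Equiv

section
variable {α : Type*} [Fintype α] [DecidableEq α]

theorem via_single {m p : ℕ} (hp : p.Prime) (e : Fin m × ZMod p ↪ α) (i : Fin m) :
    QCyc p (Perm.viaEmbeddingHom e (shiftHom m p (Multiplicative.ofAdd (Pi.single i 1)))) ∧
    ∀ u, e (i, u) ∈
      (Perm.viaEmbeddingHom e (shiftHom m p (Multiplicative.ofAdd (Pi.single i 1)))).support := by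
  classical
  have := Fact.mk hp
  set c := Perm.viaEmbeddingHom e (shiftHom m p (Multiplicative.ofAdd (Pi.single i 1))) with hc
  have h1 : ∀ x, c (e x) = e (shiftHom m p (Multiplicative.ofAdd (Pi.single i 1)) x) := by
    intro x
    rw [hc, Perm.viaEmbeddingHom_apply, Perm.viaEmbedding_apply]
  have h2 : ∀ u, c (e (i, u)) = e (i, u + 1) := by
    intro u
    rw [h1, shiftHom_apply]
    simp
  have h3 : ∀ j u, j ≠ i → c (e (j, u)) = e (j, u) := by
    intro j u hj
    rw [h1, shiftHom_apply]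
    simp [hj]
  have h4 : ∀ x, x ∉ Set.range e → c x = x := by
    intro x hx
    rw [hc, Perm.viaEmbeddingHom_apply]
    exact Perm.viaEmbedding_apply_of_notMem _ _ _ hx
  have hmem : ∀ u, e (i, u) ∈ c.support := by
    intro u
    rw [Perm.mem_support, h2]
    intro h
    have := congrArg Prod.snd (e.injective h)
    simp at this
  have hsupp : c.support = Finset.univ.image (fun u : ZMod p => e (i, u)) := by
    ext x
    rw [Finset.mem_image]
    constructor
    · intro hx
      rw [Perm.mem_support] at hx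
      by_cases hxr : x ∈ Set.range e
      · obtain ⟨⟨j, u⟩, rfl⟩ := hxr
        by_cases hj : j = i
        · subst hj; exact ⟨u, Finset.mem_univ _, rfl⟩
        · exact absurd (h3 j u hj) hx
      · exact absurd (h4 x hxr) hx
    · rintro ⟨u, _, rfl⟩
      exact hmem u
  have hpow : ∀ k : ℕ, (c ^ k) (e (i, 0)) = e (i, (k : ZMod p)) := by
    intro k
    induction k with
    | zero => simp
    | succ k ih => rw [pow_succ', Perm.mul_apply, ih, h2, Nat.cast_succ]
  refine ⟨qCyc_iff.2 ⟨⟨e (i, 0), Perm.mem_support.1 (hmem 0), ?_⟩, ?_⟩, hmem⟩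
  · intro y hy
    have hy' : y ∈ c.support := Perm.mem_support.2 hy
    rw [hsupp, Finset.mem_image] at hy'
    obtain ⟨u, _, rfl⟩ := hy'
    refine ⟨(u.val : ℤ), ?_⟩
    rw [zpow_natCast, hpow, ZMod.natCast_zmod_val]
  · rw [hsupp, Finset.card_image_of_injective, Finset.card_univ, ZMod.card]
    intro u u' h
    exact congrArg Prod.snd (e.injective h)

/-- `v` is fixed by a `p`-cycle, and the `p`-cycles fixing `v` cover all but fewer than `p` points -/
def Cov {V : Type*} [MulAction (alternatingGroup α) V] (v : V) (p : ℕ) : Prop :=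
  (∃ z ∈ HH (α := α) v, QCyc p z) ∧
    {x : α | ¬ ∃ w ∈ HH (α := α) v, QCyc p w ∧ x ∈ w.support}.ncard < p

theorem HH_smul {V : Type*} [MulAction (alternatingGroup α) V] {v : V} (g : alternatingGroup α)
    {w : Perm α} (hw : w ∈ HH (α := α) (g • v)) : (g : Perm α)⁻¹ * w * (g : Perm α) ∈ HH (α := α) v := by
  obtain ⟨h1, h2⟩ := mem_HH.1 hw
  rw [mem_HH]
  refine ⟨?_, ?_⟩
  · exact (alternatingGroup α).mul_mem ((alternatingGroup α).mul_mem (g⁻¹).2 h1) g.2
  · have h3 : (⟨(g : Perm α)⁻¹ * w * (g : Perm α), (alternatingGroup α).mul_mem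
        ((alternatingGroup α).mul_mem (g⁻¹).2 h1) g.2⟩ : alternatingGroup α) = g⁻¹ * ⟨w, h1⟩ * g := rfl
    rw [h3, mul_smul, mul_smul, h2, inv_smul_smul]

theorem Cov.smul {V : Type*} [MulAction (alternatingGroup α) V] {v : V} {p : ℕ}
    {g : alternatingGroup α} (h : Cov (α := α) (g • v) p) : Cov (α := α) v p := by
  obtain ⟨⟨z, hz, hzc⟩, hcard⟩ := h
  have hconj : ∀ w : Perm α, QCyc p w → QCyc p ((g : Perm α)⁻¹ * w * (g : Perm α)) := by
    intro w hw
    have := hw.conj (g : Perm α)⁻¹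
    rwa [inv_inv] at this
  refine ⟨⟨_, HH_smul g hz, hconj z hzc⟩, lt_of_le_of_lt ?_ hcard⟩
  refine Set.ncard_le_ncard_of_injOn (fun x => (g : Perm α) x) ?_
    ((g : Perm α).injective.injOn) (Set.toFinite _)
  rintro x hx ⟨w, hw, hwc, hxw⟩
  apply hx
  refine ⟨_, HH_smul g hw, hconj w hwc, ?_⟩
  rw [Perm.mem_support] at hxw ⊢
  rw [Perm.mul_apply, Perm.mul_apply, Ne, Perm.inv_eq_iff_eq]
  exact hxw

end

theorem cov_of_fix {n : ℕ} {V : Type*} [MulAction (alternatingGroup (Fin n)) V] {p : ℕ}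
    (hp : p.Prime) (hodd : Odd p) (hpn : p ≤ n) (e : Fin (n / p) × ZMod p ↪ Fin n) {v : V}
    (hv : ∀ w, tau e hodd w • v = v) : Cov (α := Fin n) v p := by
  classical
  have := Fact.mk hp
  have hmem : ∀ w, Perm.viaEmbeddingHom e (shiftHom (n / p) p w) ∈ HH (α := Fin n) v := by
    intro w
    rw [mem_HH]
    exact ⟨shift_even e hodd w, hv w⟩
  have hpos : 0 < n / p := Nat.div_pos hpn hp.pos
  refine ⟨⟨_, hmem _, (via_single hp e ⟨0, hpos⟩).1⟩, ?_⟩
  have hsub : {x : Fin n | ¬ ∃ w ∈ HH (α := Fin n) v, QCyc p w ∧ x ∈ w.support} ⊆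
      (Set.range e)ᶜ := by
    rintro x hx ⟨⟨i, u⟩, rfl⟩
    exact hx ⟨_, hmem _, (via_single hp e i).1, (via_single hp e i).2 u⟩
  refine lt_of_le_of_lt (Set.ncard_le_ncard hsub (Set.toFinite _)) ?_
  have h1 := Set.ncard_add_ncard_compl (Set.range e)
  have h2 : (Set.range e).ncard = n / p * p := by
    rw [← Set.image_univ, Set.ncard_image_of_injective _ e.injective, Set.ncard_univ,
      Nat.card_eq_fintype_card, Fintype.card_prod, Fintype.card_fin, ZMod.card]
  rw [h2, Nat.card_eq_fintype_card, Fintype.card_fin] at h1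
  have h3 := Nat.div_add_mod n p
  have h4 := Nat.mod_lt n hp.pos
  rw [mul_comm] at h3
  omega

theorem main_two_orbits {n : ℕ} (hn : 10 ^ 9 ≤ n) {V : Type*} [Finite V]
    [MulAction (alternatingGroup (Fin n)) V] {Y : SimpleGraph V} {k : ℕ} (hk : 200 * k ≤ n)
    (hgood : Good (alternatingGroup (Fin n)) k V Y) {x y : V}
    (hxy : ∀ v : V, v ∈ orbit (alternatingGroup (Fin n)) x ∨ v ∈ orbit (alternatingGroup (Fin n)) y) :
    False := by
  classical
  have hcov : ∀ p : ℕ, p.Prime → 5 ≤ p → 3 * p ≤ n → k ≤ p → ∃ v : V, Cov (α := Fin n) v p := by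
    intro p hp h5 h3 hkp
    have := Fact.mk hp
    have hodd : Odd p := hp.odd_of_ne_two (by omega)
    obtain ⟨e⟩ : Nonempty (Fin (n / p) × ZMod p ↪ Fin n) := by
      apply Function.Embedding.nonempty_of_card_le
      rw [Fintype.card_prod, Fintype.card_fin, ZMod.card, Fintype.card_fin]
      exact Nat.div_mul_le_self n p
    have hm : 3 ≤ n / p := (Nat.le_div_iff_mul_le hp.pos).2 h3
    rcases fix_or_minor e hgood.adj hgood.conn hp h5 hm hodd with h | ⟨v, hv⟩
    · exact absurd (h.mono hkp) hgood.nominor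
    · exact ⟨v, cov_of_fix hp hodd (by omega) e hv⟩
  obtain ⟨p₁, hp₁, h11, h12⟩ := Nat.exists_prime_lt_and_le_two_mul (n / 6) (by omega)
  obtain ⟨p₂, hp₂, h21, h22⟩ := Nat.exists_prime_lt_and_le_two_mul (n / 24) (by omega)
  obtain ⟨p₃, hp₃, h31, h32⟩ := Nat.exists_prime_lt_and_le_two_mul (n / 96) (by omega)
  let P : Fin 3 → ℕ := ![p₁, p₂, p₃]
  have hP : ∀ i, (P i).Prime ∧ n / 96 < P i ∧ 3 * P i ≤ n := by
    intro i
    fin_cases i
    · exact ⟨hp₁, by change n / 96 < p₁; omega, by change 3 * p₁ ≤ n; omega⟩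
    · exact ⟨hp₂, by change n / 96 < p₂; omega, by change 3 * p₂ ≤ n; omega⟩
    · exact ⟨hp₃, by change n / 96 < p₃; omega, by change 3 * p₃ ≤ n; omega⟩
  have hP2 : ∀ i j, i < j → 2 * P j ≤ P i := by
    intro i j hij
    fin_cases i <;> fin_cases j
    · exact absurd hij (lt_irrefl _)
    · change 2 * p₂ ≤ p₁; omega
    · change 2 * p₃ ≤ p₁; omega
    · exact absurd hij (by decide)
    · exact absurd hij (lt_irrefl _)
    · change 2 * p₃ ≤ p₂; omega
    · exact absurd hij (by decide)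
    · exact absurd hij (by decide)
    · exact absurd hij (lt_irrefl _)
  have hv : ∀ i, ∃ v : V, Cov (α := Fin n) v (P i) := fun i =>
    hcov (P i) (hP i).1 (by have := (hP i).2.1; omega) (hP i).2.2 (by have := (hP i).2.1; omega)
  choose v hv using hv
  obtain ⟨i, j, hij, g, hg⟩ : ∃ i j : Fin 3, i < j ∧ ∃ g : alternatingGroup (Fin n), g • v i = v j := by
    obtain ⟨i, j, hne, h⟩ := Fintype.exists_ne_map_eq_of_card_lt
      (fun m : Fin 3 => decide (v m ∈ orbit (alternatingGroup (Fin n)) x)) (by simp)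
    simp only [decide_eq_decide] at h
    have key : ∀ (z : V) (i j : Fin 3), v i ∈ orbit (alternatingGroup (Fin n)) z →
        v j ∈ orbit (alternatingGroup (Fin n)) z →
        ∃ g : alternatingGroup (Fin n), g • v i = v j := by
      rintro z i j ⟨g, hg⟩ ⟨g', hg'⟩
      have hg1 : g • z = v i := hg
      have hg2 : g' • z = v j := hg'
      refine ⟨g' * g⁻¹, ?_⟩
      rw [← hg1, mul_smul, inv_smul_smul, hg2]
    have key2 : ∃ z, v i ∈ orbit (alternatingGroup (Fin n)) z ∧
        v j ∈ orbit (alternatingGroup (Fin n)) z := by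
      by_cases hm : v i ∈ orbit (alternatingGroup (Fin n)) x
      · exact ⟨x, hm, h.1 hm⟩
      · exact ⟨y, (hxy _).resolve_left hm, (hxy _).resolve_left (fun h' => hm (h.2 h'))⟩
    obtain ⟨z, h1, h2⟩ := key2
    rcases lt_or_gt_of_ne hne with hlt | hlt
    · exact ⟨i, j, hlt, key z i j h1 h2⟩
    · exact ⟨j, i, hlt, key z j i h2 h1⟩
  have hcj : Cov (α := Fin n) (v i) (P j) := by
    have := hv j
    rw [← hg] at this
    exact this.smul
  obtain ⟨⟨z, hz, hzc⟩, _⟩ := hv i
  obtain ⟨C, hC1, hC2⟩ := exists_altIn (hP i).1 (hP j).1 (hP2 i j hij) hz hzc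
    (lt_of_lt_of_le hcj.2 (by have := hP2 i j hij; omega))
  have hCfix : FixT (v i) C.toFinset := by
    rw [fixT_iff, Set.coe_toFinset]
    exact hC2
  have hCcard : P i ≤ C.toFinset.card := by
    rwa [← Set.ncard_eq_toFinset_card']
  -- a maximal fixed set
  obtain ⟨⟨v₀, T₀⟩, h₀, hmax⟩ := Set.exists_max_image
    {vT : V × Finset (Fin n) | FixT vT.1 vT.2} (fun vT => vT.2.card) (Set.toFinite _)
    ⟨(v i, C.toFinset), hCfix⟩
  have hmax' : ∀ (v : V) (T : Finset (Fin n)), FixT v T → T.card ≤ T₀.card :=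
    fun v T h => hmax (v, T) h
  have hb1 : P i ≤ T₀.card := hCcard.trans (hmax' _ _ hCfix)
  have hb2 : T₀.card < n := by
    have h1 : T₀.card ≤ n := by
      have := Finset.card_le_univ T₀
      rwa [Fintype.card_fin] at this
    refine lt_of_le_of_ne h1 (fun h2 => ?_)
    have h3 : T₀ = Finset.univ := by
      rw [← Finset.card_eq_iff_eq_univ, Fintype.card_fin]
      exact h2
    obtain ⟨g, hg⟩ := hgood.nofix v₀
    apply hg
    have h4 : FixT v₀ T₀ := h₀
    apply h4
    intro x hx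
    rw [h3] at hx
    exact absurd (Finset.mem_univ x) hx
  have hb3 : n ≤ 96 * T₀.card := by
    have := (hP i).2.1
    omega
  obtain ⟨r, M, T, hT⟩ := exists_fams hn hb3 hb2 hk
  exact hgood.nominor (kminor_of_three hgood.adj hgood.conn hxy hT h₀ rfl hmax')

/-- every finite graph whose automorphism group is `A_n` has a large complete minor -/
theorem lower_bound {n : ℕ} (hn : 10 ^ 9 ≤ n) {V : Type} [Finite V] {X : SimpleGraph V}
    (e : (X ≃g X) ≃* alternatingGroup (Fin n)) {k : ℕ} (hk : 200 * k ≤ n) : HasKMinor X k := by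
  by_contra hcon
  obtain ⟨V', _, _, Y, hY⟩ := exists_good (by omega) e hcon
  obtain ⟨V'', _, _, Y'', hY'', x, y, hxy⟩ := exists_two_orbits (Nat.card V') V' Y le_rfl hY
  exact main_two_orbits hn hk hY'' hxy

end Pool.Agent.Helper999.HM
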