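import Pool.Agent.Helper999.HMFamily

set_option autoImplicit false

namespace Pool.Agent.Helper999.HM

open Equiv

theorem exists_parts {n r : ℕ} (s : Fin r → ℕ) (hs : ∑ i, s i = n) :
    ∃ T : Fin r → Finset (Fin n), (∀ x, ∃ j, x ∈ T j) ∧ (∀ i j, i ≠ j → Disjoint (T i) (T j)) ∧
      ∀ i, (T i).card = s i := by
  classical
  obtain ⟨e⟩ : Nonempty (Fin n ≃ Σ i : Fin r, Fin (s i)) := by
    apply Fintype.card_eq.1
    rw [Fintype.card_fin, Fintype.card_sigma]
    simp [hs]
  refine ⟨fun i => Finset.univ.image (fun k : Fin (s i) => e.symm ⟨i, k⟩), ?_, ?_, ?_⟩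
  · intro x
    refine ⟨(e x).1, ?_⟩
    rw [Finset.mem_image]
    exact ⟨(e x).2, Finset.mem_univ _, by simp⟩
  · intro i j hij
    rw [Finset.disjoint_left]
    intro x hx hx'
    obtain ⟨k, _, rfl⟩ := Finset.mem_image.1 hx
    obtain ⟨k', _, hk'⟩ := Finset.mem_image.1 hx'
    have := e.symm.injective hk'
    exact hij (congrArg Sigma.fst this).symm
  · intro i
    rw [Finset.card_image_of_injective, Finset.card_univ, Fintype.card_fin]
    intro k k' hkk'
    have := e.symm.injective hkk'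
    simpa using this

/-- the sizes -/
def sz (a L r' m : ℕ) (i : ℕ) : ℕ := if i = 0 then a - m else if i = r' + 1 then L + m else a + i

theorem sz_sum (a L r' m : ℕ) (hm : m ≤ a) :
    ∑ i ∈ Finset.range (r' + 2), sz a L r' m i = L + a + ∑ i ∈ Finset.range r', (a + (i + 1)) := by
  rw [Finset.sum_range_succ, Finset.sum_range_succ']
  have h1 : sz a L r' m (r' + 1) = L + m := by
    unfold sz
    rw [if_neg (by omega), if_pos rfl]
  have h2 : sz a L r' m 0 = a - m := by
    unfold sz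
    rw [if_pos rfl]
  have h3 : ∑ i ∈ Finset.range r', sz a L r' m (i + 1) = ∑ i ∈ Finset.range r', (a + (i + 1)) := by
    apply Finset.sum_congr rfl
    intro i hi
    rw [Finset.mem_range] at hi
    unfold sz
    rw [if_neg (by omega), if_neg (by omega)]
  rw [h1, h2, h3]
  omega

theorem sum_bounds (a r' : ℕ) : r' * a ≤ ∑ i ∈ Finset.range r', (a + (i + 1)) ∧
    ∑ i ∈ Finset.range r', (a + (i + 1)) ≤ r' * (a + r') := by
  constructor
  · calc r' * a = ∑ i ∈ Finset.range r', a := by rw [Finset.sum_const, Finset.card_range, smul_eq_mul]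
      _ ≤ _ := Finset.sum_le_sum (fun i _ => by omega)
  · calc ∑ i ∈ Finset.range r', (a + (i + 1)) ≤ ∑ i ∈ Finset.range r', (a + r') :=
          Finset.sum_le_sum (fun i hi => by rw [Finset.mem_range] at hi; omega)
      _ = _ := by rw [Finset.sum_const, Finset.card_range, smul_eq_mul]

theorem exists_fams_of {n b k r' q : ℕ} (hq : (r' + 2) * q ≤ n) (hq' : n < (r' + 2) * q + (r' + 2))
    (h1 : q + (r' + 2) * (r' + 2) + (r' + 2) + 2 ≤ b)
    (h2 : (r' = 0 ∧ b < n) ∨ b + 2 * (r' + 2) + 1 < 2 * q) (h3 : k + (r' + 2) + 2 ≤ q)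
    (h4 : 5 + (r' + 2) + 2 ≤ q) :
    ∃ (M : ℕ) (T : Fin 3 → Fin (r' + 2) → Finset (Fin n)), ∀ m : Fin 3,
      Fam (Fin n) b k (M + m) (r' + 2) (T m) := by
  obtain ⟨a, rfl⟩ : ∃ a, q = a + (r' + 2) := ⟨q - (r' + 2), by omega⟩
  obtain ⟨hs1, hs2⟩ := sum_bounds a r'
  set S := ∑ i ∈ Finset.range r', (a + (i + 1)) with hS
  have hn1 : (r' + 2) * (a + (r' + 2)) = r' * a + 2 * a + (r' + 2) * (r' + 2) := by ring
  have hn2 : r' * (a + r') = r' * a + r' * r' := by ring
  have hn3 : (r' + 2) * (r' + 2) = r' * r' + 4 * r' + 4 := by ring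
  obtain ⟨L, hL⟩ : ∃ L, n = L + a + S := ⟨n - (a + S), by
    rw [hn1] at hq
    rw [hn2] at hs2
    omega⟩
  have hL1 : a + 4 * r' + 4 ≤ L := by
    rw [hn1] at hq
    rw [hn2] at hs2
    omega
  have hL2 : L < a + (r' + 2) * (r' + 2) + (r' + 2) := by
    rw [hn1] at hq'
    omega
  have hparts : ∀ m : Fin 3, ∃ T : Fin (r' + 2) → Finset (Fin n), (∀ x, ∃ j, x ∈ T j) ∧
      (∀ i j, i ≠ j → Disjoint (T i) (T j)) ∧ ∀ i, (T i).card = sz a L r' m i := by
    intro m
    refine exists_parts (fun i : Fin (r' + 2) => sz a L r' m i) ?_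
    rw [Fin.sum_univ_eq_sum_range (fun i => sz a L r' m i), sz_sum _ _ _ _ (by omega), hL]
  choose T hT1 hT2 hT3 using hparts
  refine ⟨L, T, fun m => ⟨hT1 m, hT2 m, ?_, ?_, ?_, ?_, ?_, ?_, ?_⟩⟩
  · intro i j hij
    have hij' : (i : ℕ) ≠ j := fun h => hij (Fin.ext h)
    rw [hT3, hT3]
    have hm := m.2
    have hi := i.2
    have hj := j.2
    rcases h2 with ⟨h2, h2'⟩ | h2
    · subst h2
      simp only [Finset.range_zero, Finset.sum_empty] at hS
      unfold sz
      split_ifs <;> omega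
    · unfold sz
      split_ifs <;> omega
  · intro i
    rw [hT3]
    have hm := m.2
    have hi := i.2
    unfold sz
    split_ifs <;> omega
  · intro i
    rw [hT3]
    have hm := m.2
    have hi := i.2
    unfold sz
    split_ifs <;> omega
  · intro i
    rw [hT3]
    have hm := m.2
    have hi := i.2
    unfold sz
    split_ifs <;> omega
  · intro i j hij
    rw [hT3, hT3] at hij
    have hm := m.2
    have hi := i.2
    have hj := j.2
    apply Fin.ext
    unfold sz at hij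
    split_ifs at hij <;> omega
  · refine ⟨⟨r' + 1, by omega⟩, ?_⟩
    rw [hT3]
    unfold sz
    rw [if_neg (by simp), if_pos rfl]
  · intro i
    rw [hT3]
    have hm := m.2
    have hi := i.2
    unfold sz
    split_ifs <;> omega

theorem exists_fams {n b k : ℕ} (hn : 10 ^ 9 ≤ n) (hb : n ≤ 96 * b) (hbn : b < n)
    (hk : 200 * k ≤ n) :
    ∃ (r M : ℕ) (T : Fin 3 → Fin r → Finset (Fin n)), ∀ m : Fin 3, Fam (Fin n) b k (M + m) r (T m) := by
  have hex : ∃ r', n / (r' + 2) + (r' + 2) * (r' + 2) + (r' + 2) + 2 ≤ b := ⟨95, by omega⟩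
  classical
  obtain ⟨r', hspec, hle, hmin⟩ : ∃ r', n / (r' + 2) + (r' + 2) * (r' + 2) + (r' + 2) + 2 ≤ b ∧
      r' ≤ 95 ∧ ∀ t, t < r' → ¬ n / (t + 2) + (t + 2) * (t + 2) + (t + 2) + 2 ≤ b :=
    ⟨Nat.find hex, Nat.find_spec hex, Nat.find_min' hex (by omega),
      fun t ht => Nat.find_min hex ht⟩
  have h2 : (r' = 0 ∧ b < n) ∨ b + 2 * (r' + 2) + 1 < 2 * (n / (r' + 2)) := by
    rcases Nat.eq_zero_or_pos r' with h | h
    · exact Or.inl ⟨h, hbn⟩
    · right
      have h3 := hmin (r' - 1) (by omega)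
      clear hmin hex hspec
      interval_cases r' <;> omega
  have h3 : k + (r' + 2) + 2 ≤ n / (r' + 2) ∧ 5 + (r' + 2) + 2 ≤ n / (r' + 2) := by
    clear hmin hex hspec h2
    have : n / 97 ≤ n / (r' + 2) := Nat.div_le_div_left (by omega) (by omega)
    omega
  obtain ⟨M, T, hT⟩ := exists_fams_of (n := n) (b := b) (k := k) (r' := r') (q := n / (r' + 2))
    (Nat.mul_div_le n (r' + 2)) (by
      have := Nat.lt_mul_div_succ n (show 0 < r' + 2 by omega)
      rw [Nat.mul_add, Nat.mul_one] at this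
      exact this) hspec h2 h3.1 h3.2
  exact ⟨_, M, T, hT⟩

end Pool.Agent.Helper999.HM
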