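import Pool.Agent.Helper999.HMBasic

set_option autoImplicit false

namespace Pool.Agent.Helper999.HM

open SimpleGraph Equiv

section
variable {n : ℕ}

/-- `n` base points and, for every even permutation `σ`, a path with `n + 1` vertices whose
`(j+1)`-st vertex is joined to the base point `σ j` -/
def upAdj (n : ℕ) : (Fin n ⊕ (alternatingGroup (Fin n) × Fin (n + 1))) →
    (Fin n ⊕ (alternatingGroup (Fin n) × Fin (n + 1))) → Prop
  | Sum.inl _, Sum.inl _ => False
  | Sum.inl a, Sum.inr x => ∃ j : Fin n, x.2 = j.succ ∧ (x.1 : Perm (Fin n)) j = a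
  | Sum.inr x, Sum.inl a => ∃ j : Fin n, x.2 = j.succ ∧ (x.1 : Perm (Fin n)) j = a
  | Sum.inr x, Sum.inr y => x.1 = y.1 ∧ ((x.2 : ℕ) + 1 = y.2 ∨ (y.2 : ℕ) + 1 = x.2)

/-- the graph -/
def upGraph (n : ℕ) : SimpleGraph (Fin n ⊕ (alternatingGroup (Fin n) × Fin (n + 1))) where
  Adj := upAdj n
  symm := ⟨by
    rintro (a | x) (b | y) h
    · exact h
    · exact h
    · exact h
    · exact ⟨h.1.symm, h.2.symm⟩⟩
  loopless := ⟨by
    rintro (a | x) h
    · exact h
    · rcases h.2 with h | h <;> omega⟩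

theorem adj_base (a : Fin n) (x : alternatingGroup (Fin n) × Fin (n + 1)) :
    (upGraph n).Adj (Sum.inl a) (Sum.inr x) ↔ ∃ j : Fin n, x.2 = j.succ ∧ (x.1 : Perm (Fin n)) j = a :=
  Iff.rfl

theorem adj_path (x y : alternatingGroup (Fin n) × Fin (n + 1)) :
    (upGraph n).Adj (Sum.inr x) (Sum.inr y) ↔
      x.1 = y.1 ∧ ((x.2 : ℕ) + 1 = y.2 ∨ (y.2 : ℕ) + 1 = x.2) := Iff.rfl

/-- the map on vertices induced by an even permutation of the base points -/
def upMap (π : alternatingGroup (Fin n)) :
    (Fin n ⊕ (alternatingGroup (Fin n) × Fin (n + 1))) ≃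
    (Fin n ⊕ (alternatingGroup (Fin n) × Fin (n + 1))) :=
  Equiv.sumCongr (π : Perm (Fin n)) ((Equiv.mulLeft π).prodCongr (Equiv.refl _))

theorem upMap_inl (π : alternatingGroup (Fin n)) (a : Fin n) :
    upMap π (Sum.inl a) = Sum.inl ((π : Perm (Fin n)) a) := rfl

theorem upMap_inr (π : alternatingGroup (Fin n)) (σ : alternatingGroup (Fin n)) (i : Fin (n + 1)) :
    upMap π (Sum.inr (σ, i)) = Sum.inr (π * σ, i) := rfl

theorem upMap_adj (π : alternatingGroup (Fin n)) (u v) :
    (upGraph n).Adj (upMap π u) (upMap π v) ↔ (upGraph n).Adj u v := by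
  have h1 : ∀ (a : Fin n) (x : alternatingGroup (Fin n) × Fin (n + 1)),
      (upGraph n).Adj (upMap π (Sum.inl a)) (upMap π (Sum.inr x)) ↔
        (upGraph n).Adj (Sum.inl a) (Sum.inr x) := by
    rintro a ⟨σ, i⟩
    rw [upMap_inl, upMap_inr, adj_base, adj_base]
    constructor
    · rintro ⟨j, hj, hj'⟩
      exact ⟨j, hj, (π : Perm (Fin n)).injective hj'⟩
    · rintro ⟨j, hj, hj'⟩
      exact ⟨j, hj, congrArg (π : Perm (Fin n)) hj'⟩
  rcases u with a | x <;> rcases v with b | y
  · exact Iff.rfl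
  · exact h1 a y
  · rw [adj_comm, h1 b x, adj_comm]
  · obtain ⟨σ, i⟩ := x
    obtain ⟨τ, j⟩ := y
    rw [upMap_inr, upMap_inr, adj_path, adj_path]
    simp

/-- the induced homomorphism -/
def upHom (n : ℕ) : alternatingGroup (Fin n) →* (upGraph n ≃g upGraph n) where
  toFun π := ⟨upMap π, by intro u v; exact upMap_adj π u v⟩
  map_one' := by
    ext v
    rcases v with a | ⟨σ, i⟩
    · rfl
    · change (Sum.inr (1 * σ, i) : Fin n ⊕ _) = Sum.inr (σ, i)
      rw [one_mul]
  map_mul' π ρ := by
    ext v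
    rcases v with a | ⟨σ, i⟩
    · rfl
    · change (Sum.inr (π * ρ * σ, i) : Fin n ⊕ _) = Sum.inr (π * (ρ * σ), i)
      rw [mul_assoc]

theorem upHom_inl (π : alternatingGroup (Fin n)) (a : Fin n) :
    upHom n π (Sum.inl a) = Sum.inl ((π : Perm (Fin n)) a) := rfl

theorem upHom_inr (π : alternatingGroup (Fin n)) (σ : alternatingGroup (Fin n)) (i : Fin (n + 1)) :
    upHom n π (Sum.inr (σ, i)) = Sum.inr (π * σ, i) := rfl

theorem upHom_injective : Function.Injective (upHom n) := by
  intro π ρ h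
  apply Subtype.ext
  ext a
  have := congrArg (fun φ : upGraph n ≃g upGraph n => φ (Sum.inl a)) h
  simp only [upHom_inl] at this
  exact congrArg Fin.val (Sum.inl_injective this)

/-- number of neighbours -/
noncomputable def nb (n : ℕ) (v : Fin n ⊕ (alternatingGroup (Fin n) × Fin (n + 1))) : ℕ :=
  {w | (upGraph n).Adj v w}.ncard

theorem nb_iso (φ : upGraph n ≃g upGraph n) (v) : nb n (φ v) = nb n v := by
  unfold nb
  have : {w | (upGraph n).Adj (φ v) w} = φ '' {w | (upGraph n).Adj v w} := by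
    ext w
    constructor
    · intro h
      refine ⟨φ.symm w, ?_, φ.apply_symm_apply w⟩
      have h1 : (upGraph n).Adj (φ v) (φ (φ.symm w)) := by rw [φ.apply_symm_apply]; exact h
      exact φ.map_rel_iff.1 h1
    · rintro ⟨u, hu, rfl⟩
      exact φ.map_rel_iff.2 hu
  rw [this, Set.ncard_image_of_injective _ φ.injective]

theorem card_alt_ge (hn : 4 ≤ n) : 4 ≤ Nat.card (alternatingGroup (Fin n)) := by
  have : Nontrivial (Fin n) := Fin.nontrivial_iff_two_le.2 (by omega)
  have h1 := two_mul_nat_card_alternatingGroup (α := Fin n)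
  rw [Nat.card_perm, Nat.card_eq_fintype_card (α := Fin n), Fintype.card_fin] at h1
  have h2 : Nat.factorial 4 ≤ Nat.factorial n := Nat.factorial_le hn
  have h3 : Nat.factorial 4 = 24 := rfl
  omega

theorem nb_base (hn : 4 ≤ n) (a : Fin n) : 4 ≤ nb n (Sum.inl a) := by
  unfold nb
  refine (card_alt_ge hn).trans ?_
  rw [← Set.ncard_univ]
  refine Set.ncard_le_ncard_of_injOn (fun σ : alternatingGroup (Fin n) =>
    (Sum.inr (σ, ((σ : Perm (Fin n))⁻¹ a).succ) :
      Fin n ⊕ (alternatingGroup (Fin n) × Fin (n + 1)))) ?_ ?_ (Set.toFinite _)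
  · intro σ _
    exact ⟨(σ : Perm (Fin n))⁻¹ a, rfl, (σ : Perm (Fin n)).apply_symm_apply a⟩
  · intro σ _ τ _ h
    exact congrArg Prod.fst (Sum.inr_injective h)

theorem nb_path (x : alternatingGroup (Fin n) × Fin (n + 1)) : nb n (Sum.inr x) ≤ 3 := by
  classical
  unfold nb
  obtain ⟨σ, i⟩ := x
  -- the neighbours: base point, previous and next vertex
  let f : Fin 3 → (Fin n ⊕ (alternatingGroup (Fin n) × Fin (n + 1))) := fun t =>
    if t = 0 then (if h : 0 < (i : ℕ) then Sum.inl ((σ : Perm (Fin n)) ⟨i - 1, by omega⟩) else Sum.inr (σ, i))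
    else if t = 1 then Sum.inr (σ, ⟨i - 1, by omega⟩)
    else (if h : (i : ℕ) < n then Sum.inr (σ, ⟨i + 1, by omega⟩) else Sum.inr (σ, i))
  have hsub : {w | (upGraph n).Adj (Sum.inr (σ, i)) w} ⊆ Set.range f := by
    rintro (a | ⟨τ, j⟩) h
    · obtain ⟨j, hj, hj'⟩ := h
      simp only at hj hj'
      refine ⟨0, ?_⟩
      have hi : 0 < (i : ℕ) := by rw [hj]; simp
      simp only [f, if_true]
      rw [dif_pos hi, ← hj']
      congr 2
      apply Fin.ext
      simp [hj]
    · obtain ⟨h1, h2⟩ := h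
      simp only at h1 h2
      subst h1
      rcases h2 with h2 | h2
      · refine ⟨2, ?_⟩
        have hi : (i : ℕ) < n := by have := j.2; omega
        simp only [f]
        rw [if_neg (by decide), if_neg (by decide), dif_pos hi]
        congr 2
        exact Fin.ext h2
      · refine ⟨1, ?_⟩
        simp only [f]
        rw [if_neg (by decide), if_pos trivial]
        congr 2
        apply Fin.ext
        simp only
        omega
  refine (Set.ncard_le_ncard hsub (Set.toFinite _)).trans ?_
  rw [← Set.image_univ]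
  refine (Set.ncard_image_le (Set.toFinite _)).trans ?_
  rw [Set.ncard_univ, Nat.card_eq_fintype_card, Fintype.card_fin]

theorem nb_leaf (σ : alternatingGroup (Fin n)) : nb n (Sum.inr (σ, 0)) ≤ 1 := by
  classical
  unfold nb
  rw [Set.ncard_le_one (Set.toFinite _)]
  have key : ∀ w, (upGraph n).Adj (Sum.inr (σ, 0)) w → ∃ j : Fin (n + 1), (j : ℕ) = 1 ∧ w = Sum.inr (σ, j) := by
    rintro (a | ⟨τ, j⟩) h
    · obtain ⟨j, hj, _⟩ := h
      exact absurd hj.symm (Fin.succ_ne_zero j)
    · obtain ⟨h1, h2⟩ := h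
      simp only at h1 h2
      subst h1
      refine ⟨j, ?_, rfl⟩
      rcases h2 with h2 | h2
      · simpa using h2.symm
      · simp at h2
  intro a ha b hb
  obtain ⟨j, hj, rfl⟩ := key a ha
  obtain ⟨j', hj', rfl⟩ := key b hb
  have : j = j' := Fin.ext (hj.trans hj'.symm)
  rw [this]

theorem nb_inner (σ : alternatingGroup (Fin n)) (j : Fin n) : 2 ≤ nb n (Sum.inr (σ, j.succ)) := by
  classical
  unfold nb
  have h1 : ({Sum.inl ((σ : Perm (Fin n)) j), Sum.inr (σ, j.castSucc)} :
      Set (Fin n ⊕ (alternatingGroup (Fin n) × Fin (n + 1)))) ⊆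
      {w | (upGraph n).Adj (Sum.inr (σ, j.succ)) w} := by
    rintro w (rfl | rfl)
    · exact ⟨j, rfl, rfl⟩
    · exact ⟨rfl, Or.inr (by simp)⟩
  refine le_trans ?_ (Set.ncard_le_ncard h1 (Set.toFinite _))
  rw [Set.ncard_pair (by simp)]

theorem upHom_surjective (hn : 4 ≤ n) : Function.Surjective (upHom n) := by
  intro φ
  -- base points go to base points
  have hbase : ∀ (φ : upGraph n ≃g upGraph n) (a : Fin n), ∃ b : Fin n, φ (Sum.inl a) = Sum.inl b := by
    intro φ a
    rcases h : φ (Sum.inl a) with b | x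
    · exact ⟨b, rfl⟩
    · exfalso
      have h1 := nb_iso φ (Sum.inl a)
      rw [h] at h1
      have h2 := nb_base hn a
      have h3 := nb_path x
      omega
  have hpath : ∀ (x : alternatingGroup (Fin n) × Fin (n + 1)), ∃ y, φ (Sum.inr x) = Sum.inr y := by
    intro x
    rcases h : φ (Sum.inr x) with b | y
    · exfalso
      have h1 := nb_iso φ (Sum.inr x)
      rw [h] at h1
      have h2 := nb_base hn b
      have h3 := nb_path x
      omega
    · exact ⟨y, rfl⟩
  have hleaf : ∀ σ : alternatingGroup (Fin n), ∃ τ, φ (Sum.inr (σ, 0)) = Sum.inr (τ, 0) := by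
    intro σ
    obtain ⟨⟨τ, i⟩, h⟩ := hpath (σ, 0)
    refine ⟨τ, ?_⟩
    rw [h]
    rcases Fin.eq_zero_or_eq_succ i with rfl | ⟨j, rfl⟩
    · rfl
    · exfalso
      have h1 := nb_iso φ (Sum.inr (σ, 0))
      rw [h] at h1
      have h2 := nb_leaf σ
      have h3 := nb_inner τ j
      omega
  choose s hs using hleaf
  have hall : ∀ (σ : alternatingGroup (Fin n)) (i : ℕ) (hi : i < n + 1),
      φ (Sum.inr (σ, ⟨i, hi⟩)) = Sum.inr (s σ, ⟨i, hi⟩) := by
    intro σ i
    induction i using Nat.strong_induction_on with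
    | _ i ih =>
      intro hi
      rcases Nat.eq_zero_or_pos i with h0 | h0
      · subst h0
        exact hs σ
      · obtain ⟨i, rfl⟩ : ∃ i', i = i' + 1 := ⟨i - 1, by omega⟩
        have h1 := ih i (by omega) (by omega)
        obtain ⟨⟨τ, j⟩, h2⟩ := hpath (σ, ⟨i + 1, hi⟩)
        have h3 : (upGraph n).Adj (Sum.inr (σ, ⟨i, by omega⟩)) (Sum.inr (σ, ⟨i + 1, hi⟩)) :=
          ⟨rfl, Or.inl rfl⟩
        have h4 := φ.map_rel_iff.2 h3
        rw [h1, h2, adj_path] at h4
        obtain ⟨h5, h6⟩ := h4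
        simp only at h5 h6
        rw [h2]
        rcases h6 with h6 | h6
        · rw [h5]
          congr 2
          exact Fin.ext h6.symm
        · exfalso
          have h7 := ih (j : ℕ) (by omega) j.2
          have h8 : (Sum.inr (s σ, ⟨(j : ℕ), j.2⟩) : Fin n ⊕ _) = Sum.inr (τ, j) := by rw [← h5]
          rw [h8, ← h2] at h7
          have h9 := φ.injective h7
          have h10 := congrArg (fun x : alternatingGroup (Fin n) × Fin (n + 1) => (x.2 : ℕ))
            (Sum.inr_injective h9)
          simp only at h10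
          omega
  choose f hf using hbase φ
  have hsf : ∀ (σ : alternatingGroup (Fin n)) (j : Fin n), (s σ : Perm (Fin n)) j = f ((σ : Perm (Fin n)) j) := by
    intro σ j
    have h1 : (upGraph n).Adj (Sum.inl ((σ : Perm (Fin n)) j)) (Sum.inr (σ, j.succ)) := ⟨j, rfl, rfl⟩
    have h2 := φ.map_rel_iff.2 h1
    have h3 : φ (Sum.inr (σ, j.succ)) = Sum.inr (s σ, j.succ) := hall σ _ _
    rw [hf, h3, adj_base] at h2
    obtain ⟨j', hj', hj''⟩ := h2
    simp only at hj' hj''
    rw [Fin.succ_inj] at hj'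
    subst hj'
    exact hj''
  refine ⟨s 1, ?_⟩
  ext v
  have h1 : ∀ a, f a = (s 1 : Perm (Fin n)) a := by
    intro a
    rw [hsf 1 a]
    rfl
  rcases v with a | ⟨σ, i⟩
  · rw [upHom_inl, hf, h1]
  · rw [upHom_inr, hall σ i.1 i.2]
    congr 2
    apply Subtype.ext
    ext j
    rw [hsf σ j, h1]
    rfl

/-- connected vertex sets inside one path are intervals -/
theorem interval {B : Set (Fin n ⊕ (alternatingGroup (Fin n) × Fin (n + 1)))}
    (hB : ∀ a : Fin n, Sum.inl a ∉ B) (hconn : ((upGraph n).induce B).Connected)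
    {x y : alternatingGroup (Fin n) × Fin (n + 1)} (hx : Sum.inr x ∈ B) (hy : Sum.inr y ∈ B) :
    x.1 = y.1 ∧ ∀ t : Fin (n + 1), x.2 ≤ t → t ≤ y.2 → Sum.inr (x.1, t) ∈ B := by
  have h := step_of_conn hconn hx hy
  have key : ∀ v, Relation.ReflTransGen (StepIn (upGraph n) B) (Sum.inr x) v →
      ∃ y, v = Sum.inr y ∧ v ∈ B ∧ x.1 = y.1 ∧
        ∀ t : Fin (n + 1), x.2 ≤ t → t ≤ y.2 → Sum.inr (x.1, t) ∈ B := by
    intro v hv
    induction hv with
    | refl =>
      refine ⟨x, rfl, hx, rfl, ?_⟩
      intro t h1 h2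
      have : t = x.2 := le_antisymm h2 h1
      rw [this]
      exact hx
    | tail _ hs ih =>
      obtain ⟨y, rfl, hyB, hxy, hint⟩ := ih
      obtain ⟨hadj, hzB⟩ := hs
      rename_i z _
      rcases z with a | z
      · exact absurd hzB (hB a)
      · rw [adj_path] at hadj
        obtain ⟨h1, h2⟩ := hadj
        refine ⟨z, rfl, hzB, hxy.trans h1, ?_⟩
        intro t ht1 ht2
        rcases h2 with h2 | h2
        · by_cases ht : t ≤ y.2
          · exact hint t ht1 ht
          · have : t = z.2 := by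
              apply Fin.ext
              rw [Fin.le_def] at ht2 ht
              omega
            rw [this, hxy, h1]
            exact hzB
        · apply hint t ht1
          rw [Fin.le_def] at ht2 ⊢
          omega
  obtain ⟨y', h1, _, h2, h3⟩ := key _ h
  have := Sum.inr_injective h1
  subst this
  exact ⟨h2, h3⟩

/-- at most two pairwise adjacent disjoint connected sets avoid the base points -/
theorem no_three {B : Fin 3 → Set (Fin n ⊕ (alternatingGroup (Fin n) × Fin (n + 1)))}
    (hbase : ∀ i, ∀ a : Fin n, Sum.inl a ∉ B i)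
    (hconn : ∀ i, ((upGraph n).induce (B i)).Connected)
    (hdisj : ∀ i j, i ≠ j → Disjoint (B i) (B j))
    (hadj : ∀ i j, i ≠ j → ∃ a ∈ B i, ∃ b ∈ B j, (upGraph n).Adj a b) : False := by
  classical
  -- smallest positions
  have hmin : ∀ i, ∃ x, Sum.inr x ∈ B i ∧ ∀ y, Sum.inr y ∈ B i → x.2 ≤ y.2 := by
    intro i
    obtain ⟨⟨v, hv⟩⟩ := (hconn i).nonempty
    rcases v with a | x
    · exact absurd hv (hbase i a)
    · obtain ⟨z, hz, hz'⟩ := Set.exists_min_image {x : alternatingGroup (Fin n) × Fin (n + 1) |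
        (Sum.inr x : Fin n ⊕ _) ∈ B i} (fun x => x.2) (Set.toFinite _) ⟨x, hv⟩
      exact ⟨z, hz, fun y hy => hz' y hy⟩
  choose m hm hm' using hmin
  -- everything lies on one path
  have hsame : ∀ i j, (m i).1 = (m j).1 := by
    intro i j
    by_cases hij : i = j
    · rw [hij]
    · obtain ⟨a, ha, b, hb, hab⟩ := hadj i j hij
      rcases a with a | a
      · exact absurd ha (hbase i a)
      rcases b with b | b
      · exact absurd hb (hbase j b)
      rw [adj_path] at hab
      rw [(interval (hbase i) (hconn i) (hm i) ha).1, hab.1,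
        ← (interval (hbase j) (hconn j) (hm j) hb).1]
  have hne : ∀ i j, i ≠ j → (m i).2 ≠ (m j).2 := by
    intro i j hij h
    have h1 : m i = m j := Prod.ext (hsame i j) h
    have h2 := hm j
    rw [← h1] at h2
    exact Set.disjoint_left.1 (hdisj i j hij) (hm i) h2
  -- three sets in increasing order give a contradiction
  have key : ∀ i j l : Fin 3, i ≠ j → j ≠ l → i ≠ l → (m i).2 < (m j).2 → (m j).2 < (m l).2 →
      False := by
    intro i j l hij hjl hil h1 h2
    obtain ⟨a, ha, b, hb, hab⟩ := hadj i l hil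
    rcases a with a | a
    · exact absurd ha (hbase i a)
    rcases b with b | b
    · exact absurd hb (hbase l b)
    rw [adj_path] at hab
    have h3 := hm' l b hb
    have h4 : a.2 < (m j).2 := by
      by_contra hcon
      rw [not_lt] at hcon
      have h5 := (interval (hbase i) (hconn i) (hm i) ha).2 (m j).2 h1.le hcon
      have h6 : (m i).1 = (m j).1 := hsame i j
      rw [h6] at h5
      exact Set.disjoint_left.1 (hdisj i j hij) h5 (hm j)
    rw [Fin.lt_def] at h1 h2 h4
    rw [Fin.le_def] at h3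
    omega
  have h01 := hne 0 1 (by decide)
  have h12 := hne 1 2 (by decide)
  have h02 := hne 0 2 (by decide)
  rcases lt_or_gt_of_ne h01 with a | a <;> rcases lt_or_gt_of_ne h12 with b | b <;>
    rcases lt_or_gt_of_ne h02 with c | c
  · exact key 0 1 2 (by decide) (by decide) (by decide) a b
  · exact key 0 1 2 (by decide) (by decide) (by decide) a b
  · exact key 0 2 1 (by decide) (by decide) (by decide) c b
  · exact key 2 0 1 (by decide) (by decide) (by decide) c a
  · exact key 1 0 2 (by decide) (by decide) (by decide) a c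
  · exact key 1 2 0 (by decide) (by decide) (by decide) b c
  · exact key 2 1 0 (by decide) (by decide) (by decide) b a
  · exact key 2 1 0 (by decide) (by decide) (by decide) b a

theorem up_minor {k : ℕ} (h : HasKMinor (upGraph n) k) : k ≤ n + 2 := by
  classical
  obtain ⟨B, h1, h2, h3⟩ := h
  set I : Finset (Fin k) := Finset.univ.filter (fun i => ∃ a : Fin n, Sum.inl a ∈ B i) with hI
  have hIcard : I.card ≤ n := by
    have hch : ∀ i : I, ∃ a : Fin n, Sum.inl a ∈ B i := fun i => (Finset.mem_filter.1 i.2).2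
    choose f hf using hch
    have hinj : Function.Injective f := by
      intro i j hij
      by_contra hne
      have h4 := hf i
      rw [hij] at h4
      exact Set.disjoint_left.1 (h2 i j (fun h => hne (Subtype.ext h))) h4 (hf j)
    have := Fintype.card_le_of_injective f hinj
    rwa [Fintype.card_coe, Fintype.card_fin] at this
  have hIc : (Iᶜ).card ≤ 2 := by
    by_contra hcon
    push Not at hcon
    obtain ⟨c⟩ : Nonempty (Fin 3 ↪ (Iᶜ : Finset (Fin k))) := by
      apply Function.Embedding.nonempty_of_card_le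
      rw [Fintype.card_fin, Fintype.card_coe]
      omega
    have hmem : ∀ i ∈ Iᶜ, ∀ a : Fin n, Sum.inl a ∉ B i := by
      intro i hi a ha
      exact Finset.mem_compl.1 hi (Finset.mem_filter.2 ⟨Finset.mem_univ _, a, ha⟩)
    have hc : ∀ s t : Fin 3, s ≠ t → (c s : Fin k) ≠ c t := fun s t hst h =>
      hst (c.injective (Subtype.ext h))
    exact no_three (B := fun s => B (c s)) (fun s => hmem _ (c s).2) (fun s => h1 _)
      (fun s t hst => h2 _ _ (hc s t hst)) (fun s t hst => h3 _ _ (hc s t hst))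
  have := Finset.card_add_card_compl I
  rw [Fintype.card_fin] at this
  omega

theorem up_aut (hn : 4 ≤ n) : Nonempty ((upGraph n ≃g upGraph n) ≃* alternatingGroup (Fin n)) :=
  ⟨(MulEquiv.ofBijective (upHom n) ⟨upHom_injective, upHom_surjective hn⟩).symm⟩

end

end Pool.Agent.Helper999.HM
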